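import Pool.Agent.Helper1.GU.Defs

/-!
BLOCK GU-4 (about 150 lines). The set `hub T` (vertices with at least two non-leaf neighbours) is a core for each of its vertices as root; brooms are non-leaves.

Proof in words. Let `RT T r par dep`. Every `x ≠ r` is adjacent to `par x`; the neighbours of `x` are `par x` (if `x ≠ r`) and the children (`edge`). If `x ≠ r` then `par x` is not a leaf, provided `T.degree r ≠ 1`: `par x = r`, or `par x ≠ r` has the two different neighbours `x` and `par (par x)` (depths).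
`core_hub`: `r ∈ hub T` has at least two neighbours, so it is not a leaf. For `x ∈ hub T`, `x ≠ r`: `x` has two neighbours, so it is not a leaf; if `par x ≠ r`, its neighbours `x` and `par (par x)` are different non-leaves, so `par x ∈ hub T`. `two`: `x ∉ hub T`, `par x ∉ hub T`, so `x ≠ r`, `par x ≠ r`, put `y = par x`, `z = par y`. If `z ≠ r`: `y` is not a leaf, `par z` is not a leaf, `y ≠ par z` (depths), so `z ∈ hub T`; if `z = r`: `z ∈ hub T`.
`leaf_of_two`: `par x ∉ hub T`, `y = par x ≠ r`, `par y` is a non-leaf neighbour of `y`; if `x` were a non-leaf, `y` would have two non-leaf neighbours.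
`broom_iff`: for a set `S` closed under parents and `x ∉ S`: the neighbours of `x` are `par x` and the children, which are not in `S`.
`hub_nb`: a non-leaf `x ∉ hub T`, `x ≠ r`: `par x ∈ hub T` (`leaf_of_two`).
-/

set_option autoImplicit false

namespace Pool.Agent.Helper1.GU

open Finset Pool.Agent.Helper19.GH Pool.Agent.Helper1.GN

variable {V : Type} [Fintype V] [DecidableEq V] {T : SimpleGraph V} {r : V} {par : V → V} {dep : V → ℕ} {S : Finset V}

open Classical in
private theorem deg94 {x y z : V} (hy : T.Adj x y) (hz : T.Adj x z) (hyz : y ≠ z) : T.degree x ≠ 1 := by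
  intro h
  obtain ⟨w, -, hw⟩ := SimpleGraph.degree_eq_one_iff_existsUnique_adj.1 h
  exact hyz ((hw y hy).trans (hw z hz).symm)

open Classical in
private theorem hub94 {x y z : V} (hy : T.Adj x y) (hz : T.Adj x z) (hyz : y ≠ z) (h1 : T.degree y ≠ 1) (h2 : T.degree z ≠ 1) :
    x ∈ hub T := by
  refine mem_filter.2 ⟨mem_univ _, Finset.one_lt_card.2 ⟨y, mem_filter.2 ⟨mem_univ _, hy, h1⟩, z, mem_filter.2 ⟨mem_univ _, hz, h2⟩, hyz⟩⟩

open Classical in
private theorem ofhub94 {x : V} (hx : x ∈ hub T) : T.degree x ≠ 1 := by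
  obtain ⟨y, hy, z, hz, hyz⟩ := Finset.one_lt_card.1 (mem_filter.1 hx).2
  exact deg94 (mem_filter.1 hy).2.1 (mem_filter.1 hz).2.1 hyz

private theorem par_adj94 (h : RT T r par dep) {x : V} (hx : x ≠ r) : T.Adj (par x) x := (h.adj x hx).symm

private theorem par_ne94 (h : RT T r par dep) {x : V} (hx : x ≠ r) (hp : par x ≠ r) : x ≠ par (par x) := by
  intro he
  have h1 := h.dep_par x hx
  have h2 := h.dep_par (par x) hp
  rw [← he] at h2
  omega

open Classical in
private theorem nonleaf94 (h : RT T r par dep) (hr : T.degree r ≠ 1) {x : V} (hx : x ≠ r) : T.degree (par x) ≠ 1 := by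
  by_cases hp : par x = r
  · rw [hp]; exact hr
  · exact deg94 (par_adj94 h hx) (h.adj (par x) hp) (par_ne94 h hx hp)

theorem core_hub (h : RT T r par dep) (hr : r ∈ hub T) : Core T r par dep (hub T) := by
  classical
  have hrl := ofhub94 hr
  refine ⟨h, hr, ?_, ?_⟩
  · intro x hx hxr
    by_cases hp : par x = r
    · rw [hp]; exact hr
    · exact hub94 (par_adj94 h hxr) (h.adj (par x) hp) (par_ne94 h hxr hp) (ofhub94 hx) (nonleaf94 h hrl hp)
  · intro x hx hp
    have hxr : x ≠ r := fun e => hx (e ▸ hr)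
    have hpr : par x ≠ r := fun e => hp (e ▸ hr)
    by_cases hz : par (par x) = r
    · rw [hz]; exact hr
    · exact hub94 (par_adj94 h hpr) (h.adj _ hz) (par_ne94 h hpr hz) (nonleaf94 h hrl hxr) (nonleaf94 h hrl hz)

open Classical in
theorem leaf_of_two (h : RT T r par dep) (hr : r ∈ hub T) {x : V} (hx : x ≠ r) (hp : par x ∉ hub T) : T.degree x = 1 := by
  by_contra hd
  have hpr : par x ≠ r := fun e => hp (e ▸ hr)
  exact hp (hub94 (par_adj94 h hx) (h.adj (par x) hpr) (par_ne94 h hx hpr) hd (nonleaf94 h (ofhub94 hr) hpr))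

open Classical in
theorem broom_iff (h : RT T r par dep) (hr : r ∈ S) (hcl : ∀ x ∈ S, x ≠ r → par x ∈ S) {x : V} (hx : x ∉ S) :
    T.degree x ≠ 1 ↔ ∃ y, y ∉ S ∧ par y = x := by
  have hxr : x ≠ r := fun e => hx (e ▸ hr)
  constructor
  · intro hd
    have hex : ∃ y, T.Adj x y ∧ y ≠ par x := by
      by_contra hne
      push Not at hne
      exact hd (SimpleGraph.degree_eq_one_iff_existsUnique_adj.2 ⟨par x, h.adj x hxr, fun y hy => hne y hy⟩)
    obtain ⟨y, hy, hne⟩ := hex
    rcases h.edge x y hy with ⟨-, he⟩ | ⟨hyr, he⟩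
    · exact absurd he.symm hne
    · refine ⟨y, fun hyS => hx ?_, he⟩
      have := hcl y hyS hyr
      rwa [he] at this
  · rintro ⟨y, hyS, he⟩
    have hyr : y ≠ r := fun e => hyS (e ▸ hr)
    subst he
    exact deg94 (par_adj94 h hyr) (h.adj _ hxr) (par_ne94 h hyr hxr)

open Classical in
/-- If no vertex has two non-leaf neighbours then there are at most two non-leaves, and they are adjacent. -/
theorem hub_empty (hT : T.IsTree) (h3 : 3 ≤ Fintype.card V) (h : hub T = ∅) :
    ∃ r b, T.degree r ≠ 1 ∧ T.Adj r b ∧ ∀ x, T.degree x ≠ 1 → x = r ∨ x = b := by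
  have hr : ∃ r, T.degree r ≠ 1 := by
    by_contra hne
    push Not at hne
    have h1 := T.sum_degrees_eq_twice_card_edges
    have h2 := hT.card_edgeFinset
    simp only [hne, sum_const, card_univ, smul_eq_mul, mul_one] at h1
    omega
  obtain ⟨r, hr⟩ := hr
  obtain ⟨par, dep, hRT⟩ := exists_RT T hT r
  have hpar : ∀ x, T.degree x ≠ 1 → x ≠ r → par x = r := by
    intro x hx hxr
    by_contra hp
    have := hub94 (par_adj94 hRT hxr) (hRT.adj _ hp) (par_ne94 hRT hxr hp) hx (nonleaf94 hRT hr hp)
    rw [h] at this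
    exact absurd this (notMem_empty _)
  have hadj : ∀ x, T.degree x ≠ 1 → x ≠ r → T.Adj r x := by
    intro x hx hxr
    have := hRT.adj x hxr
    rw [hpar x hx hxr] at this
    exact this.symm
  by_cases hb : ∃ b, T.degree b ≠ 1 ∧ b ≠ r
  · obtain ⟨b, hb1, hb2⟩ := hb
    refine ⟨r, b, hr, hadj b hb1 hb2, fun x hx => ?_⟩
    by_contra hne
    push Not at hne
    have := hub94 (hadj x hx hne.1) (hadj b hb1 hb2) hne.2 hx hb1
    rw [h] at this
    exact absurd this (notMem_empty _)
  · push Not at hb
    obtain ⟨b, hb'⟩ : ∃ b, b ≠ r := by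
      by_contra hne
      push Not at hne
      have : Fintype.card V ≤ 1 := Fintype.card_le_one_iff.2 fun a b => (hne a).trans (hne b).symm
      omega
    have hn : ∃ b, T.Adj r b := by
      by_contra hne
      push Not at hne
      obtain ⟨w⟩ := hT.connected.preconnected r b
      cases w with
      | nil => exact hb' rfl
      | cons hadj' _ => exact hne _ hadj'
    obtain ⟨c, hc⟩ := hn
    exact ⟨r, c, hr, hc, fun x hx => Or.inl (hb x hx)⟩

end Pool.Agent.Helper1.GU
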