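import Pool.Agent.Helper1.GU.Close

/-!
BLOCK GU-5 (about 120 lines). Stars and double stars.

Proof in words. `hub_empty` gives `r`, `b`. WLOG `r ∉ B` (otherwise use `Bᶜ`; `hB` is symmetric), so `b ∈ B`. `exists_RT T hT r`: `par b = r`, and for `x ∉ {r, b}`: `x` is a leaf, `par x ∈ {r, b}` (if `par x ≠ r` then `par x` has the neighbours `x` and `par (par x)`, so it is not a leaf, so it is `b`).
Labels modulo `n`: `f r = 0`, `f b = 0`; let `p` = number of the columns `≠ b` (children of `r`), `q` = number of rows `≠ r` (children of `b`), `p + q + 1 = n` (`card V = n + 1`). The columns `≠ b` get the labels `-1, ..., -p` (colours `1, ..., p`), the rows `≠ r` the labels `p + 1, ..., n - 1` (colours the same).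
Integer labels with `labR_cast`: rows in `[0, n)`, columns in `[-p, -p + n)`, colours in `[0, n)`; `decomposes_of_labR`.
-/

set_option autoImplicit false

namespace Pool.Agent.Helper1.GU

open Finset Pool.Agent.Helper19.GH Pool.Agent.Helper1.GN

variable {V : Type} [Fintype V] [DecidableEq V] {T : SimpleGraph V}

private theorem enum75 {V : Type} [DecidableEq V] (S : Finset V) :
    ∃ g : V → ℕ, (∀ x ∈ S, g x < S.card) ∧ ∀ x ∈ S, ∀ y ∈ S, g x = g y → x = y := by
  classical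
  refine ⟨fun x => if h : x ∈ S then (S.equivFin ⟨x, h⟩ : ℕ) else 0, ?_, ?_⟩
  · intro x hx
    simp only [hx, dif_pos]
    exact (S.equivFin ⟨x, hx⟩).2
  · intro x hx y hy hxy
    simp only [hx, hy, dif_pos] at hxy
    have := S.equivFin.injective (Fin.ext hxy)
    exact congrArg Subtype.val this

open Classical in
private theorem main75 (hT : T.IsTree) {n : ℕ} (hn : Fintype.card V = n + 1) (h3 : 3 ≤ Fintype.card V)
    {B : Finset V} (hB : ∀ u w, T.Adj u w → (u ∈ B ↔ w ∉ B)) {r b : V} (hr1 : T.degree r ≠ 1)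
    (hrb : T.Adj r b) (hall : ∀ x, T.degree x ≠ 1 → x = r ∨ x = b) (hrB : r ∉ B) :
    Decomposes T (completeBipartiteGraph (Fin n) (Fin n)) := by
  classical
  obtain ⟨par, dep, h⟩ := exists_RT T hT r
  have hbr : b ≠ r := hrb.ne'
  have hparb : par b = r := by
    rcases h.edge r b hrb with h1 | h1
    · exact absurd rfl h1.1
    · exact h1.2
  have hpar : ∀ x, x ≠ r → par x = r ∨ par x = b := fun x hx => hall _ (core_closed hT h3 h hr1 x hx)
  have hdr : dep r = 0 := h.root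
  have hdb : dep b = 1 := by rw [h.dep_par b hbr, hparb, hdr]
  have hd1 : ∀ x, x ≠ r → par x = r → dep x = 1 := fun x hx hp => by rw [h.dep_par x hx, hp, hdr]
  have hd2 : ∀ x, x ≠ r → par x = b → dep x = 2 := fun x hx hp => by rw [h.dep_par x hx, hp, hdb]
  obtain ⟨C1, hC1⟩ : ∃ C1 : Finset V, ∀ x, x ∈ C1 ↔ x ≠ r ∧ x ≠ b ∧ par x = r :=
    ⟨univ.filter (fun x => x ≠ r ∧ x ≠ b ∧ par x = r), fun x => by simp⟩
  obtain ⟨C2, hC2⟩ : ∃ C2 : Finset V, ∀ x, x ∈ C2 ↔ x ≠ r ∧ par x = b :=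
    ⟨univ.filter (fun x => x ≠ r ∧ par x = b), fun x => by simp⟩
  obtain ⟨g1, hg1, hg1'⟩ := enum75 C1
  obtain ⟨g2, hg2, hg2'⟩ := enum75 C2
  have hclass : ∀ x, x = r ∨ x = b ∨ x ∈ C1 ∨ x ∈ C2 := by
    intro x
    by_cases hxr : x = r
    · exact Or.inl hxr
    · by_cases hxb : x = b
      · exact Or.inr (Or.inl hxb)
      · rcases hpar x hxr with hp | hp
        · exact Or.inr (Or.inr (Or.inl ((hC1 x).2 ⟨hxr, hxb, hp⟩)))
        · exact Or.inr (Or.inr (Or.inr ((hC2 x).2 ⟨hxr, hp⟩)))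
  have hcard : C1.card + C2.card + 1 = n := by
    have h1 : (univ : Finset V) = insert r (insert b (C1 ∪ C2)) := by
      ext x
      simp only [mem_univ, mem_insert, mem_union, true_iff]
      exact hclass x
    have hdisj : Disjoint C1 C2 := by
      rw [Finset.disjoint_left]
      intro x hx hx'
      exact hbr (((hC2 x).1 hx').2.symm.trans ((hC1 x).1 hx).2.2)
    have h2 : b ∉ C1 ∪ C2 := by
      rw [mem_union]
      rintro (hx | hx)
      · exact ((hC1 b).1 hx).2.1 rfl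
      · exact hbr (((hC2 b).1 hx).2.symm.trans hparb)
    have h3' : r ∉ insert b (C1 ∪ C2) := by
      rw [mem_insert, mem_union]
      rintro (hx | hx | hx)
      · exact hbr hx.symm
      · exact ((hC1 r).1 hx).1 rfl
      · exact ((hC2 r).1 hx).1 rfl
    have h4 : Fintype.card V = C1.card + C2.card + 2 := by
      rw [← Finset.card_univ, h1, card_insert_of_notMem h3', card_insert_of_notMem h2,
        card_union_of_disjoint hdisj]
    omega
  obtain ⟨f, hfr, hfb, hf1, hf2⟩ : ∃ f : V → ℤ, f r = 0 ∧ f b = 0 ∧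
      (∀ x ∈ C1, f x = -((g1 x : ℤ) + 1)) ∧ ∀ x ∈ C2, f x = C1.card + 1 + g2 x := by
    refine ⟨fun x => if x = r ∨ x = b then 0 else if par x = r then -((g1 x : ℤ) + 1)
      else C1.card + 1 + g2 x, by simp, by simp, ?_, ?_⟩
    · intro x hx
      obtain ⟨h1, h2, h4⟩ := (hC1 x).1 hx
      simp [h1, h2, h4]
    · intro x hx
      obtain ⟨h1, h4⟩ := (hC2 x).1 hx
      have h2 : x ≠ b := by
        rintro rfl
        exact hbr (h4.symm.trans hparb)
      simp [h1, h2, h4, hbr]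
  have hk : ∀ x, (x = r ∧ f x = 0 ∧ dep x = 0) ∨ (x = b ∧ f x = 0 ∧ dep x = 1 ∧ cl par dep f x = 0) ∨
      (x ∈ C1 ∧ f x = -((g1 x : ℤ) + 1) ∧ dep x = 1 ∧ cl par dep f x = (g1 x : ℤ) + 1 ∧ g1 x < C1.card) ∨
      (x ∈ C2 ∧ f x = C1.card + 1 + g2 x ∧ dep x = 2 ∧ cl par dep f x = C1.card + 1 + g2 x ∧
        g2 x < C2.card) := by
    intro x
    rcases hclass x with hx | hx | hx | hx
    · left
      rw [hx]
      exact ⟨rfl, hfr, hdr⟩
    · right; left
      rw [hx]
      refine ⟨rfl, hfb, hdb, ?_⟩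
      unfold cl
      rw [hdb, if_neg (by decide), hparb, hfr, hfb, sub_zero]
    · right; right; left
      obtain ⟨h1, h2, h4⟩ := (hC1 x).1 hx
      refine ⟨hx, hf1 x hx, hd1 x h1 h4, ?_, hg1 x hx⟩
      unfold cl
      rw [hd1 x h1 h4, if_neg (by decide), h4, hfr, hf1 x hx]
      ring
    · right; right; right
      obtain ⟨h1, h4⟩ := (hC2 x).1 hx
      refine ⟨hx, hf2 x hx, hd2 x h1 h4, ?_, hg2 x hx⟩
      unfold cl
      rw [hd2 x h1 h4, if_pos (by decide), h4, hfb, hf2 x hx]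
      ring
  have hn0 : 0 < n := by omega
  have hlab : LabR r par dep univ f := by
    refine ⟨fun x _ y _ hp hxy => ?_, fun x _ y _ hxr hyr hxy => ?_⟩
    · rcases hk x with ⟨h1, h2, h4⟩ | ⟨h1, h2, h4, h5⟩ | ⟨h1, h2, h4, h5, h6⟩ | ⟨h1, h2, h4, h5, h6⟩ <;>
      rcases hk y with ⟨k1, k2, k4⟩ | ⟨k1, k2, k4, k5⟩ | ⟨k1, k2, k4, k5, k6⟩ | ⟨k1, k2, k4, k5, k6⟩ <;>
      rw [h4, k4] at hp <;> rw [h2, k2] at hxy <;>
      first
        | exact h1.trans k1.symm
        | exact absurd hp (by decide)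
        | (exfalso; omega)
        | exact hg1' x h1 y k1 (by omega)
        | exact hg2' x h1 y k1 (by omega)
    · rcases hk x with ⟨h1, h2, h4⟩ | ⟨h1, h2, h4, h5⟩ | ⟨h1, h2, h4, h5, h6⟩ | ⟨h1, h2, h4, h5, h6⟩
      · exact absurd h1 hxr
      all_goals
        rcases hk y with ⟨k1, k2, k4⟩ | ⟨k1, k2, k4, k5⟩ | ⟨k1, k2, k4, k5, k6⟩ | ⟨k1, k2, k4, k5, k6⟩
        · exact absurd k1 hyr
        all_goals
          rw [h5, k5] at hxy
          first
            | exact h1.trans k1.symm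
            | (exfalso; omega)
            | exact hg1' x h1 y k1 (by omega)
            | exact hg2' x h1 y k1 (by omega)
  have hlab' : LabR r par dep univ (fun x => (f x : ZMod n)) := by
    refine labR_cast (a := 0) (b := -(C1.card : ℤ)) (c := 0) hlab (fun x _ he => ?_) (fun x _ he => ?_)
      (fun x _ hxr => ?_)
    · rcases hk x with ⟨h1, h2, h4⟩ | ⟨h1, h2, h4, h5⟩ | ⟨h1, h2, h4, h5, h6⟩ | ⟨h1, h2, h4, h5, h6⟩
      · rw [h2]; omega
      · rw [h4] at he; exact absurd he (by decide)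
      · rw [h4] at he; exact absurd he (by decide)
      · rw [h2]; omega
    · rcases hk x with ⟨h1, h2, h4⟩ | ⟨h1, h2, h4, h5⟩ | ⟨h1, h2, h4, h5, h6⟩ | ⟨h1, h2, h4, h5, h6⟩
      · rw [h4] at he; exact absurd (by decide) he
      · rw [h2]; omega
      · rw [h2]; omega
      · rw [h4] at he; exact absurd (by decide) he
    · rcases hk x with ⟨h1, h2, h4⟩ | ⟨h1, h2, h4, h5⟩ | ⟨h1, h2, h4, h5, h6⟩ | ⟨h1, h2, h4, h5, h6⟩
      · exact absurd h1 hxr
      · rw [h5]; omega
      · rw [h5]; omega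
      · rw [h5]; omega
  exact decomposes_of_labR hT hn hn0 hB h hrB hlab'

theorem double_star (hT : T.IsTree) {n : ℕ} (hn : Fintype.card V = n + 1) (h3 : 3 ≤ Fintype.card V) {B : Finset V}
    (hB : ∀ u w, T.Adj u w → (u ∈ B ↔ w ∉ B)) (h : hub T = ∅) : Decomposes T (completeBipartiteGraph (Fin n) (Fin n)) := by
  classical
  obtain ⟨r, b, hr1, hrb, hall⟩ := hub_empty hT h3 h
  have hr1' : T.degree r ≠ 1 := by convert hr1
  have hall' : ∀ x, T.degree x ≠ 1 → x = r ∨ x = b := by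
    intro x hx
    apply hall
    convert hx
  by_cases hrB : r ∈ B
  · refine main75 hT hn h3 (B := Bᶜ) ?_ hr1' hrb hall' (by simpa using hrB)
    intro u w huw
    rw [mem_compl, mem_compl, not_not]
    have := hB u w huw
    tauto
  · exact main75 hT hn h3 hB hr1' hrb hall' hrB

end Pool.Agent.Helper1.GU
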