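import Pool.Agent.Helper1.GN.Split
import Pool.Agent.Helper1.GN.Arc
import Pool.Agent.Helper1.GN.Ext
import Pool.Agent.Helper1.GN.Blk

/-!
Project GU (MP_2fbe9b_co): every tree with `n` edges in which at most `n / 10^7` vertices have two or more non-leaf neighbours decomposes `K_{n,n}` (all `n`).
Equivalently (up to the constant): all vertices are at distance at most 2 from a small subtree. Definitions and the two elementary facts used everywhere.

`Core T r par dep S`: `S` is closed under parents and every vertex is at distance at most 2 from `S`. Rows = vertices of even depth (`r ∉ B`), columns = vertices of odd depth (`B`).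
Outside `S` there are first level vertices (parent in `S`) and second level vertices (parent outside `S`, grandparent in `S`; they are leaves). A BROOM is a first level vertex with a child.
-/

set_option autoImplicit false

namespace Pool.Agent.Helper1.GU

open Finset Pool.Agent.Helper19.GH Pool.Agent.Helper1.GN

variable {V : Type} [Fintype V] [DecidableEq V]

/-- `S` is a core: closed under parents, all vertices at distance at most 2. -/
structure Core (T : SimpleGraph V) (r : V) (par : V → V) (dep : V → ℕ) (S : Finset V) : Prop where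
  rt : RT T r par dep
  root : r ∈ S
  closed : ∀ x ∈ S, x ≠ r → par x ∈ S
  two : ∀ x, x ∉ S → par x ∉ S → par (par x) ∈ S

open Classical in
/-- The vertices with at least two non-leaf neighbours. -/
noncomputable def hub (T : SimpleGraph V) : Finset V :=
  univ.filter fun x => 2 ≤ (univ.filter fun y => T.Adj x y ∧ T.degree y ≠ 1).card

/-- Labels modulo `N` from integer labels. -/
theorem labR_cast {r : V} {par : V → V} {dep : V → ℕ} {K : Finset V} {f : V → ℤ} {N : ℕ} {a b c : ℤ} (hf : LabR r par dep K f)
    (h1 : ∀ x ∈ K, Even (dep x) → a ≤ f x ∧ f x < a + N) (h2 : ∀ x ∈ K, ¬ Even (dep x) → b ≤ f x ∧ f x < b + N)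
    (h3 : ∀ x ∈ K, x ≠ r → c ≤ cl par dep f x ∧ cl par dep f x < c + N) :
    LabR r par dep K (fun x => (f x : ZMod N)) := by
  have hc : ∀ x, cl par dep (fun x => (f x : ZMod N)) x = ((cl par dep f x : ℤ) : ZMod N) := by
    intro x
    unfold cl
    split_ifs <;> push_cast <;> rfl
  refine ⟨fun x hx y hy hp h => ?_, fun x hx y hy hxr hyr h => ?_⟩
  · by_cases he : Even (dep x)
    · exact hf.inj x hx y hy hp (cast_inj (h1 x hx he).1 (h1 x hx he).2 (h1 y hy (hp.1 he)).1 (h1 y hy (hp.1 he)).2 h)
    · have he' : ¬ Even (dep y) := fun h' => he (hp.2 h')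
      exact hf.inj x hx y hy hp (cast_inj (h2 x hx he).1 (h2 x hx he).2 (h2 y hy he').1 (h2 y hy he').2 h)
  · rw [hc, hc] at h
    exact hf.col x hx y hy hxr hyr (cast_inj (h3 x hx hxr).1 (h3 x hx hxr).2 (h3 y hy hyr).1 (h3 y hy hyr).2 h)

/-- A labelling of the whole tree modulo `n` gives a decomposition. -/
theorem decomposes_of_labR {T : SimpleGraph V} (hT : T.IsTree) {n : ℕ} (hn : Fintype.card V = n + 1) (hn0 : 0 < n) {B : Finset V}
    (hB : ∀ u w, T.Adj u w → (u ∈ B ↔ w ∉ B)) {r : V} {par : V → V} {dep : V → ℕ} (h : RT T r par dep) (hr : r ∉ B)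
    {f : V → ZMod n} (hf : LabR r par dep univ f) : Decomposes T (completeBipartiteGraph (Fin n) (Fin n)) := by
  classical
  refine blocks V T hT n hn B hB 1 (fun _ => n) (fun _ => hn0) (by simp) (fun _ _ => False) (fun _ _ h => h) (fun _ h => h)
    (fun _ => univ) (fun i x hx => absurd (mem_univ x) hx) ?_ ?_ (fun _ => ⟨f, labR_lab hB h hr hf⟩)
  · intro i
    rw [Finset.filter_false_of_mem (fun x _ h => h.1 (mem_univ x)), card_empty]
    exact Nat.zero_le _
  · intro i
    rw [Finset.filter_false_of_mem (fun x _ h => h.1 (mem_univ x)), card_empty]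
    exact Nat.zero_le _

end Pool.Agent.Helper1.GU
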