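import Pool.Agent.Helper1.GU.Defs

/-!
BLOCK GU-1 (about 300 lines). Labelling C: many column brooms, no row brooms, at least `15 m` column leaves. (All constructions were checked numerically, `/team-store/h1_u2check.py`, function `N7`.)

Notation: `s = |S|`, `2 s ≤ m` (so `m ≥ 2`). `U1` = brooms (odd depth, outside `S`, with a child in `K \ S`), `t = |U1| ≥ 20 m`; `U0` = column leaves (odd depth, outside `S`, no child in `K \ S`), `|U0| = 8 m + γ`, `γ ≥ 7 m`;
`Wc` = `x ∈ K \ S` of even depth with `par x ∈ S`, `c = |Wc|`; `Wb` = `x ∈ K \ S` with `par x ∉ S` (even depth by `hev`, parent in `U1` by `hpK`, `two`), `b = |Wb| ≥ t`. Parents of `U0`, `U1` are in `S` (`hev`). `N = s - 1 + 8 m + γ + t + c + b`.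
A column `x ∉ S` with colour `w x` gets the label `f (par x) - w x`, a row the label `f (par x) + w x`. Integer labels, at the end `labR_cast`.

Step 1. `extend_lab` with `S0 = {r}`, `f0 = 0`, `W = 0`: labels of `S` in `[0, m)`, colours `D` (`s - 1` of them, injective) in `(-m, m)`.
Step 2. `arc_assign` for `U1`, `φ = f ∘ par`, `C = [-m-t, -m)`: for `u ∈ U1` with colour `w`: column `f u ∈ [-w, -w+m-1]`, different. `P1` = the `u ∈ U1` with colour in `[-6m, -3m]` (`3m + 1` of them, columns in `[3m, 7m)`), `P2` = colour in `[3m-t, 5m-t]` (`2m+1`, columns in `[t-5m, t-2m)`); disjoint.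
Each has a child in `Wb`; choose `W1 ⊆` children of `P1` with `2m - s + 1` elements, `W2 ⊆` children of `P2` with `2m` elements; `Wm` = the rest of `Wb`, `b - 4m + s - 1` elements. `U0a ⊆ U0` with `8m` elements, `U0b` the rest (`γ`).
Step 3. `arc_assign` for each family (`φ = f ∘ par` for columns, `φ = - f ∘ par` for rows). Table (all half open intervals of integers):
  family | colours                         | labels
  S      | D ⊂ (-m, m)                     | [0, m)
  W1     | [-m, m) \ D                     | rows [2m, 8m)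
  U0a    | [m, 9m)                         | columns [1-9m, 0)
  Wc     | [9m, 9m+c)                      | rows [9m, 10m+c)
  Wm     | [9m+c, N-3m-t-γ)                | rows [10m+c+1, N-m-γ-1)
  U0b    | [-3m-t-γ, -3m-t)                | columns [3m+t+1, 4m+t+γ)
  W2     | [-3m-t, -m-t)                   | rows [-8m, -3m)
  U1     | [-m-t, -m)                      | columns [m+1, t+2m)
In each family the labels are injective: for `w x < w y` `arc_assign` gives `φ y ≤ φ x`, so the labels are strictly monotone in `w`.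
Windows of length `N`: colours `[-3m-t-γ, ·)`, rows `[-8m, ·)` (`γ ≥ 7m`), columns `[1-9m, ·)` (`b ≥ t ≥ 20m`). `labR_cast`.
-/

set_option autoImplicit false

namespace Pool.Agent.Helper1.GU

open Finset Pool.Agent.Helper19.GH Pool.Agent.Helper1.GN

variable {V : Type} [Fintype V] [DecidableEq V] {T : SimpleGraph V} {r : V} {par : V → V} {dep : V → ℕ} {S K : Finset V}

/-- The number of elements of `L` with colour in `[c, d)`. -/
private theorem card_pre {L : Finset V} {w : V → ℤ} {a b c d : ℤ} (hw : ∀ u ∈ L, w u ∈ Ico a b)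
    (hi : ∀ u ∈ L, ∀ v ∈ L, w u = w v → u = v) (hc : (Ico a b).card = L.card) (hac : a ≤ c) (hdb : d ≤ b) :
    (L.filter fun u => c ≤ w u ∧ w u < d).card = (Ico c d).card := by
  classical
  have h1 : L.image w = Ico a b := by
    apply Finset.eq_of_subset_of_card_le
    · intro z hz
      rw [Finset.mem_image] at hz
      obtain ⟨u, hu, rfl⟩ := hz
      exact hw u hu
    · rw [Finset.card_image_of_injOn (fun x hx y hy e => hi x hx y hy e)]
      exact hc.le
  rw [← Finset.card_image_of_injOn (s := L.filter fun u => c ≤ w u ∧ w u < d) (f := w)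
    (fun x hx y hy e => hi x (Finset.mem_filter.1 hx).1 y (Finset.mem_filter.1 hy).1 e)]
  congr 1
  ext z
  rw [Finset.mem_image, Finset.mem_Ico]
  constructor
  · rintro ⟨u, hu, rfl⟩
    exact (Finset.mem_filter.1 hu).2
  · intro hz
    have h2 : z ∈ L.image w := by
      rw [h1, Finset.mem_Ico]
      omega
    rw [Finset.mem_image] at h2
    obtain ⟨u, hu, rfl⟩ := h2
    exact ⟨u, Finset.mem_filter.2 ⟨hu, hz⟩, rfl⟩

/-- Labels of columns are different. -/
private theorem col_same {L : Finset V} {w φ g : V → ℤ} (hi : ∀ u ∈ L, ∀ v ∈ L, w u = w v → u = v)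
    (hmo : ∀ u ∈ L, ∀ v ∈ L, w u < w v → φ v ≤ φ u) (hg : ∀ u ∈ L, g u = φ u - w u) :
    ∀ u ∈ L, ∀ v ∈ L, g u = g v → u = v := by
  intro x hx y hy e
  rw [hg x hx, hg y hy] at e
  apply hi x hx y hy
  rcases lt_trichotomy (w x) (w y) with hlt | heq | hlt
  · have := hmo x hx y hy hlt
    omega
  · exact heq
  · have := hmo y hy x hx hlt
    omega

/-- Labels of rows are different. -/
private theorem row_same {L : Finset V} {w φ g : V → ℤ} (hi : ∀ u ∈ L, ∀ v ∈ L, w u = w v → u = v)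
    (hmo : ∀ u ∈ L, ∀ v ∈ L, w u < w v → - φ v ≤ - φ u) (hg : ∀ u ∈ L, g u = φ u + w u) :
    ∀ u ∈ L, ∀ v ∈ L, g u = g v → u = v := by
  intro x hx y hy e
  rw [hg x hx, hg y hy] at e
  apply hi x hx y hy
  rcases lt_trichotomy (w x) (w y) with hlt | heq | hlt
  · have := hmo x hx y hy hlt
    omega
  · exact heq
  · have := hmo y hy x hx hlt
    omega

theorem diagC (h : Core T r par dep S) (hSK : S ⊆ K) (hpK : ∀ x ∈ K, x ≠ r → par x ∈ K)
    (hev : ∀ x ∈ K, x ∉ S → par x ∉ S → Even (dep x)) {N m : ℕ} (hK : K.card = N + 1) (hm : 2 * S.card ≤ m)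
    (h0 : 15 * m ≤ ((K \ S).filter fun x => ¬ Even (dep x) ∧ ∀ y ∈ K \ S, par y ≠ x).card)
    (h1 : 20 * m ≤ ((K \ S).filter fun x => ¬ Even (dep x) ∧ ∃ y ∈ K \ S, par y = x).card) :
    ∃ f : V → ZMod N, LabR r par dep K f := by
  classical
  obtain ⟨hrt, hr, hcl, htwo⟩ := h
  have hf0 : LabR r par dep {r} (fun _ => (0 : ℤ)) := by
    refine ⟨?_, ?_⟩
    · intro x hx y hy _ _
      rw [Finset.mem_singleton] at hx hy
      rw [hx, hy]
    · intro x hx y _ hxr _ _
      rw [Finset.mem_singleton] at hx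
      exact absurd hx hxr
  obtain ⟨f, hfr, hfs0, hf⟩ := extend_lab hrt (S0 := {r}) (S := S) (Finset.mem_singleton_self r)
    (fun x hx hxr => absurd (Finset.mem_singleton.1 hx) hxr) hcl (Finset.singleton_subset_iff.2 hr) hm
    (fun _ => 0) (fun _ => 0) hf0
  have hScard : 0 < S.card := Finset.card_pos.2 ⟨r, hr⟩
  have hmpos : (1 : ℤ) ≤ m := by omega
  have hfs : ∀ x ∈ S, 0 ≤ f x ∧ f x < m := by
    intro x hx
    by_cases hxr : x = r
    · have e := hfr x (by rw [hxr]; exact Finset.mem_singleton_self r)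
      omega
    · have e := hfs0 x hx (fun h' => hxr (Finset.mem_singleton.1 h'))
      omega
  set D := (S.erase r).image (cl par dep f) with hD
  have hDc : D.card = S.card - 1 := by
    rw [hD, Finset.card_image_of_injOn, Finset.card_erase_of_mem hr]
    intro x hx y hy hxy
    rw [Finset.mem_coe, Finset.mem_erase] at hx hy
    exact hf.col x hx.2 y hy.2 hx.1 hy.1 hxy
  have hDb : ∀ z ∈ D, -(m : ℤ) < z ∧ z < m := by
    intro z hz
    rw [hD, Finset.mem_image] at hz
    obtain ⟨x, hx, rfl⟩ := hz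
    rw [Finset.mem_erase] at hx
    have e1 := hfs x hx.2
    have e2 := hfs (par x) (hcl x hx.2 hx.1)
    unfold cl
    split_ifs
    · omega
    · omega
  -- parity
  have hpar2 : ∀ x, x ≠ r → (Even (dep x) ↔ ¬ Even (dep (par x))) := by
    intro x hx
    rw [hrt.dep_par x hx]
    exact Nat.even_add_one
  -- the classes
  set U0 := (K \ S).filter fun x => ¬ Even (dep x) ∧ ∀ y ∈ K \ S, par y ≠ x with hU0
  set U1 := (K \ S).filter fun x => ¬ Even (dep x) ∧ ∃ y ∈ K \ S, par y = x with hU1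
  set Wc := (K \ S).filter fun x => Even (dep x) ∧ par x ∈ S with hWc
  set Wb := (K \ S).filter fun x => par x ∉ S with hWb
  have hne : ∀ x, x ∉ S → x ≠ r := fun x hx e => hx (e ▸ hr)
  have mU0 : ∀ x ∈ U0, x ∈ K ∧ x ∉ S ∧ ¬ Even (dep x) ∧ par x ∈ S := by
    intro x hx
    rw [hU0, Finset.mem_filter, Finset.mem_sdiff] at hx
    refine ⟨hx.1.1, hx.1.2, hx.2.1, ?_⟩
    by_contra hp
    exact hx.2.1 (hev x hx.1.1 hx.1.2 hp)
  have mU1 : ∀ x ∈ U1, x ∈ K ∧ x ∉ S ∧ ¬ Even (dep x) ∧ par x ∈ S := by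
    intro x hx
    rw [hU1, Finset.mem_filter, Finset.mem_sdiff] at hx
    refine ⟨hx.1.1, hx.1.2, hx.2.1, ?_⟩
    by_contra hp
    exact hx.2.1 (hev x hx.1.1 hx.1.2 hp)
  have mWc : ∀ x ∈ Wc, x ∈ K ∧ x ∉ S ∧ Even (dep x) ∧ par x ∈ S := by
    intro x hx
    rw [hWc, Finset.mem_filter, Finset.mem_sdiff] at hx
    exact ⟨hx.1.1, hx.1.2, hx.2.1, hx.2.2⟩
  have mWb : ∀ x ∈ Wb, x ∈ K ∧ x ∉ S ∧ Even (dep x) ∧ par x ∉ S ∧ par x ∈ U1 := by
    intro x hx
    rw [hWb, Finset.mem_filter, Finset.mem_sdiff] at hx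
    obtain ⟨⟨hxK, hxS⟩, hp⟩ := hx
    have he := hev x hxK hxS hp
    refine ⟨hxK, hxS, he, hp, ?_⟩
    rw [hU1, Finset.mem_filter, Finset.mem_sdiff]
    exact ⟨⟨hpK x hxK (hne x hxS), hp⟩, (hpar2 x (hne x hxS)).1 he, x, Finset.mem_sdiff.2 ⟨hxK, hxS⟩, rfl⟩
  have hU01 : ∀ x ∈ U0, x ∉ U1 := by
    intro x hx hx'
    rw [hU0, Finset.mem_filter] at hx
    rw [hU1, Finset.mem_filter] at hx'
    obtain ⟨y, hy, hyx⟩ := hx'.2.2
    exact hx.2.2 y hy hyx
  have hcov : ∀ x ∈ K, x ∉ S → x ∈ U1 ∨ x ∈ U0 ∨ x ∈ Wc ∨ x ∈ Wb := by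
    intro x hx hxS
    have hKS : x ∈ K \ S := Finset.mem_sdiff.2 ⟨hx, hxS⟩
    by_cases hp : par x ∈ S
    · by_cases he : Even (dep x)
      · exact Or.inr (Or.inr (Or.inl (Finset.mem_filter.2 ⟨hKS, he, hp⟩)))
      · by_cases hy : ∃ y ∈ K \ S, par y = x
        · exact Or.inl (Finset.mem_filter.2 ⟨hKS, he, hy⟩)
        · exact Or.inr (Or.inl (Finset.mem_filter.2 ⟨hKS, he, fun y hy1 hy2 => hy ⟨y, hy1, hy2⟩⟩))
    · exact Or.inr (Or.inr (Or.inr (Finset.mem_filter.2 ⟨hKS, hp⟩)))
  -- the count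
  have hcount : U1.card + U0.card + Wc.card + Wb.card = (K \ S).card := by
    have d1 : Disjoint U1 U0 := Finset.disjoint_left.2 fun x h1 h2 => hU01 x h2 h1
    have d2 : Disjoint (U1 ∪ U0) Wc := by
      rw [Finset.disjoint_left]
      intro x h1 h2
      rcases Finset.mem_union.1 h1 with h3 | h3
      · exact (mU1 x h3).2.2.1 (mWc x h2).2.2.1
      · exact (mU0 x h3).2.2.1 (mWc x h2).2.2.1
    have d3 : Disjoint (U1 ∪ U0 ∪ Wc) Wb := by
      rw [Finset.disjoint_left]
      intro x h1 h2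
      have h4 := (mWb x h2).2.2.2.1
      rcases Finset.mem_union.1 h1 with h3 | h3
      · rcases Finset.mem_union.1 h3 with h3 | h3
        · exact h4 (mU1 x h3).2.2.2
        · exact h4 (mU0 x h3).2.2.2
      · exact h4 (mWc x h3).2.2.2
    rw [← Finset.card_union_of_disjoint d1, ← Finset.card_union_of_disjoint d2,
      ← Finset.card_union_of_disjoint d3]
    congr 1
    ext x
    rw [Finset.mem_union, Finset.mem_union, Finset.mem_union, Finset.mem_sdiff]
    constructor
    · rintro (((h1 | h1) | h1) | h1)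
      · exact ⟨(mU1 x h1).1, (mU1 x h1).2.1⟩
      · exact ⟨(mU0 x h1).1, (mU0 x h1).2.1⟩
      · exact ⟨(mWc x h1).1, (mWc x h1).2.1⟩
      · exact ⟨(mWb x h1).1, (mWb x h1).2.1⟩
    · rintro ⟨h1, h2⟩
      rcases hcov x h1 h2 with h3 | h3 | h3 | h3
      · exact Or.inl (Or.inl (Or.inl h3))
      · exact Or.inl (Or.inl (Or.inr h3))
      · exact Or.inl (Or.inr h3)
      · exact Or.inr h3
  have hKc := Finset.card_sdiff_add_card_eq_card hSK
  have child : ∀ P : Finset V, P ⊆ U1 → P.card ≤ (Wb.filter fun x => par x ∈ P).card := by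
    intro P hP
    refine le_trans (Finset.card_le_card ?_) (Finset.card_image_le (f := par))
    intro u hu
    have h2 := hP hu
    rw [hU1, Finset.mem_filter, Finset.mem_sdiff] at h2
    obtain ⟨⟨-, h3⟩, -, y, hy, rfl⟩ := h2
    exact Finset.mem_image.2 ⟨y, Finset.mem_filter.2 ⟨Finset.mem_filter.2 ⟨hy, h3⟩, hu⟩, rfl⟩
  have hbt : U1.card ≤ Wb.card := (child U1 (Finset.Subset.refl _)).trans (Finset.card_le_card (Finset.filter_subset _ _))
  -- the numbers
  obtain ⟨s, hs⟩ : ∃ s, S.card = s := ⟨_, rfl⟩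
  obtain ⟨t, ht⟩ : ∃ t, U1.card = t := ⟨_, rfl⟩
  obtain ⟨c, hc⟩ : ∃ c, Wc.card = c := ⟨_, rfl⟩
  obtain ⟨b, hb⟩ : ∃ b, Wb.card = b := ⟨_, rfl⟩
  obtain ⟨q, hq⟩ : ∃ q, U0.card = 8 * m + q := ⟨U0.card - 8 * m, by omega⟩
  rw [ht] at h1 hcount hbt
  rw [hq] at h0 hcount
  rw [hs] at hm hDc hScard hKc
  rw [hc, hb] at hcount
  rw [hb] at hbt
  have hN : (N : ℤ) = s - 1 + 8 * m + q + t + c + b := by omega
  -- brooms
  obtain ⟨w1, hw1, hw1i, hw1m⟩ := arc_assign U1 (fun x => f (par x)) (Ico (-(m : ℤ) - t) (-(m : ℤ)))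
    (by rw [Int.card_Ico]; omega)
  set P1 := U1.filter fun u => -(6 * m : ℤ) ≤ w1 u ∧ w1 u < -(3 * m : ℤ) + 1 with hP1
  set P2 := U1.filter fun u => 3 * (m : ℤ) - t ≤ w1 u ∧ w1 u < 5 * (m : ℤ) - t + 1 with hP2
  have hP1c : P1.card = 3 * m + 1 := by
    rw [hP1, card_pre hw1 hw1i (by rw [Int.card_Ico]; omega) (by omega) (by omega), Int.card_Ico]
    omega
  have hP2c : P2.card = 2 * m + 1 := by
    rw [hP2, card_pre hw1 hw1i (by rw [Int.card_Ico]; omega) (by omega) (by omega), Int.card_Ico]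
    omega
  obtain ⟨W1, hW1s, hW1c⟩ := Finset.exists_subset_card_eq (n := 2 * m + 1 - s)
    (s := Wb.filter fun x => par x ∈ P1) (by have := child P1 (Finset.filter_subset _ _); omega)
  obtain ⟨W2, hW2s, hW2c⟩ := Finset.exists_subset_card_eq (n := 2 * m)
    (s := Wb.filter fun x => par x ∈ P2) (by have := child P2 (Finset.filter_subset _ _); omega)
  obtain ⟨Ua, hUas, hUac⟩ := Finset.exists_subset_card_eq (n := 8 * m) (s := U0) (by omega)
  have mW1 : ∀ x ∈ W1, x ∈ Wb ∧ par x ∈ P1 := fun x hx => Finset.mem_filter.1 (hW1s hx)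
  have mW2 : ∀ x ∈ W2, x ∈ Wb ∧ par x ∈ P2 := fun x hx => Finset.mem_filter.1 (hW2s hx)
  have hW12 : Disjoint W1 W2 := by
    rw [Finset.disjoint_left]
    intro x h1 h2
    have h3 := (mW1 x h1).2
    have h4 := (mW2 x h2).2
    rw [hP1, Finset.mem_filter] at h3
    rw [hP2, Finset.mem_filter] at h4
    omega
  set Wm := Wb \ (W1 ∪ W2) with hWm
  set Ub := U0 \ Ua with hUb
  have hWmc : Wm.card + (2 * m + 1 - s) + 2 * m = b := by
    have h1 : W1 ∪ W2 ⊆ Wb := by
      intro x hx
      rcases Finset.mem_union.1 hx with h2 | h2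
      · exact (mW1 x h2).1
      · exact (mW2 x h2).1
    have h2 := Finset.card_sdiff_add_card_eq_card h1
    rw [Finset.card_union_of_disjoint hW12, hW1c, hW2c, hb, ← hWm] at h2
    omega
  have hUbc : Ub.card = q := by
    have h2 := Finset.card_sdiff_add_card_eq_card hUas
    rw [← hUb] at h2
    omega
  -- labels of the core and the brooms
  set f1 : V → ℤ := fun x => if x ∈ S then f x else f (par x) - w1 x with hf1
  have hf1S : ∀ x ∈ S, f1 x = f x := fun x hx => by simp only [hf1]; rw [if_pos hx]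
  have hf1U : ∀ x ∈ U1, f1 x = f (par x) - w1 x := fun x hx => by
    simp only [hf1]; rw [if_neg (mU1 x hx).2.1]
  have r1 : ∀ x ∈ U1, -(m : ℤ) - t ≤ w1 x ∧ w1 x < -(m : ℤ) := fun x hx => by
    have := hw1 x hx
    rwa [Finset.mem_Ico] at this
  have rS : ∀ x, par x ∈ S → 0 ≤ f1 (par x) ∧ f1 (par x) < m := fun x hx => by
    rw [hf1S _ hx]
    exact hfs _ hx
  have rU : ∀ x, par x ∈ U1 → (m : ℤ) + 1 ≤ f1 (par x) ∧ f1 (par x) < t + 2 * m := fun x hx => by
    rw [hf1U _ hx]
    have e1 := hfs _ (mU1 _ hx).2.2.2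
    have e2 := r1 _ hx
    omega
  have rP1 : ∀ x, par x ∈ P1 → 3 * (m : ℤ) ≤ f1 (par x) ∧ f1 (par x) < 7 * m := fun x hx => by
    rw [hP1, Finset.mem_filter] at hx
    rw [hf1U _ hx.1]
    have e1 := hfs _ (mU1 _ hx.1).2.2.2
    omega
  have rP2 : ∀ x, par x ∈ P2 → (t : ℤ) - 5 * m ≤ f1 (par x) ∧ f1 (par x) < t - 2 * m := fun x hx => by
    rw [hP2, Finset.mem_filter] at hx
    rw [hf1U _ hx.1]
    have e1 := hfs _ (mU1 _ hx.1).2.2.2
    omega
  -- the arcs
  have hC1 : (Ico (-(m : ℤ)) (m : ℤ) \ D).card = W1.card := by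
    have e1 := card_arc D (c := -(m : ℤ)) (d := (m : ℤ)) (by omega)
    have e2 : (D.filter fun z => -(m : ℤ) ≤ z ∧ z < (m : ℤ)) = D := by
      refine Finset.filter_true_of_mem fun z hz => ?_
      have := hDb z hz
      omega
    rw [e2] at e1
    omega
  obtain ⟨x1, hx1, hx1i, hx1m⟩ := arc_assign W1 (fun x => - f1 (par x)) _ hC1
  obtain ⟨xa, hxa, hxai, hxam⟩ := arc_assign Ua (fun x => f1 (par x)) (Ico (m : ℤ) (9 * m))
    (by rw [Int.card_Ico]; omega)
  obtain ⟨xc, hxc, hxci, hxcm⟩ := arc_assign Wc (fun x => - f1 (par x)) (Ico (9 * m : ℤ) (9 * m + c))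
    (by rw [Int.card_Ico]; omega)
  obtain ⟨xm, hxm, hxmi, hxmm⟩ := arc_assign Wm (fun x => - f1 (par x)) (Ico (9 * m + c : ℤ) (N - 3 * m - t - q))
    (by rw [Int.card_Ico]; omega)
  obtain ⟨xb, hxb, hxbi, hxbm⟩ := arc_assign Ub (fun x => f1 (par x)) (Ico (-(3 * m : ℤ) - t - q) (-(3 * m : ℤ) - t))
    (by rw [Int.card_Ico]; omega)
  obtain ⟨x2, hx2, hx2i, hx2m⟩ := arc_assign W2 (fun x => - f1 (par x)) (Ico (-(3 * m : ℤ) - t) (-(m : ℤ) - t))
    (by rw [Int.card_Ico]; omega)
  -- the colours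
  set W : V → ℤ := fun x => if x ∈ U1 then w1 x else if x ∈ Ua then xa x else if x ∈ W1 then x1 x else
    if x ∈ W2 then x2 x else if x ∈ Wc then xc x else if x ∈ Wm then xm x else xb x with hW
  have mUa : ∀ x ∈ Ua, x ∈ U0 := fun x hx => hUas hx
  have mUb : ∀ x ∈ Ub, x ∈ U0 ∧ x ∉ Ua := fun x hx => Finset.mem_sdiff.1 hx
  have mWm : ∀ x ∈ Wm, x ∈ Wb ∧ x ∉ W1 ∧ x ∉ W2 := fun x hx => by
    rw [hWm, Finset.mem_sdiff, Finset.mem_union, not_or] at hx
    exact hx
  have eWU1 : ∀ x, Even (dep x) → x ∉ U1 := fun x he hx => (mU1 x hx).2.2.1 he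
  have eWUa : ∀ x, Even (dep x) → x ∉ Ua := fun x he hx => (mU0 x (mUa x hx)).2.2.1 he
  have W_1 : ∀ x ∈ U1, W x = w1 x := fun x hx => by simp only [hW]; rw [if_pos hx]
  have W_a : ∀ x ∈ Ua, W x = xa x := fun x hx => by
    simp only [hW]; rw [if_neg (hU01 x (mUa x hx)), if_pos hx]
  have W_W1 : ∀ x ∈ W1, W x = x1 x := fun x hx => by
    have he := (mWb x (mW1 x hx).1).2.2.1
    simp only [hW]; rw [if_neg (eWU1 x he), if_neg (eWUa x he), if_pos hx]
  have W_W2 : ∀ x ∈ W2, W x = x2 x := fun x hx => by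
    have he := (mWb x (mW2 x hx).1).2.2.1
    simp only [hW]; rw [if_neg (eWU1 x he), if_neg (eWUa x he), if_neg (Finset.disjoint_right.1 hW12 hx), if_pos hx]
  have W_c : ∀ x ∈ Wc, W x = xc x := fun x hx => by
    obtain ⟨-, -, he, hp⟩ := mWc x hx
    simp only [hW]; rw [if_neg (eWU1 x he), if_neg (eWUa x he), if_neg (fun h' => (mWb x (mW1 x h').1).2.2.2.1 hp),
      if_neg (fun h' => (mWb x (mW2 x h').1).2.2.2.1 hp), if_pos hx]
  have W_m : ∀ x ∈ Wm, W x = xm x := fun x hx => by
    obtain ⟨hxb', h1', h2'⟩ := mWm x hx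
    obtain ⟨-, -, he, hp, -⟩ := mWb x hxb'
    simp only [hW]; rw [if_neg (eWU1 x he), if_neg (eWUa x he), if_neg h1', if_neg h2', if_neg (fun h' => hp (mWc x h').2.2.2), if_pos hx]
  have W_b : ∀ x ∈ Ub, W x = xb x := fun x hx => by
    obtain ⟨hxU, h1'⟩ := mUb x hx
    obtain ⟨-, -, he, hp⟩ := mU0 x hxU
    simp only [hW]; rw [if_neg (hU01 x hxU), if_neg h1', if_neg (fun h' => he (mWb x (mW1 x h').1).2.2.1),
      if_neg (fun h' => he (mWb x (mW2 x h').1).2.2.1), if_neg (fun h' => he (mWc x h').2.2.1),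
      if_neg (fun h' => he (mWb x (mWm x h').1).2.2.1)]
  -- the labelling
  set g : V → ℤ := fun x => if x ∈ S then f x else if Even (dep x) then f1 (par x) + W x else f1 (par x) - W x with hg
  have gS : ∀ x ∈ S, g x = f x := fun x hx => by simp only [hg]; rw [if_pos hx]
  have gE : ∀ x, x ∉ S → Even (dep x) → g x = f1 (par x) + W x := fun x hx he => by
    simp only [hg]; rw [if_neg hx, if_pos he]
  have gO : ∀ x, x ∉ S → ¬ Even (dep x) → g x = f1 (par x) - W x := fun x hx he => by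
    simp only [hg]; rw [if_neg hx, if_neg he]
  have gU : ∀ x ∈ U1, g x = f1 x := fun x hx => by
    obtain ⟨-, h1', he, hp⟩ := mU1 x hx
    rw [gO x h1' he, hf1U x hx, hf1S _ hp, W_1 x hx]
  have gp : ∀ x ∈ K, x ∉ S → g (par x) = f1 (par x) := by
    intro x hx hxS
    rcases hcov x hx hxS with h3 | h3 | h3 | h3
    · rw [gS _ (mU1 x h3).2.2.2, hf1S _ (mU1 x h3).2.2.2]
    · rw [gS _ (mU0 x h3).2.2.2, hf1S _ (mU0 x h3).2.2.2]
    · rw [gS _ (mWc x h3).2.2.2, hf1S _ (mWc x h3).2.2.2]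
    · exact gU _ (mWb x h3).2.2.2.2
  have hclW : ∀ x ∈ K, x ∉ S → cl par dep g x = W x := by
    intro x hx hxS
    unfold cl
    rw [gp x hx hxS]
    by_cases he : Even (dep x)
    · rw [if_pos he, gE x hxS he]
      ring
    · rw [if_neg he, gO x hxS he]
      ring
  have hclS : ∀ x ∈ S, x ≠ r → cl par dep g x = cl par dep f x := by
    intro x hx hxr
    unfold cl
    rw [gS x hx, gS _ (hcl x hx hxr)]
  have hclD : ∀ x ∈ S, x ≠ r → cl par dep g x ∈ D := by
    intro x hx hxr
    rw [hclS x hx hxr, hD, Finset.mem_image]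
    exact ⟨x, Finset.mem_erase.2 ⟨hxr, hx⟩, rfl⟩
  have hod : ∀ x, ¬ Even (dep x) → dep x % 2 = 1 := fun x he => by
    rw [Nat.even_iff] at he
    omega
  have hee : ∀ x, Even (dep x) → dep x % 2 = 0 := fun x he => Nat.even_iff.1 he
  have info : ∀ x ∈ K,
      (x ∈ S ∧ 0 ≤ g x ∧ g x < m) ∨
      (x ∈ U1 ∧ x ∉ S ∧ dep x % 2 = 1 ∧ (-(m : ℤ) - t ≤ W x ∧ W x < -(m : ℤ)) ∧ ((m : ℤ) + 1 ≤ g x ∧ g x < t + 2 * m)) ∨
      (x ∈ Ua ∧ x ∉ S ∧ dep x % 2 = 1 ∧ ((m : ℤ) ≤ W x ∧ W x < 9 * m) ∧ (1 - 9 * (m : ℤ) ≤ g x ∧ g x < 0)) ∨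
      (x ∈ Ub ∧ x ∉ S ∧ dep x % 2 = 1 ∧ (-(3 * m : ℤ) - t - q ≤ W x ∧ W x < -(3 * m : ℤ) - t) ∧
        (3 * (m : ℤ) + t + 1 ≤ g x ∧ g x < 4 * m + t + q)) ∨
      (x ∈ Wc ∧ x ∉ S ∧ dep x % 2 = 0 ∧ (9 * (m : ℤ) ≤ W x ∧ W x < 9 * m + c) ∧ (9 * (m : ℤ) ≤ g x ∧ g x < 10 * m + c)) ∨
      (x ∈ W1 ∧ x ∉ S ∧ dep x % 2 = 0 ∧ (-(m : ℤ) ≤ W x ∧ W x < m ∧ W x ∉ D) ∧ (2 * (m : ℤ) ≤ g x ∧ g x < 8 * m)) ∨
      (x ∈ W2 ∧ x ∉ S ∧ dep x % 2 = 0 ∧ (-(3 * m : ℤ) - t ≤ W x ∧ W x < -(m : ℤ) - t) ∧
        (-(8 * m : ℤ) ≤ g x ∧ g x < -(3 * m : ℤ))) ∨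
      (x ∈ Wm ∧ x ∉ S ∧ dep x % 2 = 0 ∧ (9 * (m : ℤ) + c ≤ W x ∧ W x < N - 3 * m - t - q) ∧
        (10 * (m : ℤ) + c + 1 ≤ g x ∧ g x < N - m - q - 1)) := by
    intro x hx
    by_cases hxS : x ∈ S
    · left
      rw [gS x hxS]
      exact ⟨hxS, hfs x hxS⟩
    right
    rcases hcov x hx hxS with h3 | h3 | h3 | h3
    · left
      obtain ⟨-, -, he, hp⟩ := mU1 x h3
      have e1 := r1 x h3
      have e2 := rS x hp
      have e3 := gO x hxS he
      have e4 := W_1 x h3
      have e5 := hod x he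
      refine ⟨h3, hxS, e5, ?_, ?_⟩ <;> omega
    · right
      obtain ⟨-, -, he, hp⟩ := mU0 x h3
      have e2 := rS x hp
      have e3 := gO x hxS he
      have e5 := hod x he
      by_cases ha : x ∈ Ua
      · left
        have e1 := hxa x ha
        rw [Finset.mem_Ico] at e1
        have e4 := W_a x ha
        refine ⟨ha, hxS, e5, ?_, ?_⟩ <;> omega
      · right; left
        have hb' : x ∈ Ub := Finset.mem_sdiff.2 ⟨h3, ha⟩
        have e1 := hxb x hb'
        rw [Finset.mem_Ico] at e1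
        have e4 := W_b x hb'
        refine ⟨hb', hxS, e5, ?_, ?_⟩ <;> omega
    · right; right; right; left
      obtain ⟨-, -, he, hp⟩ := mWc x h3
      have e2 := rS x hp
      have e3 := gE x hxS he
      have e5 := hee x he
      have e1 := hxc x h3
      rw [Finset.mem_Ico] at e1
      have e4 := W_c x h3
      refine ⟨h3, hxS, e5, ?_, ?_⟩ <;> omega
    · right; right; right; right
      obtain ⟨-, -, he, -, hp⟩ := mWb x h3
      have e3 := gE x hxS he
      have e5 := hee x he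
      by_cases hi1 : x ∈ W1
      · left
        have e2 := rP1 x (mW1 x hi1).2
        have e1 := hx1 x hi1
        rw [Finset.mem_sdiff, Finset.mem_Ico] at e1
        have e4 := W_W1 x hi1
        refine ⟨hi1, hxS, e5, ⟨by omega, by omega, by rw [e4]; exact e1.2⟩, ?_⟩
        omega
      by_cases hi2 : x ∈ W2
      · right; left
        have e2 := rP2 x (mW2 x hi2).2
        have e1 := hx2 x hi2
        rw [Finset.mem_Ico] at e1
        have e4 := W_W2 x hi2
        refine ⟨hi2, hxS, e5, ?_, ?_⟩ <;> omega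
      · right; right
        have him : x ∈ Wm := by
          rw [hWm, Finset.mem_sdiff, Finset.mem_union, not_or]
          exact ⟨h3, hi1, hi2⟩
        have e2 := rU x hp
        have e1 := hxm x him
        rw [Finset.mem_Ico] at e1
        have e4 := W_m x him
        refine ⟨him, hxS, e5, ?_, ?_⟩ <;> omega
  -- injectivity inside the classes
  have iU1 : ∀ x ∈ U1, ∀ y ∈ U1, W x = W y → x = y := fun x hx y hy e => hw1i x hx y hy (by rw [← W_1 x hx, ← W_1 y hy, e])
  have iUa : ∀ x ∈ Ua, ∀ y ∈ Ua, W x = W y → x = y := fun x hx y hy e => hxai x hx y hy (by rw [← W_a x hx, ← W_a y hy, e])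
  have iUb : ∀ x ∈ Ub, ∀ y ∈ Ub, W x = W y → x = y := fun x hx y hy e => hxbi x hx y hy (by rw [← W_b x hx, ← W_b y hy, e])
  have iWc : ∀ x ∈ Wc, ∀ y ∈ Wc, W x = W y → x = y := fun x hx y hy e => hxci x hx y hy (by rw [← W_c x hx, ← W_c y hy, e])
  have iW1 : ∀ x ∈ W1, ∀ y ∈ W1, W x = W y → x = y := fun x hx y hy e => hx1i x hx y hy (by rw [← W_W1 x hx, ← W_W1 y hy, e])
  have iW2 : ∀ x ∈ W2, ∀ y ∈ W2, W x = W y → x = y := fun x hx y hy e => hx2i x hx y hy (by rw [← W_W2 x hx, ← W_W2 y hy, e])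
  have iWm : ∀ x ∈ Wm, ∀ y ∈ Wm, W x = W y → x = y := fun x hx y hy e => hxmi x hx y hy (by rw [← W_m x hx, ← W_m y hy, e])
  have jU1 : ∀ x ∈ U1, ∀ y ∈ U1, g x = g y → x = y := col_same hw1i hw1m (fun x hx => by
    rw [gU x hx, hf1U x hx])
  have jUa : ∀ x ∈ Ua, ∀ y ∈ Ua, g x = g y → x = y := col_same hxai hxam (fun x hx => by
    rw [gO x (mU0 x (mUa x hx)).2.1 (mU0 x (mUa x hx)).2.2.1, W_a x hx])
  have jUb : ∀ x ∈ Ub, ∀ y ∈ Ub, g x = g y → x = y := col_same hxbi hxbm (fun x hx => by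
    rw [gO x (mU0 x (mUb x hx).1).2.1 (mU0 x (mUb x hx).1).2.2.1, W_b x hx])
  have jWc : ∀ x ∈ Wc, ∀ y ∈ Wc, g x = g y → x = y := row_same (φ := fun x => f1 (par x)) hxci hxcm (fun x hx => by
    rw [gE x (mWc x hx).2.1 (mWc x hx).2.2.1, W_c x hx])
  have jW1 : ∀ x ∈ W1, ∀ y ∈ W1, g x = g y → x = y := row_same (φ := fun x => f1 (par x)) hx1i hx1m (fun x hx => by
    rw [gE x (mWb x (mW1 x hx).1).2.1 (mWb x (mW1 x hx).1).2.2.1, W_W1 x hx])
  have jW2 : ∀ x ∈ W2, ∀ y ∈ W2, g x = g y → x = y := row_same (φ := fun x => f1 (par x)) hx2i hx2m (fun x hx => by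
    rw [gE x (mWb x (mW2 x hx).1).2.1 (mWb x (mW2 x hx).1).2.2.1, W_W2 x hx])
  have jWm : ∀ x ∈ Wm, ∀ y ∈ Wm, g x = g y → x = y := row_same (φ := fun x => f1 (par x)) hxmi hxmm (fun x hx => by
    rw [gE x (mWb x (mWm x hx).1).2.1 (mWb x (mWm x hx).1).2.2.1, W_m x hx])
  clear_value g W f1 D
  have hlab : LabR r par dep K g := by
    refine ⟨?_, ?_⟩
    · intro x hx y hy hpa e
      have hpa' : dep x % 2 = dep y % 2 := by
        by_cases he : Even (dep x)
        · rw [hee x he, hee y (hpa.1 he)]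
        · rw [hod x he, hod y (fun h' => he (hpa.2 h'))]
      have ix := info x hx
      have iy := info y hy
      rcases ix with ix | ix | ix | ix | ix | ix | ix | ix
      · rcases iy with iy | iy | iy | iy | iy | iy | iy | iy
        · rw [gS x ix.1, gS y iy.1] at e
          exact hf.inj x ix.1 y iy.1 hpa e
        all_goals exfalso; omega
      · rcases iy with iy | iy | iy | iy | iy | iy | iy | iy
        · exfalso; omega
        · exact jU1 x ix.1 y iy.1 e
        all_goals exfalso; omega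
      · rcases iy with iy | iy | iy | iy | iy | iy | iy | iy
        · exfalso; omega
        · exfalso; omega
        · exact jUa x ix.1 y iy.1 e
        all_goals exfalso; omega
      · rcases iy with iy | iy | iy | iy | iy | iy | iy | iy
        · exfalso; omega
        · exfalso; omega
        · exfalso; omega
        · exact jUb x ix.1 y iy.1 e
        all_goals exfalso; omega
      · rcases iy with iy | iy | iy | iy | iy | iy | iy | iy
        · exfalso; omega
        · exfalso; omega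
        · exfalso; omega
        · exfalso; omega
        · exact jWc x ix.1 y iy.1 e
        all_goals exfalso; omega
      · rcases iy with iy | iy | iy | iy | iy | iy | iy | iy
        · exfalso; omega
        · exfalso; omega
        · exfalso; omega
        · exfalso; omega
        · exfalso; omega
        · exact jW1 x ix.1 y iy.1 e
        all_goals exfalso; omega
      · rcases iy with iy | iy | iy | iy | iy | iy | iy | iy
        · exfalso; omega
        · exfalso; omega
        · exfalso; omega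
        · exfalso; omega
        · exfalso; omega
        · exfalso; omega
        · exact jW2 x ix.1 y iy.1 e
        all_goals exfalso; omega
      · rcases iy with iy | iy | iy | iy | iy | iy | iy | iy
        · exfalso; omega
        · exfalso; omega
        · exfalso; omega
        · exfalso; omega
        · exfalso; omega
        · exfalso; omega
        · exfalso; omega
        · exact jWm x ix.1 y iy.1 e
    · have key : ∀ x ∈ S, x ≠ r → ∀ y ∈ K, y ∉ S → cl par dep g x ≠ cl par dep g y := by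
        intro x hx hxr y hy hyS e
        have hD' := hclD x hx hxr
        rw [e, hclW y hy hyS] at hD'
        have hD2 := hDb _ hD'
        rcases info y hy with iy | iy | iy | iy | iy | iy | iy | iy
        · exact hyS iy.1
        · omega
        · omega
        · omega
        · omega
        · exact iy.2.2.2.1.2.2 hD'
        · omega
        · omega
      intro x hx y hy hxr hyr e
      by_cases hxS : x ∈ S
      · by_cases hyS : y ∈ S
        · rw [hclS x hxS hxr, hclS y hyS hyr] at e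
          exact hf.col x hxS y hyS hxr hyr e
        · exact absurd e (key x hxS hxr y hy hyS)
      · by_cases hyS : y ∈ S
        · exact absurd e.symm (key y hyS hyr x hx hxS)
        rw [hclW x hx hxS, hclW y hy hyS] at e
        rcases info x hx with ix | ix | ix | ix | ix | ix | ix | ix
        · exact absurd ix.1 hxS
        · rcases info y hy with iy | iy | iy | iy | iy | iy | iy | iy
          · exact absurd iy.1 hyS
          · exact iU1 x ix.1 y iy.1 e
          all_goals exfalso; omega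
        · rcases info y hy with iy | iy | iy | iy | iy | iy | iy | iy
          · exact absurd iy.1 hyS
          · exfalso; omega
          · exact iUa x ix.1 y iy.1 e
          all_goals exfalso; omega
        · rcases info y hy with iy | iy | iy | iy | iy | iy | iy | iy
          · exact absurd iy.1 hyS
          · exfalso; omega
          · exfalso; omega
          · exact iUb x ix.1 y iy.1 e
          all_goals exfalso; omega
        · rcases info y hy with iy | iy | iy | iy | iy | iy | iy | iy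
          · exact absurd iy.1 hyS
          · exfalso; omega
          · exfalso; omega
          · exfalso; omega
          · exact iWc x ix.1 y iy.1 e
          all_goals exfalso; omega
        · rcases info y hy with iy | iy | iy | iy | iy | iy | iy | iy
          · exact absurd iy.1 hyS
          · exfalso; omega
          · exfalso; omega
          · exfalso; omega
          · exfalso; omega
          · exact iW1 x ix.1 y iy.1 e
          all_goals exfalso; omega
        · rcases info y hy with iy | iy | iy | iy | iy | iy | iy | iy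
          · exact absurd iy.1 hyS
          · exfalso; omega
          · exfalso; omega
          · exfalso; omega
          · exfalso; omega
          · exfalso; omega
          · exact iW2 x ix.1 y iy.1 e
          all_goals exfalso; omega
        · rcases info y hy with iy | iy | iy | iy | iy | iy | iy | iy
          · exact absurd iy.1 hyS
          · exfalso; omega
          · exfalso; omega
          · exfalso; omega
          · exfalso; omega
          · exfalso; omega
          · exfalso; omega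
          · exact iWm x ix.1 y iy.1 e
  refine ⟨fun x => ((g x : ℤ) : ZMod N), labR_cast hlab (a := -(8 * m : ℤ)) (b := 1 - 9 * (m : ℤ))
    (c := -(3 * m : ℤ) - t - q) ?_ ?_ ?_⟩
  · intro x hx he
    have e5 := hee x he
    rcases info x hx with ix | ix | ix | ix | ix | ix | ix | ix <;> omega
  · intro x hx he
    have e5 := hod x he
    rcases info x hx with ix | ix | ix | ix | ix | ix | ix | ix <;> omega
  · intro x hx hxr
    by_cases hxS : x ∈ S
    · have := hDb _ (hclD x hxS hxr)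
      omega
    · rw [hclW x hx hxS]
      rcases info x hx with ix | ix | ix | ix | ix | ix | ix | ix
      · exact absurd ix.1 hxS
      all_goals omega

end Pool.Agent.Helper1.GU
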