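import Pool.Agent.Helper1.GU.Defs

/-!
BLOCK GU-2 (about 300 lines). Labelling D: outside the core `S` there are only legs of length 2 at rows of `S` (a column `u ∉ S` with `par u ∈ S` and exactly one child). (Checked numerically, `/team-store/h1_u2check.py`, function `N8`.)

Notation: `s = |S|`, `M = 4 s`, `U` = the columns outside `S` (`par u ∈ S`), `ch u` the child of `u`, `τ = |U|`, `N = s - 1 + 2 τ` (so `τ ≥ 49 s`). Integer labels: row `x`: `f (par x) + colour`, column `x`: `f (par x) - colour`.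
Step 1. `extend_lab` with `m = 2 s`, `S0 = {r}`, `f0 = 0`, `W = 0`, then multiply all labels by 2: labels of `S` even, in `[0, M)`, colours `D` (`s - 1` of them) even, in `(-M, M)`.
Step 2. `M' = M` or `M' = M + 1` such that `z = M + M' - (s - 1)` is odd; `mid = [-M, M') \ D` has `z` elements. `t1 = (τ - z) / 2`, `t2 = τ - z - t1`, so `t1 ≤ t2 ≤ t1 + 1`, `t1 ≥ 3 M + 1`. `N - M = M' + 2 t1 + z + 2 t2`.
`A1 ⊆ U` any subset with `t1 + z` elements, `A2 = U \ A1`.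
Step 3. Colours of the columns: `arc_assign`, `φ = f ∘ par`: `A1` gets `[M', M'+t1+z)`, `A2` gets `[M'+2t1+z, M'+2t1+z+t2)`. Columns: `A1`: in `[1-M'-t1-z, 0)`, `A2`: in `[1-M'-2t1-z-t2, M-1-M'-2t1-z)`, different.
Colours of the rows (child of `u`, `u` has the colour `w`): `u ∈ A1`, `w = M' + i`, `i < t1`: colour `M'+2t1+z-1-i` (these fill `[M'+t1+z, M'+2t1+z)`), row `f(par u) + 2t1+z-1-2i`: EVEN, in `[z+1, 2t1+z+M)`, strictly decreasing in `i` (`f(par u)` is not increasing in `w`);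
`u ∈ A1`, `w = M'+t1+i`, `i < z`: colour = the `i`-th largest element of `mid` (`arc_assign` for these rows with `φ = f` of the parent and the set of the negatives of `mid`, or an order isomorphism), row in `[1-M-M'-t1-z, M-t1-2)`, different (strictly decreasing in `w`);
`u ∈ A2`, `w = M'+2t1+z+i`, `i < t2`: colour `M'+2t1+z+2t2-1-i`, row `f(par u)+2t2-1-2i`: ODD, in `[1, 2t2+M)`, strictly decreasing in `i`.
Rows are different: core even in `[0, M)`, first family even and `≥ z + 1 > M`, third family odd, second family negative. Colours: `D ∪ mid = [-M, M')`, the others fill `[M', N - M)`.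
Windows of length `N`: colours `[-M, N-M)`, columns `[1-M'-2t1-z-t2, ·)`, rows `[1-M-M'-t1-z, ·)`. `labR_cast`.
-/

set_option autoImplicit false

namespace Pool.Agent.Helper1.GU

open Finset Pool.Agent.Helper19.GH Pool.Agent.Helper1.GN

variable {V : Type} [Fintype V] [DecidableEq V] {T : SimpleGraph V} {r : V} {par : V → V} {dep : V → ℕ} {S : Finset V}

theorem diagD (h : Core T r par dep S) (hodd : ∀ x, x ∉ S → par x ∈ S → ¬ Even (dep x))
    (hinj : ∀ x y, x ∉ S → y ∉ S → par x ∉ S → par x = par y → x = y) (hch : ∀ u, u ∉ S → par u ∈ S → ∃ x, x ∉ S ∧ par x = u)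
    {N : ℕ} (hN : Fintype.card V = N + 1) (hs : 100 * S.card ≤ N) : ∃ f : V → ZMod N, LabR r par dep univ f := by
  classical
  have hs1 : 1 ≤ S.card := Finset.card_pos.2 ⟨r, h.root⟩
  have hne : ∀ x, x ∉ S → x ≠ r := fun x hx hxr => hx (hxr ▸ h.root)
  -- the core
  obtain ⟨f0, hf0r, hf0w, hf0L⟩ := extend_lab h.rt (S0 := {r}) (S := S) (Finset.mem_singleton_self r)
    (fun x hx hxr => absurd (Finset.mem_singleton.1 hx) hxr) h.closed
    (Finset.singleton_subset_iff.2 h.root) (m := 2 * S.card) le_rfl (fun _ => 0) (fun _ => 0)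
    ⟨fun x hx y hy _ _ => by rw [Finset.mem_singleton.1 hx, Finset.mem_singleton.1 hy],
      fun x hx y hy hxr _ _ => absurd (Finset.mem_singleton.1 hx) hxr⟩
  have hf0 : ∀ x ∈ S, 0 ≤ f0 x ∧ f0 x < 2 * (S.card : ℤ) := by
    intro x hx
    by_cases hxr : x = r
    · have h1 := hf0r x (Finset.mem_singleton.2 hxr)
      rw [h1]
      constructor
      · exact le_rfl
      · have : (1 : ℤ) ≤ (S.card : ℤ) := by exact_mod_cast hs1
        linarith
    · have h1 := hf0w x hx (fun h2 => hxr (Finset.mem_singleton.1 h2))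
      push_cast at h1
      constructor
      · exact h1.1
      · linarith [h1.2]
  obtain ⟨s, hsdef⟩ : ∃ s : ℕ, s = S.card := ⟨_, rfl⟩
  rw [← hsdef] at hf0 hs hs1
  obtain ⟨e, z', he1, hez⟩ : ∃ e z' : ℕ, e ≤ 1 ∧ 7 * s + e = 2 * z' := ⟨s % 2, (7 * s + s % 2) / 2, by omega, by omega⟩
  -- the colours of the core (for the labels `2 * f0`)
  let D : Finset ℤ := (S.erase r).image fun x => 2 * cl par dep f0 x
  have hclb : ∀ x ∈ S, x ≠ r → -(2 * (s : ℤ)) < cl par dep f0 x ∧ cl par dep f0 x < 2 * (s : ℤ) := by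
    intro x hx hxr
    have h1 := hf0 x hx
    have h2 := hf0 _ (h.closed x hx hxr)
    unfold cl
    split_ifs <;> constructor <;> linarith [h1.1, h1.2, h2.1, h2.2]
  have hDcard : D.card = s - 1 := by
    show ((S.erase r).image fun x => 2 * cl par dep f0 x).card = s - 1
    rw [Finset.card_image_of_injOn, Finset.card_erase_of_mem h.root, ← hsdef]
    intro x hx y hy hxy
    rw [Finset.mem_coe, Finset.mem_erase] at hx hy
    have h1 : 2 * cl par dep f0 x = 2 * cl par dep f0 y := hxy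
    exact hf0L.col x hx.2 y hy.2 hx.1 hy.1 (by linarith)
  let M' : ℤ := 4 * (s : ℤ) + e
  let mid : Finset ℤ := Ico (-(4 * (s : ℤ))) M' \ D
  have hmid : mid.card = 2 * z' + 1 := by
    have h1 := card_arc D (c := -(4 * (s : ℤ))) (d := M') (by
      show -(4 * (s : ℤ)) ≤ 4 * (s : ℤ) + e
      omega)
    have h2 : (D.filter fun z => -(4 * (s : ℤ)) ≤ z ∧ z < M') = D := by
      refine Finset.filter_true_of_mem fun z hz => ?_
      obtain ⟨x, hx, rfl⟩ := Finset.mem_image.1 hz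
      rw [Finset.mem_erase] at hx
      have h3 := hclb x hx.2 hx.1
      show -(4 * (s : ℤ)) ≤ 2 * cl par dep f0 x ∧ 2 * cl par dep f0 x < 4 * (s : ℤ) + e
      omega
    rw [h2, hDcard] at h1
    have h4 : ((mid.card : ℕ) : ℤ) = M' - -(4 * (s : ℤ)) - ((s - 1 : ℕ) : ℤ) := h1
    have h5 : M' = 4 * (s : ℤ) + e := rfl
    rw [h5] at h4
    omega
  -- the legs
  let U : Finset V := univ.filter fun x => x ∉ S ∧ par x ∈ S
  let C : Finset V := univ.filter fun x => x ∉ S ∧ par x ∉ S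
  have hU : ∀ x, x ∈ U ↔ x ∉ S ∧ par x ∈ S := fun x => by simp [U]
  have hC : ∀ x, x ∈ C ↔ x ∉ S ∧ par x ∉ S := fun x => by simp [C]
  have hCU : C.card = U.card := by
    rw [← Finset.card_image_of_injOn (s := C) (f := par)]
    · congr 1
      ext u
      rw [Finset.mem_image, hU]
      constructor
      · rintro ⟨x, hx, rfl⟩
        rw [hC] at hx
        exact ⟨hx.2, h.two x hx.1 hx.2⟩
      · rintro ⟨h1, h2⟩
        obtain ⟨x, hx1, hx2⟩ := hch u h1 h2
        exact ⟨x, (hC x).2 ⟨hx1, hx2 ▸ h1⟩, hx2⟩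
    · intro x hx y hy hxy
      rw [Finset.mem_coe, hC] at hx hy
      exact hinj x y hx.1 hy.1 hx.2 hxy
  have hcard : S.card + (U.card + C.card) = Fintype.card V := by
    have h1 : Disjoint U C := Finset.disjoint_left.2 fun x h1 h2 => ((hC x).1 h2).2 ((hU x).1 h1).2
    have h2 : Disjoint S (U ∪ C) := Finset.disjoint_left.2 fun x h1 h2 => by
      rcases Finset.mem_union.1 h2 with h3 | h3
      · exact ((hU x).1 h3).1 h1
      · exact ((hC x).1 h3).1 h1
    rw [← Finset.card_union_of_disjoint h1, ← Finset.card_union_of_disjoint h2, ← Finset.card_univ]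
    congr 1
    ext x
    simp only [Finset.mem_union, Finset.mem_univ, iff_true]
    by_cases h3 : x ∈ S
    · exact Or.inl h3
    · by_cases h4 : par x ∈ S
      · exact Or.inr (Or.inl ((hU x).2 ⟨h3, h4⟩))
      · exact Or.inr (Or.inr ((hC x).2 ⟨h3, h4⟩))
  obtain ⟨τ, hτ⟩ : ∃ τ : ℕ, τ = U.card := ⟨_, rfl⟩
  rw [hCU, ← hτ, ← hsdef, hN] at hcard
  obtain ⟨t1, t2, ht, ht12, ht21⟩ : ∃ t1 t2 : ℕ, t1 + t2 + (2 * z' + 1) = τ ∧ t1 ≤ t2 ∧ t2 ≤ t1 + 1 :=
    ⟨(τ - (2 * z' + 1)) / 2, τ - (2 * z' + 1) - (τ - (2 * z' + 1)) / 2, by omega, by omega, by omega⟩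
  have ht1 : 20 * s ≤ t1 + 1 := by omega
  obtain ⟨A1, hA1U, hA1c⟩ := Finset.exists_subset_card_eq (s := U) (n := t1 + (2 * z' + 1)) (by omega)
  let A2 := U \ A1
  have hA2c : A2.card = t2 := by
    show (U \ A1).card = t2
    rw [Finset.card_sdiff_of_subset hA1U, ← hτ, hA1c]
    omega
  -- the colours of the columns
  obtain ⟨w1, hw1m, hw1i, hw1o⟩ := arc_assign A1 (fun u => f0 (par u)) (Ico M' (M' + t1 + (2 * z' + 1))) (by
    rw [Int.card_Ico, hA1c]
    omega)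
  obtain ⟨w2, hw2m, hw2i, hw2o⟩ := arc_assign A2 (fun u => f0 (par u))
    (Ico (M' + 2 * t1 + (2 * z' + 1)) (M' + 2 * t1 + (2 * z' + 1) + t2)) (by
    rw [Int.card_Ico, hA2c]
    omega)
  simp only [Finset.mem_Ico] at hw1m hw2m
  -- the rows with a colour in the middle
  let L1 := A1.filter fun u => M' + t1 ≤ w1 u
  have hL1 : L1.card = 2 * z' + 1 := by
    have him : A1.image w1 = Ico M' (M' + t1 + (2 * z' + 1)) := by
      refine Finset.eq_of_subset_of_card_le ?_ ?_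
      · intro c hc
        obtain ⟨u, hu, rfl⟩ := Finset.mem_image.1 hc
        exact Finset.mem_Ico.2 (hw1m u hu)
      · rw [Finset.card_image_of_injOn (fun u hu v hv huv => hw1i u hu v hv huv), hA1c, Int.card_Ico]
        omega
    have h1 : L1.image w1 = Ico (M' + t1) (M' + t1 + (2 * z' + 1)) := by
      ext c
      rw [Finset.mem_image, Finset.mem_Ico]
      constructor
      · rintro ⟨u, hu, rfl⟩
        have h2 := Finset.mem_filter.1 hu
        exact ⟨h2.2, (hw1m u h2.1).2⟩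
      · rintro ⟨h2, h3⟩
        have h4 : c ∈ A1.image w1 := by
          rw [him, Finset.mem_Ico]
          constructor
          · have : (0 : ℤ) ≤ (t1 : ℤ) := Int.natCast_nonneg _
            linarith
          · exact h3
        obtain ⟨u, hu, rfl⟩ := Finset.mem_image.1 h4
        exact ⟨u, Finset.mem_filter.2 ⟨hu, h2⟩, rfl⟩
    have h2 : (L1.image w1).card = L1.card := Finset.card_image_of_injOn fun u hu v hv huv =>
      hw1i u (Finset.mem_filter.1 hu).1 v (Finset.mem_filter.1 hv).1 huv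
    rw [← h2, h1, Int.card_Ico]
    omega
  obtain ⟨c1, hc1m, hc1i, hc1o⟩ := arc_assign L1 w1 mid (by rw [hmid, hL1])
  -- the labels
  let cc : V → ℤ := fun u => if u ∈ A1 then (if M' + t1 ≤ w1 u then c1 u else 2 * M' + 2 * t1 + 2 * z' - w1 u)
    else 2 * M' + 4 * t1 + 4 * z' + 2 * t2 + 1 - w2 u
  let ww : V → ℤ := fun u => if u ∈ A1 then w1 u else w2 u
  let F : V → ℤ := fun x => if x ∈ S then 2 * f0 x else if par x ∈ S then 2 * f0 (par x) - ww x
    else 2 * f0 (par (par x)) - ww (par x) + cc (par x)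
  have hFS : ∀ x ∈ S, F x = 2 * f0 x := fun x hx => if_pos hx
  have hFU : ∀ x, x ∉ S → par x ∈ S → F x = 2 * f0 (par x) - ww x := fun x hx hp => by
    show (if x ∈ S then 2 * f0 x else _) = _
    rw [if_neg hx, if_pos hp]
  have hFC : ∀ x, x ∉ S → par x ∉ S → F x = 2 * f0 (par (par x)) - ww (par x) + cc (par x) := fun x hx hp => by
    show (if x ∈ S then 2 * f0 x else _) = _
    rw [if_neg hx, if_neg hp]
  have hevC : ∀ x, x ∉ S → par x ∉ S → Even (dep x) := by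
    intro x hx hp
    have h1 := h.rt.dep_par x (hne x hx)
    have h2 := hodd _ hp (h.two x hx hp)
    rw [h1]
    exact Nat.even_add_one.2 h2
  have hclS : ∀ x ∈ S, x ≠ r → cl par dep F x = 2 * cl par dep f0 x := by
    intro x hx hxr
    unfold cl
    rw [hFS x hx, hFS _ (h.closed x hx hxr)]
    split_ifs <;> ring
  have hclU : ∀ x, x ∉ S → par x ∈ S → cl par dep F x = ww x := by
    intro x hx hp
    unfold cl
    rw [if_neg (hodd x hx hp), hFU x hx hp, hFS _ hp]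
    ring
  have hclC : ∀ x, x ∉ S → par x ∉ S → cl par dep F x = cc (par x) := by
    intro x hx hp
    unfold cl
    rw [if_pos (hevC x hx hp), hFC x hx hp, hFU _ hp (h.two x hx hp)]
    ring
  have hM' : M' = 4 * (s : ℤ) + e := rfl
  -- the six classes
  have hA2mem : ∀ u, u ∉ S → par u ∈ S → u ∉ A1 → u ∈ A2 := fun u h1 h2 h3 =>
    Finset.mem_sdiff.2 ⟨(hU u).2 ⟨h1, h2⟩, h3⟩
  have hA1' : ∀ u ∈ A1, u ∉ S ∧ par u ∈ S := fun u hu => (hU u).1 (hA1U hu)
  have hcls : ∀ x, (x ∈ S) ∨ (x ∉ S ∧ par x ∈ S ∧ x ∈ A1) ∨ (x ∉ S ∧ par x ∈ S ∧ x ∈ A2 ∧ x ∉ A1) ∨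
      (x ∉ S ∧ par x ∉ S ∧ par x ∈ A1 ∧ w1 (par x) < M' + t1) ∨ (x ∉ S ∧ par x ∉ S ∧ par x ∈ A1 ∧ M' + t1 ≤ w1 (par x)) ∨
      (x ∉ S ∧ par x ∉ S ∧ par x ∈ A2 ∧ par x ∉ A1) := by
    intro x
    by_cases h1 : x ∈ S
    · exact Or.inl h1
    · right
      by_cases h2 : par x ∈ S
      · by_cases h3 : x ∈ A1
        · exact Or.inl ⟨h1, h2, h3⟩
        · exact Or.inr (Or.inl ⟨h1, h2, hA2mem x h1 h2 h3, h3⟩)
      · right; right
        by_cases h3 : par x ∈ A1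
        · by_cases h4 : M' + t1 ≤ w1 (par x)
          · exact Or.inr (Or.inl ⟨h1, h2, h3, h4⟩)
          · exact Or.inl ⟨h1, h2, h3, not_le.1 h4⟩
        · exact Or.inr (Or.inr ⟨h1, h2, hA2mem _ h2 (h.two x h1 h2) h3, h3⟩)
  have hw1 : ∀ u ∈ A1, ww u = w1 u := fun u hu => if_pos hu
  have hw2 : ∀ u, u ∉ A1 → ww u = w2 u := fun u hu => if_neg hu
  have hcc1 : ∀ u ∈ A1, w1 u < M' + t1 → cc u = 2 * M' + 2 * t1 + 2 * z' - w1 u := fun u hu hlt => by
    show (if u ∈ A1 then (if M' + t1 ≤ w1 u then c1 u else _) else _) = _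
    rw [if_pos hu, if_neg (not_le.2 hlt)]
  have hcc2 : ∀ u ∈ A1, M' + t1 ≤ w1 u → cc u = c1 u := fun u hu hlt => by
    show (if u ∈ A1 then (if M' + t1 ≤ w1 u then c1 u else _) else _) = _
    rw [if_pos hu, if_pos hlt]
  have hcc3 : ∀ u, u ∉ A1 → cc u = 2 * M' + 4 * t1 + 4 * z' + 2 * t2 + 1 - w2 u := fun u hu => if_neg hu
  have hc1r : ∀ u ∈ A1, M' + t1 ≤ w1 u → (-(4 * (s : ℤ)) ≤ c1 u ∧ c1 u < M') ∧ c1 u ∉ D := by
    intro u hu hlt
    have h1 := hc1m u (Finset.mem_filter.2 ⟨hu, hlt⟩)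
    have h2 : c1 u ∈ Ico (-(4 * (s : ℤ))) M' \ D := h1
    rw [Finset.mem_sdiff, Finset.mem_Ico] at h2
    exact h2
  -- facts of the classes: labels
  have hN' : (N : ℤ) = s + 2 * τ - 1 := by omega
  have hDm : ∀ x ∈ S, x ≠ r → 2 * cl par dep f0 x ∈ D := fun x hx hxr =>
    Finset.mem_image.2 ⟨x, Finset.mem_erase.2 ⟨hxr, hx⟩, rfl⟩
  have fact : ∀ x, (x ∈ S ∧ F x = 2 * f0 x ∧ 0 ≤ f0 x ∧ f0 x < 2 * (s : ℤ)) ∨
      (¬ Even (dep x) ∧ x ∈ A1 ∧ x ∉ S ∧ par x ∈ S ∧ F x = 2 * f0 (par x) - w1 x ∧ (0 ≤ f0 (par x) ∧ f0 (par x) < 2 * (s : ℤ)) ∧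
        M' ≤ w1 x ∧ w1 x < M' + t1 + (2 * z' + 1)) ∨
      (¬ Even (dep x) ∧ x ∈ A2 ∧ x ∉ S ∧ par x ∈ S ∧ F x = 2 * f0 (par x) - w2 x ∧ (0 ≤ f0 (par x) ∧ f0 (par x) < 2 * (s : ℤ)) ∧
        M' + 2 * t1 + (2 * z' + 1) ≤ w2 x ∧ w2 x < M' + 2 * t1 + (2 * z' + 1) + t2) ∨
      (Even (dep x) ∧ par x ∈ A1 ∧ x ∉ S ∧ par x ∉ S ∧
        F x = 2 * f0 (par (par x)) - w1 (par x) + (2 * M' + 2 * t1 + 2 * z' - w1 (par x)) ∧
        (0 ≤ f0 (par (par x)) ∧ f0 (par (par x)) < 2 * (s : ℤ)) ∧ M' ≤ w1 (par x) ∧ w1 (par x) < M' + t1) ∨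
      (Even (dep x) ∧ par x ∈ A1 ∧ x ∉ S ∧ par x ∉ S ∧ F x = 2 * f0 (par (par x)) - w1 (par x) + c1 (par x) ∧
        (0 ≤ f0 (par (par x)) ∧ f0 (par (par x)) < 2 * (s : ℤ)) ∧ (M' + t1 ≤ w1 (par x) ∧ w1 (par x) < M' + t1 + (2 * z' + 1)) ∧
        (-(4 * (s : ℤ)) ≤ c1 (par x) ∧ c1 (par x) < M') ∧ c1 (par x) ∉ D) ∨
      (Even (dep x) ∧ par x ∈ A2 ∧ x ∉ S ∧ par x ∉ S ∧
        F x = 2 * f0 (par (par x)) - w2 (par x) + (2 * M' + 4 * t1 + 4 * z' + 2 * t2 + 1 - w2 (par x)) ∧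
        (0 ≤ f0 (par (par x)) ∧ f0 (par (par x)) < 2 * (s : ℤ)) ∧
        M' + 2 * t1 + (2 * z' + 1) ≤ w2 (par x) ∧ w2 (par x) < M' + 2 * t1 + (2 * z' + 1) + t2) := by
    intro x
    rcases hcls x with h1 | ⟨h1, h2, h3⟩ | ⟨h1, h2, h3, h4⟩ | ⟨h1, h2, h3, h4⟩ | ⟨h1, h2, h3, h4⟩ | ⟨h1, h2, h3, h4⟩
    · exact Or.inl ⟨h1, hFS x h1, hf0 x h1⟩
    · right; left
      exact ⟨hodd x h1 h2, h3, h1, h2, by rw [hFU x h1 h2, hw1 x h3], hf0 _ h2, hw1m x h3⟩
    · right; right; left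
      exact ⟨hodd x h1 h2, h3, h1, h2, by rw [hFU x h1 h2, hw2 x h4], hf0 _ h2, hw2m x h3⟩
    · right; right; right; left
      exact ⟨hevC x h1 h2, h3, h1, h2, by rw [hFC x h1 h2, hw1 _ h3, hcc1 _ h3 h4], hf0 _ (h.two x h1 h2),
        (hw1m _ h3).1, h4⟩
    · right; right; right; right; left
      exact ⟨hevC x h1 h2, h3, h1, h2, by rw [hFC x h1 h2, hw1 _ h3, hcc2 _ h3 h4], hf0 _ (h.two x h1 h2),
        ⟨h4, (hw1m _ h3).2⟩, (hc1r _ h3 h4).1, (hc1r _ h3 h4).2⟩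
    · right; right; right; right; right
      exact ⟨hevC x h1 h2, h3, h1, h2, by rw [hFC x h1 h2, hw2 _ h4, hcc3 _ h4], hf0 _ (h.two x h1 h2), hw2m _ h3⟩
  have factc : ∀ x, x ≠ r → (x ∈ S ∧ cl par dep F x = 2 * cl par dep f0 x ∧ -(2 * (s : ℤ)) < cl par dep f0 x ∧ cl par dep f0 x < 2 * (s : ℤ)) ∨
      (x ∈ A1 ∧ x ∉ S ∧ par x ∈ S ∧ cl par dep F x = w1 x ∧ M' ≤ w1 x ∧ w1 x < M' + t1 + (2 * z' + 1)) ∨
      (x ∈ A2 ∧ x ∉ S ∧ par x ∈ S ∧ cl par dep F x = w2 x ∧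
        M' + 2 * t1 + (2 * z' + 1) ≤ w2 x ∧ w2 x < M' + 2 * t1 + (2 * z' + 1) + t2) ∨
      (par x ∈ A1 ∧ x ∉ S ∧ par x ∉ S ∧ cl par dep F x = 2 * M' + 2 * t1 + 2 * z' - w1 (par x) ∧
        M' ≤ w1 (par x) ∧ w1 (par x) < M' + t1) ∨
      (par x ∈ A1 ∧ x ∉ S ∧ par x ∉ S ∧ cl par dep F x = c1 (par x) ∧ M' + t1 ≤ w1 (par x) ∧
        (-(4 * (s : ℤ)) ≤ c1 (par x) ∧ c1 (par x) < M') ∧ c1 (par x) ∉ D) ∨
      (par x ∈ A2 ∧ x ∉ S ∧ par x ∉ S ∧ cl par dep F x = 2 * M' + 4 * t1 + 4 * z' + 2 * t2 + 1 - w2 (par x) ∧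
        M' + 2 * t1 + (2 * z' + 1) ≤ w2 (par x) ∧ w2 (par x) < M' + 2 * t1 + (2 * z' + 1) + t2) := by
    intro x hxr
    rcases hcls x with h1 | ⟨h1, h2, h3⟩ | ⟨h1, h2, h3, h4⟩ | ⟨h1, h2, h3, h4⟩ | ⟨h1, h2, h3, h4⟩ | ⟨h1, h2, h3, h4⟩
    · exact Or.inl ⟨h1, hclS x h1 hxr, hclb x h1 hxr⟩
    · right; left
      exact ⟨h3, h1, h2, by rw [hclU x h1 h2, hw1 x h3], hw1m x h3⟩
    · right; right; left
      exact ⟨h3, h1, h2, by rw [hclU x h1 h2, hw2 x h4], hw2m x h3⟩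
    · right; right; right; left
      exact ⟨h3, h1, h2, by rw [hclC x h1 h2, hcc1 _ h3 h4], (hw1m _ h3).1, h4⟩
    · right; right; right; right; left
      exact ⟨h3, h1, h2, by rw [hclC x h1 h2, hcc2 _ h3 h4], h4, (hc1r _ h3 h4).1, (hc1r _ h3 h4).2⟩
    · right; right; right; right; right
      exact ⟨h3, h1, h2, by rw [hclC x h1 h2, hcc3 _ h4], hw2m _ h3⟩
  have hlab : LabR r par dep univ F := by
    refine ⟨fun x _ y _ hp hxy => ?_, fun x _ y _ hxr hyr hxy => ?_⟩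
    · rcases fact x with ⟨a1, a2, a3, a4⟩ | ⟨a1, a2, a3, a4, a5, a6, a7, a8⟩ | ⟨a1, a2, a3, a4, a5, a6, a7, a8⟩ |
        ⟨a1, a2, a3, a4, a5, a6, a7, a8⟩ | ⟨a1, a2, a3, a4, a5, a6, a7, a8⟩ | ⟨a1, a2, a3, a4, a5, a6, a7, a8⟩ <;>
      rcases fact y with ⟨b1, b2, b3, b4⟩ | ⟨b1, b2, b3, b4, b5, b6, b7, b8⟩ | ⟨b1, b2, b3, b4, b5, b6, b7, b8⟩ |
        ⟨b1, b2, b3, b4, b5, b6, b7, b8⟩ | ⟨b1, b2, b3, b4, b5, b6, b7, b8⟩ | ⟨b1, b2, b3, b4, b5, b6, b7, b8⟩
      -- S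
      · exact hf0L.inj x a1 y b1 hp (by omega)
      · exfalso; omega
      · exfalso; omega
      · exfalso; omega
      · exfalso; omega
      · exfalso; omega
      -- A1
      · exfalso; omega
      · rcases lt_trichotomy (w1 x) (w1 y) with hlt | heq | hgt
        · have := hw1o x a2 y b2 hlt
          exfalso; omega
        · exact hw1i x a2 y b2 heq
        · have := hw1o y b2 x a2 hgt
          exfalso; omega
      · exfalso; omega
      · exact absurd (hp.2 b1) a1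
      · exact absurd (hp.2 b1) a1
      · exact absurd (hp.2 b1) a1
      -- A2
      · exfalso; omega
      · exfalso; omega
      · rcases lt_trichotomy (w2 x) (w2 y) with hlt | heq | hgt
        · have := hw2o x a2 y b2 hlt
          exfalso; omega
        · exact hw2i x a2 y b2 heq
        · have := hw2o y b2 x a2 hgt
          exfalso; omega
      · exact absurd (hp.2 b1) a1
      · exact absurd (hp.2 b1) a1
      · exact absurd (hp.2 b1) a1
      -- C1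
      · exfalso; omega
      · exact absurd (hp.1 a1) b1
      · exact absurd (hp.1 a1) b1
      · rcases lt_trichotomy (w1 (par x)) (w1 (par y)) with hlt | heq | hgt
        · have := hw1o _ a2 _ b2 hlt
          exfalso; omega
        · exact hinj x y a3 b3 a4 (hw1i _ a2 _ b2 heq)
        · have := hw1o _ b2 _ a2 hgt
          exfalso; omega
      · exfalso; omega
      · exfalso; omega
      -- C1 mid
      · exfalso; omega
      · exact absurd (hp.1 a1) b1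
      · exact absurd (hp.1 a1) b1
      · exfalso; omega
      · have hxL : par x ∈ L1 := Finset.mem_filter.2 ⟨a2, a7.1⟩
        have hyL : par y ∈ L1 := Finset.mem_filter.2 ⟨b2, b7.1⟩
        rcases lt_trichotomy (w1 (par x)) (w1 (par y)) with hlt | heq | hgt
        · have h1 := hw1o _ a2 _ b2 hlt
          have h2 : c1 (par y) ≤ c1 (par x) := by
            by_contra hc
            have := hc1o _ hxL _ hyL (not_le.1 hc)
            omega
          exfalso; omega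
        · exact hinj x y a3 b3 a4 (hw1i _ a2 _ b2 heq)
        · have h1 := hw1o _ b2 _ a2 hgt
          have h2 : c1 (par x) ≤ c1 (par y) := by
            by_contra hc
            have := hc1o _ hyL _ hxL (not_le.1 hc)
            omega
          exfalso; omega
      · exfalso; omega
      -- C2
      · exfalso; omega
      · exact absurd (hp.1 a1) b1
      · exact absurd (hp.1 a1) b1
      · exfalso; omega
      · exfalso; omega
      · rcases lt_trichotomy (w2 (par x)) (w2 (par y)) with hlt | heq | hgt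
        · have := hw2o _ a2 _ b2 hlt
          exfalso; omega
        · exact hinj x y a3 b3 a4 (hw2i _ a2 _ b2 heq)
        · have := hw2o _ b2 _ a2 hgt
          exfalso; omega
    · rcases factc x hxr with ⟨a1, a2, a3, a4⟩ | ⟨a1, a2, a3, a4, a5, a6⟩ | ⟨a1, a2, a3, a4, a5, a6⟩ |
        ⟨a1, a2, a3, a4, a5, a6⟩ | ⟨a1, a2, a3, a4, a5, a6, a7⟩ | ⟨a1, a2, a3, a4, a5, a6⟩ <;>
      rcases factc y hyr with ⟨b1, b2, b3, b4⟩ | ⟨b1, b2, b3, b4, b5, b6⟩ | ⟨b1, b2, b3, b4, b5, b6⟩ |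
        ⟨b1, b2, b3, b4, b5, b6⟩ | ⟨b1, b2, b3, b4, b5, b6, b7⟩ | ⟨b1, b2, b3, b4, b5, b6⟩
      -- S
      · exact hf0L.col x a1 y b1 hxr hyr (by omega)
      · exfalso; omega
      · exfalso; omega
      · exfalso; omega
      · exfalso
        rw [a2, b4] at hxy
        exact b7 (hxy ▸ hDm x a1 hxr)
      · exfalso; omega
      -- A1
      · exfalso; omega
      · exact hw1i x a1 y b1 (by omega)
      · exfalso; omega
      · exfalso; omega
      · exfalso; omega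
      · exfalso; omega
      -- A2
      · exfalso; omega
      · exfalso; omega
      · exact hw2i x a1 y b1 (by omega)
      · exfalso; omega
      · exfalso; omega
      · exfalso; omega
      -- C1
      · exfalso; omega
      · exfalso; omega
      · exfalso; omega
      · exact hinj x y a2 b2 a3 (hw1i _ a1 _ b1 (by omega))
      · exfalso; omega
      · exfalso; omega
      -- C1 mid
      · exfalso
        rw [a4, b2] at hxy
        exact a7 (hxy ▸ hDm y b1 hyr)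
      · exfalso; omega
      · exfalso; omega
      · exfalso; omega
      · exact hinj x y a2 b2 a3 (hc1i _ (Finset.mem_filter.2 ⟨a1, a5⟩) _ (Finset.mem_filter.2 ⟨b1, b5⟩) (by omega))
      · exfalso; omega
      -- C2
      · exfalso; omega
      · exfalso; omega
      · exfalso; omega
      · exfalso; omega
      · exfalso; omega
      · exact hinj x y a2 b2 a3 (hw2i _ a1 _ b1 (by omega))
  refine ⟨_, labR_cast hlab (N := N) (a := 1 - 4 * (s : ℤ) - M' - t1 - (2 * z' + 1)) (b := 1 - M' - 2 * t1 - (2 * z' + 1) - t2)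
    (c := -(4 * (s : ℤ))) ?_ ?_ ?_⟩
  · intro x _ hev
    rcases fact x with ⟨a1, a2, a3, a4⟩ | ⟨a1, a2, a3, a4, a5, a6, a7, a8⟩ | ⟨a1, a2, a3, a4, a5, a6, a7, a8⟩ |
        ⟨a1, a2, a3, a4, a5, a6, a7, a8⟩ | ⟨a1, a2, a3, a4, a5, a6, a7, a8⟩ | ⟨a1, a2, a3, a4, a5, a6, a7, a8⟩
    · constructor <;> omega
    · exact absurd hev a1
    · exact absurd hev a1
    · constructor <;> omega
    · constructor <;> omega
    · constructor <;> omega
  · intro x _ hev
    rcases fact x with ⟨a1, a2, a3, a4⟩ | ⟨a1, a2, a3, a4, a5, a6, a7, a8⟩ | ⟨a1, a2, a3, a4, a5, a6, a7, a8⟩ |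
        ⟨a1, a2, a3, a4, a5, a6, a7, a8⟩ | ⟨a1, a2, a3, a4, a5, a6, a7, a8⟩ | ⟨a1, a2, a3, a4, a5, a6, a7, a8⟩
    · constructor <;> omega
    · constructor <;> omega
    · constructor <;> omega
    · exact absurd a1 hev
    · exact absurd a1 hev
    · exact absurd a1 hev
  · intro x _ hxr
    rcases factc x hxr with ⟨a1, a2, a3, a4⟩ | ⟨a1, a2, a3, a4, a5, a6⟩ | ⟨a1, a2, a3, a4, a5, a6⟩ |
        ⟨a1, a2, a3, a4, a5, a6⟩ | ⟨a1, a2, a3, a4, a5, a6, a7⟩ | ⟨a1, a2, a3, a4, a5, a6⟩ <;> constructor <;> omega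

end Pool.Agent.Helper1.GU
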