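import Pool.Agent.Helper1.GU.Defs

/-!
BLOCK GU-3 (proved, helper43). Labelling E: many column brooms and many row brooms. (Checked numerically, `/team-store/h1_u2check.py`, function `N9`.)

Notation: `s = |S|`, `2 s ≤ m` (so `m ≥ 2`). Outside `S`: `U1` column brooms (`t ≥ 40 m`), `U0` the other columns with parent in `S` (`u`), `R1` row brooms (`t' ≥ 40 m`), `R0` the other rows with parent in `S` (`u'`), `W` = rows with parent in `U1` (`b ≥ t`), `W'` = columns with parent in `R1` (`b' ≥ t'`);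
a vertex `x ∉ S` with `par x ∉ S` has its grandparent in `S` (`two`), so it is in `W` or `W'` according to the parity of its depth. `N = s - 1 + t + u + t' + u' + b + b'`.
A column `x ∉ S` with colour `w x` gets the label `f (par x) - w x`, a row the label `f (par x) + w x`. Integer labels, at the end `labR_cast`.

Step 1. `extend_lab` with `S0 = {r}`, `f0 = 0`, `W = 0`: labels of `S` in `[0, m)`, colours `D` (`s - 1` of them, injective) in `(-m, m)`.
Step 2. `arc_assign` for `U1` (`φ = f ∘ par`) with `[-m-t, -m)` and for `R1` (`φ = - f ∘ par`) with `[m, 20m) ∪ [28m, 9m+t')`. A vertex of `U1` with colour `w` has the column `∈ [-w, -w+m-1]`, a vertex of `R1` with colour `w` the row `∈ [w, w+m-1]`.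
`P1` = `U1` with colour in `[-25m, -22m]`, `P2` = `U1` with colour in `[3m-t, 5m-t]`, `Q1` = `R1` with colour in `[m, 9m)`, `Q2` = `R1` with colour in `[t'+3m, t'+5m]`: `3m+1`, `2m+1`, `8m`, `2m+1` vertices, `P1`, `P2` disjoint, `Q1`, `Q2` disjoint; each vertex has a child.
Choose `W1 ⊆` children of `P1` (`2m - s + 1` elements), `W2 ⊆` children of `P2` (`2m`), `W1' ⊆` children of `Q1` (`8m`), `W2' ⊆` children of `Q2` (`2m`); `Wm = W \ (W1 ∪ W2)` (`b - 4m + s - 1`), `Wm' = W' \ (W1' ∪ W2')` (`b' - 10m`).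
Step 3. `arc_assign` for each family (`φ = f ∘ par` for columns, `φ = - f ∘ par` for rows). Put `y = 7m + t' + u' + b + s - 1`; then `y + b' - 10m = N - 3m - t - u`. Table (half open intervals of integers):
  family | colours                         | labels
  S      | D ⊂ (-m, m)                     | [0, m)
  W1     | [-m, m) \ D                     | rows [21m, 27m)
  R1     | [m, 20m) ∪ [28m, 9m+t')         | rows [m, 21m-1) ∪ [28m, 10m+t'-1)
  W1'    | [20m, 28m)                      | columns [1-27m, -10m)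
  W2'    | [9m+t', 11m+t')                 | columns [1-8m, -3m)
  R0     | [11m+t', 11m+t'+u')             | rows [11m+t', 12m+t'+u')
  Wm     | [11m+t'+u', y)                  | rows [12m+t'+u'+1, N+9m-u-b')
  Wm'    | [y, N-3m-t-u)                   | columns [4m+t+u+1-N, 10m+t'-1-y)
  U0     | [-3m-t-u, -3m-t)                | columns [3m+t+1, 4m+t+u)
  W2     | [-3m-t, -m-t)                   | rows [-8m, -3m)
  U1     | [-m-t, -m)                      | columns [m+1, t+2m)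
In each family the labels are injective: for `w x < w y` `arc_assign` gives `φ y ≤ φ x`, so the labels are strictly monotone in `w`.
Windows of length `N`: colours `[-3m-t-u, ·)`, rows `[-8m, ·)` (`u + b' ≥ 17m`), columns `[4m+t+u+1-N, ·)`. `labR_cast`.
-/

set_option autoImplicit false

namespace Pool.Agent.Helper1.GU

open Finset Pool.Agent.Helper19.GH Pool.Agent.Helper1.GN

private theorem arc_classes {V : Type} [DecidableEq V] (X : Finset V) (k : V → ℕ) (φ : V → ℤ) (C : ℕ → Finset ℤ)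
    (h : ∀ x ∈ X, (C (k x)).card = (X.filter fun y => k y = k x).card) :
    ∃ w : V → ℤ, (∀ x ∈ X, w x ∈ C (k x)) ∧ (∀ x ∈ X, ∀ y ∈ X, k x = k y → w x = w y → x = y) ∧
      ∀ x ∈ X, ∀ y ∈ X, k x = k y → w x < w y → φ y ≤ φ x := by
  have key : ∀ i, ∃ w : V → ℤ, (C i).card = (X.filter fun y => k y = i).card →
      (∀ u ∈ X.filter (fun y => k y = i), w u ∈ C i) ∧
      (∀ u ∈ X.filter (fun y => k y = i), ∀ v ∈ X.filter (fun y => k y = i), w u = w v → u = v) ∧
      ∀ u ∈ X.filter (fun y => k y = i), ∀ v ∈ X.filter (fun y => k y = i), w u < w v → φ v ≤ φ u := by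
    intro i
    by_cases hi : (C i).card = (X.filter fun y => k y = i).card
    · obtain ⟨w, hw⟩ := arc_assign (X.filter fun y => k y = i) φ (C i) hi
      exact ⟨w, fun _ => hw⟩
    · exact ⟨fun _ => 0, fun h => absurd h hi⟩
  choose w hw using key
  refine ⟨fun x => w (k x) x, fun x hx => ?_, fun x hx y hy hk e => ?_, fun x hx y hy hk e => ?_⟩
  · exact (hw (k x) (h x hx)).1 x (mem_filter.2 ⟨hx, rfl⟩)
  · refine (hw (k x) (h x hx)).2.1 x (mem_filter.2 ⟨hx, rfl⟩) y (mem_filter.2 ⟨hy, hk.symm⟩) ?_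
    simpa [hk] using e
  · refine (hw (k x) (h x hx)).2.2 x (mem_filter.2 ⟨hx, rfl⟩) y (mem_filter.2 ⟨hy, hk.symm⟩) ?_
    simpa [hk] using e

private theorem card_fil {V : Type} [DecidableEq V] {L : Finset V} {w : V → ℤ} {C : Finset ℤ} (hw : ∀ u ∈ L, w u ∈ C)
    (hi : ∀ u ∈ L, ∀ v ∈ L, w u = w v → u = v) (hc : C.card = L.card) {J : Finset ℤ} (hJ : J ⊆ C) :
    (L.filter fun x => w x ∈ J).card = J.card := by
  have hinj : Set.InjOn w (L : Set V) := fun u hu v hv e => hi u hu v hv e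
  have h1 : L.image w = C := by
    refine eq_of_subset_of_card_le (fun z hz => ?_) ?_
    · obtain ⟨x, hx, rfl⟩ := mem_image.1 hz
      exact hw x hx
    · rw [card_image_of_injOn hinj, hc]
  have h2 : (L.filter fun x => w x ∈ J).image w = J := by
    ext z
    constructor
    · intro hz
      obtain ⟨x, hx, rfl⟩ := mem_image.1 hz
      exact (mem_filter.1 hx).2
    · intro hz
      have h3 := hJ hz
      rw [← h1] at h3
      obtain ⟨x, hx, rfl⟩ := mem_image.1 h3
      exact mem_image.2 ⟨x, mem_filter.2 ⟨hx, hz⟩, rfl⟩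
  have h3 := card_image_of_injOn (s := L.filter fun x => w x ∈ J) (f := w)
    (fun u hu v hv e => hi u (mem_filter.1 hu).1 v (mem_filter.1 hv).1 e)
  rw [h2] at h3
  exact h3.symm

private theorem exists_ch {V : Type} [DecidableEq V] (par : V → V) (S P : Finset V) (hP : ∀ x ∈ P, ∃ y, y ∉ S ∧ par y = x) {n : ℕ}
    (hn : n ≤ P.card) : ∃ W : Finset V, W.card = n ∧ ∀ x ∈ W, x ∉ S ∧ par x ∈ P := by
  choose! c hc using hP
  obtain ⟨Q, hQ, hQn⟩ := exists_subset_card_eq hn
  refine ⟨Q.image c, ?_, ?_⟩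
  · rw [card_image_of_injOn, hQn]
    intro x hx y hy e
    have e1 := (hc x (hQ hx)).2
    have e2 := (hc y (hQ hy)).2
    rw [← e1, ← e2]
    exact congrArg par e
  · intro x hx
    obtain ⟨y, hy, rfl⟩ := mem_image.1 hx
    refine ⟨(hc y (hQ hy)).1, ?_⟩
    rw [(hc y (hQ hy)).2]
    exact hQ hy

/-- The table of block GU-3: class, parity, colour, label. -/
private def Tab (m t u t' u' b' y N : ℤ) (k e : ℕ) (c l : ℤ) : Prop :=
  (k = 0 ∧ e = 0 ∧ -m ≤ c ∧ c < m ∧ 21 * m ≤ l ∧ l < 27 * m) ∨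
  (k = 1 ∧ e = 0 ∧ -3 * m - t ≤ c ∧ c < -m - t ∧ -8 * m ≤ l ∧ l < -3 * m) ∨
  (k = 2 ∧ e = 0 ∧ 11 * m + t' + u' ≤ c ∧ c < y ∧ 12 * m + t' + u' + 1 ≤ l ∧ l < N + 9 * m - u - b') ∨
  (k = 3 ∧ e = 1 ∧ 20 * m ≤ c ∧ c < 28 * m ∧ 1 - 27 * m ≤ l ∧ l < -10 * m) ∨
  (k = 4 ∧ e = 1 ∧ 9 * m + t' ≤ c ∧ c < 11 * m + t' ∧ 1 - 8 * m ≤ l ∧ l < -3 * m) ∨
  (k = 5 ∧ e = 1 ∧ y ≤ c ∧ c < N - 3 * m - t - u ∧ 4 * m + t + u + 1 - N ≤ l ∧ l < 10 * m + t' - 1 - y) ∨
  (k = 6 ∧ e = 1 ∧ -3 * m - t - u ≤ c ∧ c < -3 * m - t ∧ 3 * m + t + 1 ≤ l ∧ l < 4 * m + t + u) ∨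
  (k = 7 ∧ e = 0 ∧ 11 * m + t' ≤ c ∧ c < 11 * m + t' + u' ∧ 11 * m + t' ≤ l ∧ l < 12 * m + t' + u') ∨
  (k = 8 ∧ e = 1 ∧ -m - t ≤ c ∧ c < -m ∧ m + 1 ≤ l ∧ l < t + 2 * m) ∨
  (k = 9 ∧ e = 0 ∧ m ≤ c ∧ c < 20 * m ∧ m ≤ l ∧ l < 21 * m - 1) ∨
  (k = 9 ∧ e = 0 ∧ 28 * m ≤ c ∧ c < 9 * m + t' ∧ 28 * m ≤ l ∧ l < 10 * m + t' - 1)

/-- The relations between the numbers. -/
private structure Num (m s t u t' u' b b' y N : ℤ) : Prop where
  m2 : 2 ≤ m
  s1 : 1 ≤ s
  sm : 2 * s ≤ m
  t40 : 40 * m ≤ t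
  t40' : 40 * m ≤ t'
  u0 : 0 ≤ u
  u0' : 0 ≤ u'
  bt : t ≤ b
  bt' : t' ≤ b'
  yy : y = 7 * m + t' + u' + b + s - 1
  NN : N = s - 1 + t + u + t' + u' + b + b'

private theorem tab_col {m s t u t' u' b b' y N : ℤ} (hn : Num m s t u t' u' b b' y N) {k e k' e' : ℕ} {c l c' l' : ℤ}
    (h : Tab m t u t' u' b' y N k e c l) (h' : Tab m t u t' u' b' y N k' e' c' l') (hk : k ≠ k') : c ≠ c' := by
  obtain ⟨h1, h2, h3, h4, h5, h6, h7, h8, h9, h10, h11⟩ := hn
  unfold Tab at h h'
  rcases h with h | h | h | h | h | h | h | h | h | h | h <;>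
  rcases h' with h' | h' | h' | h' | h' | h' | h' | h' | h' | h' | h' <;> omega

private theorem tab_lab {m s t u t' u' b b' y N : ℤ} (hn : Num m s t u t' u' b b' y N) {k e k' e' : ℕ} {c l c' l' : ℤ}
    (h : Tab m t u t' u' b' y N k e c l) (h' : Tab m t u t' u' b' y N k' e' c' l') (hk : k ≠ k') (he : e = e') : l ≠ l' := by
  obtain ⟨h1, h2, h3, h4, h5, h6, h7, h8, h9, h10, h11⟩ := hn
  unfold Tab at h h'
  rcases h with h | h | h | h | h | h | h | h | h | h | h <;>
  rcases h' with h' | h' | h' | h' | h' | h' | h' | h' | h' | h' | h' <;> omega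

private theorem tab_win {m s t u t' u' b b' y N : ℤ} (hn : Num m s t u t' u' b b' y N) {k e : ℕ} {c l : ℤ}
    (h : Tab m t u t' u' b' y N k e c l) : -3 * m - t - u ≤ c ∧ c < -3 * m - t - u + N ∧
      (e = 0 → -8 * m ≤ l ∧ l < -8 * m + N ∧ (l < 0 ∨ m ≤ l)) ∧
      (e = 1 → 4 * m + t + u + 1 - N ≤ l ∧ l < 4 * m + t + u + 1 - N + N ∧ (l < 0 ∨ m ≤ l)) := by
  obtain ⟨h1, h2, h3, h4, h5, h6, h7, h8, h9, h10, h11⟩ := hn
  unfold Tab at h
  rcases h with h | h | h | h | h | h | h | h | h | h | h <;> omega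

variable {V : Type} [Fintype V] [DecidableEq V] {T : SimpleGraph V} {r : V} {par : V → V} {dep : V → ℕ} {S : Finset V}

theorem diagE (h : Core T r par dep S) {N m : ℕ} (hN : Fintype.card V = N + 1) (hm : 2 * S.card ≤ m)
    (h1 : 40 * m ≤ (univ.filter fun x => x ∉ S ∧ ¬ Even (dep x) ∧ ∃ y, y ∉ S ∧ par y = x).card)
    (h2 : 40 * m ≤ (univ.filter fun x => x ∉ S ∧ Even (dep x) ∧ ∃ y, y ∉ S ∧ par y = x).card) :
    ∃ f : V → ZMod N, LabR r par dep univ f := by
  obtain ⟨hrt, hrS, hcl, htwo⟩ := h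
  have hf0 : LabR r par dep {r} (fun _ => (0 : ℤ)) := by
    refine ⟨?_, ?_⟩
    · intro x hx y hy _ _
      rw [mem_singleton] at hx hy
      rw [hx, hy]
    · intro x hx y _ hxr _ _
      rw [mem_singleton] at hx
      exact absurd hx hxr
  obtain ⟨f, hfr, hfs0, hf⟩ := extend_lab hrt (S0 := {r}) (S := S) (mem_singleton_self r)
    (fun x hx hxr => absurd (mem_singleton.1 hx) hxr) hcl (singleton_subset_iff.2 hrS) hm (fun _ => 0) (fun _ => 0) hf0
  have hScard : 0 < S.card := card_pos.2 ⟨r, hrS⟩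
  have hfS : ∀ x ∈ S, 0 ≤ f x ∧ f x < m := by
    intro x hx
    by_cases hxr : x = r
    · have e := hfr x (by rw [hxr]; exact mem_singleton_self r)
      omega
    · have e := hfs0 x hx (fun h' => hxr (mem_singleton.1 h'))
      omega
  have hne : ∀ x, x ∉ S → x ≠ r := fun x hx e => hx (e ▸ hrS)
  have hdp : ∀ x, x ∉ S → dep x = dep (par x) + 1 := fun x hx => hrt.dep_par x (hne x hx)
  -- the colours of the core
  obtain ⟨D, hD⟩ : ∃ D, D = (S.erase r).image (cl par dep f) := ⟨_, rfl⟩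
  have hDc : D.card + 1 = S.card := by
    rw [hD, card_image_of_injOn, card_erase_of_mem hrS]
    · omega
    · intro x hx y hy hxy
      rw [mem_coe, mem_erase] at hx hy
      exact hf.col x hx.2 y hy.2 hx.1 hy.1 hxy
  have hDb : ∀ z ∈ D, -(m : ℤ) < z ∧ z < m := by
    intro z hz
    rw [hD, mem_image] at hz
    obtain ⟨x, hx, rfl⟩ := hz
    rw [mem_erase] at hx
    have e1 := hfS x hx.2
    have e2 := hfS _ (hcl x hx.2 hx.1)
    unfold cl
    split_ifs <;> omega
  -- brooms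
  obtain ⟨U1, hU1⟩ : ∃ U1, U1 = (univ.filter fun x => x ∉ S ∧ ¬ Even (dep x) ∧ ∃ y, y ∉ S ∧ par y = x) := ⟨_, rfl⟩
  obtain ⟨R1, hR1⟩ : ∃ R1, R1 = (univ.filter fun x => x ∉ S ∧ Even (dep x) ∧ ∃ y, y ∉ S ∧ par y = x) := ⟨_, rfl⟩
  rw [← hU1] at h1
  rw [← hR1] at h2
  have mU : ∀ x, x ∈ U1 ↔ x ∉ S ∧ dep x % 2 = 1 ∧ ∃ y, y ∉ S ∧ par y = x := by
    intro x
    rw [hU1, mem_filter, Nat.not_even_iff]
    simp
  have mR : ∀ x, x ∈ R1 ↔ x ∉ S ∧ dep x % 2 = 0 ∧ ∃ y, y ∉ S ∧ par y = x := by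
    intro x
    rw [hR1, mem_filter, Nat.even_iff]
    simp
  clear hU1 hR1
  have hbr : ∀ x, x ∉ S → (∃ y, y ∉ S ∧ par y = x) → par x ∈ S := by
    rintro x hx ⟨y, hy, rfl⟩
    exact htwo y hy hx
  have hpU : ∀ x ∈ U1, par x ∈ S := fun x hx => hbr x ((mU x).1 hx).1 ((mU x).1 hx).2.2
  have hpR : ∀ x ∈ R1, par x ∈ S := fun x hx => hbr x ((mR x).1 hx).1 ((mR x).1 hx).2.2
  obtain ⟨t, ht⟩ : ∃ t : ℤ, t = U1.card := ⟨_, rfl⟩
  obtain ⟨t', ht'⟩ : ∃ t' : ℤ, t' = R1.card := ⟨_, rfl⟩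
  obtain ⟨M, hM⟩ : ∃ M : ℤ, M = m := ⟨_, rfl⟩
  have hM2 : 2 ≤ M := by omega
  have ht40 : 40 * M ≤ t := by omega
  have ht40' : 40 * M ≤ t' := by omega
  rw [← hM] at hDb hfS
  -- first round
  have cU : (Ico (-M - t) (-M)).card = U1.card := by
    rw [Int.card_Ico]
    omega
  have cR : (Ico M (20 * M) ∪ Ico (28 * M) (9 * M + t')).card = R1.card := by
    rw [card_union_of_disjoint, Int.card_Ico, Int.card_Ico]
    · omega
    · rw [disjoint_left]
      intro z hz hz'
      rw [mem_Ico] at hz hz'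
      omega
  obtain ⟨wU, hwU, hwUi, hwUm⟩ := arc_assign U1 (fun x => f (par x)) _ cU
  obtain ⟨wR, hwR, hwRi, hwRm⟩ := arc_assign R1 (fun x => - f (par x)) _ cR
  obtain ⟨W1, hW1c, hW1⟩ := exists_ch par S (U1.filter fun x => wU x ∈ Ico (-25 * M) (-22 * M + 1))
    (fun x hx => ((mU x).1 (mem_filter.1 hx).1).2.2) (n := 2 * m - (S.card - 1)) (by
      rw [card_fil hwU hwUi cU, Int.card_Ico]
      · omega
      · intro z hz
        rw [mem_Ico] at hz ⊢
        omega)
  obtain ⟨W2, hW2c, hW2⟩ := exists_ch par S (U1.filter fun x => wU x ∈ Ico (3 * M - t) (5 * M - t + 1))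
    (fun x hx => ((mU x).1 (mem_filter.1 hx).1).2.2) (n := 2 * m) (by
      rw [card_fil hwU hwUi cU, Int.card_Ico]
      · omega
      · intro z hz
        rw [mem_Ico] at hz ⊢
        omega)
  obtain ⟨W3, hW3c, hW3⟩ := exists_ch par S (R1.filter fun x => wR x ∈ Ico M (9 * M))
    (fun x hx => ((mR x).1 (mem_filter.1 hx).1).2.2) (n := 8 * m) (by
      rw [card_fil hwR hwRi cR, Int.card_Ico]
      · omega
      · intro z hz
        rw [mem_union, mem_Ico, mem_Ico]
        rw [mem_Ico] at hz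
        omega)
  obtain ⟨W4, hW4c, hW4⟩ := exists_ch par S (R1.filter fun x => wR x ∈ Ico (t' + 3 * M) (t' + 5 * M + 1))
    (fun x hx => ((mR x).1 (mem_filter.1 hx).1).2.2) (n := 2 * m) (by
      rw [card_fil hwR hwRi cR, Int.card_Ico]
      · omega
      · intro z hz
        rw [mem_union, mem_Ico, mem_Ico]
        rw [mem_Ico] at hz
        omega)
  have eW1 : ∀ x ∈ W1, x ∉ S ∧ dep x % 2 = 0 ∧ par x ∈ U1 ∧ -25 * M ≤ wU (par x) ∧ wU (par x) < -22 * M + 1 := by
    intro x hx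
    obtain ⟨e1, e2⟩ := hW1 x hx
    rw [mem_filter, mem_Ico] at e2
    have e3 := ((mU _).1 e2.1).2.1
    have e4 := hdp x e1
    exact ⟨e1, by omega, e2.1, e2.2.1, e2.2.2⟩
  have eW2 : ∀ x ∈ W2, x ∉ S ∧ dep x % 2 = 0 ∧ par x ∈ U1 ∧ 3 * M - t ≤ wU (par x) ∧ wU (par x) < 5 * M - t + 1 := by
    intro x hx
    obtain ⟨e1, e2⟩ := hW2 x hx
    rw [mem_filter, mem_Ico] at e2
    have e3 := ((mU _).1 e2.1).2.1
    have e4 := hdp x e1
    exact ⟨e1, by omega, e2.1, e2.2.1, e2.2.2⟩
  have eW3 : ∀ x ∈ W3, x ∉ S ∧ dep x % 2 = 1 ∧ par x ∈ R1 ∧ M ≤ wR (par x) ∧ wR (par x) < 9 * M := by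
    intro x hx
    obtain ⟨e1, e2⟩ := hW3 x hx
    rw [mem_filter, mem_Ico] at e2
    have e3 := ((mR _).1 e2.1).2.1
    have e4 := hdp x e1
    exact ⟨e1, by omega, e2.1, e2.2.1, e2.2.2⟩
  have eW4 : ∀ x ∈ W4, x ∉ S ∧ dep x % 2 = 1 ∧ par x ∈ R1 ∧ t' + 3 * M ≤ wR (par x) ∧ wR (par x) < t' + 5 * M + 1 := by
    intro x hx
    obtain ⟨e1, e2⟩ := hW4 x hx
    rw [mem_filter, mem_Ico] at e2
    have e3 := ((mR _).1 e2.1).2.1
    have e4 := hdp x e1
    exact ⟨e1, by omega, e2.1, e2.2.1, e2.2.2⟩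
  clear hW1 hW2 hW3 hW4
  have hUS : ∀ x ∈ U1, x ∉ S := fun x hx => ((mU x).1 hx).1
  have hRS : ∀ x ∈ R1, x ∉ S := fun x hx => ((mR x).1 hx).1
  -- the classes
  obtain ⟨k, hk⟩ : ∃ k : V → ℕ, ∀ x, k x = if x ∈ S then 10 else if par x ∈ S then
      (if ∃ y, y ∉ S ∧ par y = x then (if dep x % 2 = 0 then 9 else 8) else (if dep x % 2 = 0 then 7 else 6))
      else if dep x % 2 = 0 then (if x ∈ W1 then 0 else if x ∈ W2 then 1 else 2)
      else (if x ∈ W3 then 3 else if x ∈ W4 then 4 else 5) := ⟨_, fun _ => rfl⟩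
  have kc : ∀ x, x ∉ S → (k x = 0 ∧ dep x % 2 = 0 ∧ par x ∉ S ∧ x ∈ W1) ∨ (k x = 1 ∧ dep x % 2 = 0 ∧ par x ∉ S ∧ x ∈ W2) ∨
      (k x = 2 ∧ dep x % 2 = 0 ∧ par x ∉ S ∧ x ∉ W1 ∧ x ∉ W2) ∨ (k x = 3 ∧ dep x % 2 = 1 ∧ par x ∉ S ∧ x ∈ W3) ∨
      (k x = 4 ∧ dep x % 2 = 1 ∧ par x ∉ S ∧ x ∈ W4) ∨ (k x = 5 ∧ dep x % 2 = 1 ∧ par x ∉ S ∧ x ∉ W3 ∧ x ∉ W4) ∨
      (k x = 6 ∧ dep x % 2 = 1 ∧ par x ∈ S ∧ ¬ ∃ y, y ∉ S ∧ par y = x) ∨
      (k x = 7 ∧ dep x % 2 = 0 ∧ par x ∈ S ∧ ¬ ∃ y, y ∉ S ∧ par y = x) ∨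
      (k x = 8 ∧ dep x % 2 = 1 ∧ par x ∈ S ∧ x ∈ U1) ∨ (k x = 9 ∧ dep x % 2 = 0 ∧ par x ∈ S ∧ x ∈ R1) := by
    intro x hx
    rw [hk x, if_neg hx]
    have mUx := mU x
    have mRx := mR x
    by_cases a1 : par x ∈ S
    · rw [if_pos a1]
      by_cases a2 : ∃ y, y ∉ S ∧ par y = x
      · rw [if_pos a2]
        by_cases a3 : dep x % 2 = 0
        · rw [if_pos a3]
          exact Or.inr (Or.inr (Or.inr (Or.inr (Or.inr (Or.inr (Or.inr (Or.inr (Or.inr ⟨rfl, a3, a1, mRx.2 ⟨hx, a3, a2⟩⟩))))))))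
        · rw [if_neg a3]
          exact Or.inr (Or.inr (Or.inr (Or.inr (Or.inr (Or.inr (Or.inr (Or.inr (Or.inl
            ⟨rfl, by omega, a1, mUx.2 ⟨hx, by omega, a2⟩⟩))))))))
      · rw [if_neg a2]
        by_cases a3 : dep x % 2 = 0
        · rw [if_pos a3]
          exact Or.inr (Or.inr (Or.inr (Or.inr (Or.inr (Or.inr (Or.inr (Or.inl ⟨rfl, a3, a1, a2⟩)))))))
        · rw [if_neg a3]
          exact Or.inr (Or.inr (Or.inr (Or.inr (Or.inr (Or.inr (Or.inl ⟨rfl, by omega, a1, a2⟩))))))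
    · rw [if_neg a1]
      by_cases a3 : dep x % 2 = 0
      · rw [if_pos a3]
        by_cases a4 : x ∈ W1
        · rw [if_pos a4]
          exact Or.inl ⟨rfl, a3, a1, a4⟩
        · rw [if_neg a4]
          by_cases a5 : x ∈ W2
          · rw [if_pos a5]
            exact Or.inr (Or.inl ⟨rfl, a3, a1, a5⟩)
          · rw [if_neg a5]
            exact Or.inr (Or.inr (Or.inl ⟨rfl, a3, a1, a4, a5⟩))
      · rw [if_neg a3]
        by_cases a4 : x ∈ W3
        · rw [if_pos a4]
          exact Or.inr (Or.inr (Or.inr (Or.inl ⟨rfl, by omega, a1, a4⟩)))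
        · rw [if_neg a4]
          by_cases a5 : x ∈ W4
          · rw [if_pos a5]
            exact Or.inr (Or.inr (Or.inr (Or.inr (Or.inl ⟨rfl, by omega, a1, a5⟩))))
          · rw [if_neg a5]
            exact Or.inr (Or.inr (Or.inr (Or.inr (Or.inr (Or.inl ⟨rfl, by omega, a1, a4, a5⟩)))))
  have kS : ∀ x, x ∈ S ↔ k x = 10 := by
    intro x
    constructor
    · intro hx
      rw [hk x, if_pos hx]
    · intro hx
      by_contra hxS
      rcases kc x hxS with e | e | e | e | e | e | e | e | e | e <;> omega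
  have k0 : ∀ x, x ∈ W1 ↔ k x = 0 := by
    intro x
    constructor
    · intro hx
      obtain ⟨e1, e2, e3, e4⟩ := eW1 x hx
      rw [hk x, if_neg e1, if_neg (hUS _ e3), if_pos e2, if_pos hx]
    · intro hx
      rcases kc x (fun hxS => by have := (kS x).1 hxS; omega) with e | e | e | e | e | e | e | e | e | e
      · exact e.2.2.2
      all_goals omega
  have k1 : ∀ x, x ∈ W2 ↔ k x = 1 := by
    intro x
    constructor
    · intro hx
      obtain ⟨e1, e2, e3, e4⟩ := eW2 x hx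
      rw [hk x, if_neg e1, if_neg (hUS _ e3), if_pos e2, if_neg (fun hx' => by have := eW1 x hx'; omega), if_pos hx]
    · intro hx
      rcases kc x (fun hxS => by have := (kS x).1 hxS; omega) with e | e | e | e | e | e | e | e | e | e
      · omega
      · exact e.2.2.2
      all_goals omega
  have k3 : ∀ x, x ∈ W3 ↔ k x = 3 := by
    intro x
    constructor
    · intro hx
      obtain ⟨e1, e2, e3, e4⟩ := eW3 x hx
      rw [hk x, if_neg e1, if_neg (hRS _ e3), if_neg (by omega), if_pos hx]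
    · intro hx
      rcases kc x (fun hxS => by have := (kS x).1 hxS; omega) with e | e | e | e | e | e | e | e | e | e
      · omega
      · omega
      · omega
      · exact e.2.2.2
      all_goals omega
  have k4 : ∀ x, x ∈ W4 ↔ k x = 4 := by
    intro x
    constructor
    · intro hx
      obtain ⟨e1, e2, e3, e4⟩ := eW4 x hx
      rw [hk x, if_neg e1, if_neg (hRS _ e3), if_neg (by omega), if_neg (fun hx' => by have := eW3 x hx'; omega), if_pos hx]
    · intro hx
      rcases kc x (fun hxS => by have := (kS x).1 hxS; omega) with e | e | e | e | e | e | e | e | e | e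
      · omega
      · omega
      · omega
      · omega
      · exact e.2.2.2
      all_goals omega
  have k8 : ∀ x, x ∈ U1 ↔ k x = 8 := by
    intro x
    constructor
    · intro hx
      obtain ⟨e1, e2, e3⟩ := (mU x).1 hx
      rw [hk x, if_neg e1, if_pos (hbr x e1 e3), if_pos e3, if_neg (by omega)]
    · intro hx
      rcases kc x (fun hxS => by have := (kS x).1 hxS; omega) with e | e | e | e | e | e | e | e | e | e
      all_goals first | exact e.2.2.2 | omega
  have k9 : ∀ x, x ∈ R1 ↔ k x = 9 := by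
    intro x
    constructor
    · intro hx
      obtain ⟨e1, e2, e3⟩ := (mR x).1 hx
      rw [hk x, if_neg e1, if_pos (hbr x e1 e3), if_pos e3, if_pos e2]
    · intro hx
      rcases kc x (fun hxS => by have := (kS x).1 hxS; omega) with e | e | e | e | e | e | e | e | e | e
      all_goals first | exact e.2.2.2 | omega
  clear hk
  -- the numbers
  have cls : ∀ (X : Finset V) (i : ℕ), (∀ x, x ∈ X ↔ k x = i) → (univ.filter fun x => k x = i).card = X.card := by
    intro X i hX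
    congr 1
    ext x
    simp [hX x]
  have hsum : (univ : Finset V).card = ∑ i ∈ range 11, (univ.filter fun x => k x = i).card := by
    refine card_eq_sum_card_fiberwise (fun x _ => ?_)
    rw [mem_coe, mem_range]
    by_cases hx : x ∈ S
    · have := (kS x).1 hx
      omega
    · rcases kc x hx with e | e | e | e | e | e | e | e | e | e <;> omega
  simp only [sum_range_succ, sum_range_zero] at hsum
  rw [card_univ, hN, cls W1 0 k0, cls W2 1 k1, cls W3 3 k3, cls W4 4 k4, cls U1 8 k8, cls R1 9 k9, cls S 10 kS, hW1c, hW2c,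
    hW3c, hW4c] at hsum
  obtain ⟨u, hu⟩ : ∃ u : ℤ, u = (univ.filter fun x => k x = 6).card := ⟨_, rfl⟩
  obtain ⟨u', hu'⟩ : ∃ u' : ℤ, u' = (univ.filter fun x => k x = 7).card := ⟨_, rfl⟩
  obtain ⟨b, hb⟩ : ∃ b : ℤ, b = (univ.filter fun x => k x = 2).card + 4 * M - S.card + 1 := ⟨_, rfl⟩
  obtain ⟨b', hb'⟩ : ∃ b' : ℤ, b' = (univ.filter fun x => k x = 5).card + 10 * M := ⟨_, rfl⟩
  obtain ⟨y, hy⟩ : ∃ y : ℤ, y = 7 * M + t' + u' + b + S.card - 1 := ⟨_, rfl⟩
  have hbt : t ≤ b := by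
    have e1 : U1 ⊆ (W1 ∪ W2 ∪ univ.filter fun x => k x = 2).image par := by
      intro x hx
      obtain ⟨e1, e2, z, e3, e4⟩ := (mU x).1 hx
      rw [mem_image]
      refine ⟨z, ?_, e4⟩
      have e5 := hdp z e3
      rw [e4] at e5
      rw [mem_union, mem_union, mem_filter]
      rcases kc z e3 with e | e | e | e | e | e | e | e | e | e
      · exact Or.inl (Or.inl e.2.2.2)
      · exact Or.inl (Or.inr e.2.2.2)
      · exact Or.inr ⟨mem_univ z, e.1⟩
      · omega
      · omega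
      · omega
      · exact absurd (e4 ▸ e.2.2.1) e1
      · exact absurd (e4 ▸ e.2.2.1) e1
      · exact absurd (e4 ▸ e.2.2.1) e1
      · exact absurd (e4 ▸ e.2.2.1) e1
    have e2 := card_le_card e1
    have e3 : ((W1 ∪ W2 ∪ univ.filter fun x => k x = 2).image par).card ≤ (W1 ∪ W2 ∪ univ.filter fun x => k x = 2).card :=
      card_image_le
    have e4 := card_union_le (W1 ∪ W2) (univ.filter fun x => k x = 2)
    have e5 := card_union_le W1 W2
    omega
  have hbt' : t' ≤ b' := by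
    have e1 : R1 ⊆ (W3 ∪ W4 ∪ univ.filter fun x => k x = 5).image par := by
      intro x hx
      obtain ⟨e1, e2, z, e3, e4⟩ := (mR x).1 hx
      rw [mem_image]
      refine ⟨z, ?_, e4⟩
      have e5 := hdp z e3
      rw [e4] at e5
      rw [mem_union, mem_union, mem_filter]
      rcases kc z e3 with e | e | e | e | e | e | e | e | e | e
      · omega
      · omega
      · omega
      · exact Or.inl (Or.inl e.2.2.2)
      · exact Or.inl (Or.inr e.2.2.2)
      · exact Or.inr ⟨mem_univ z, e.1⟩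
      · exact absurd (e4 ▸ e.2.2.1) e1
      · exact absurd (e4 ▸ e.2.2.1) e1
      · exact absurd (e4 ▸ e.2.2.1) e1
      · exact absurd (e4 ▸ e.2.2.1) e1
    have e2 := card_le_card e1
    have e3 : ((W3 ∪ W4 ∪ univ.filter fun x => k x = 5).image par).card ≤ (W3 ∪ W4 ∪ univ.filter fun x => k x = 5).card :=
      card_image_le
    have e4 := card_union_le (W3 ∪ W4) (univ.filter fun x => k x = 5)
    have e5 := card_union_le W3 W4
    omega
  have hnum : Num M S.card t u t' u' b b' y N :=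
    ⟨hM2, by omega, by omega, ht40, ht40', by omega, by omega, hbt, hbt', hy, by omega⟩
  -- second round
  obtain ⟨g1, hg1⟩ : ∃ g1 : V → ℤ, ∀ x, g1 x = if x ∈ S then f x else if dep x % 2 = 0 then f (par x) + wR x
      else f (par x) - wU x := ⟨_, fun _ => rfl⟩
  have g1S : ∀ x ∈ S, g1 x = f x := fun x hx => by rw [hg1, if_pos hx]
  have g1U : ∀ x ∈ U1, g1 x = f (par x) - wU x := fun x hx => by
    rw [hg1, if_neg (hUS x hx), if_neg (by have := ((mU x).1 hx).2.1; omega)]
  have g1R : ∀ x ∈ R1, g1 x = f (par x) + wR x := fun x hx => by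
    rw [hg1, if_neg (hRS x hx), if_pos (by have := ((mR x).1 hx).2.1; omega)]
  let C : ℕ → Finset ℤ := fun i => if i = 0 then Ico (-M) M \ D else if i = 1 then Ico (-3 * M - t) (-M - t)
    else if i = 2 then Ico (11 * M + t' + u') y else if i = 3 then Ico (20 * M) (28 * M)
    else if i = 4 then Ico (9 * M + t') (11 * M + t') else if i = 5 then Ico y (N - 3 * M - t - u)
    else if i = 6 then Ico (-3 * M - t - u) (-3 * M - t) else Ico (11 * M + t') (11 * M + t' + u')
  have hC0 : (C 0).card = 2 * m - (S.card - 1) := by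
    have e1 : (C 0).card = (Ico (-M) M \ D).card := by simp [C]
    have e2 : D ⊆ Ico (-M) M := by
      intro z hz
      have := hDb z hz
      rw [mem_Ico]
      omega
    rw [e1, card_sdiff_of_subset e2, Int.card_Ico]
    omega
  obtain ⟨w2, hw2, hw2i, hw2m⟩ := arc_classes (univ.filter fun x => k x ≤ 7) k
    (fun x => if dep x % 2 = 0 then - g1 (par x) else g1 (par x)) C (by
      intro x hx
      rw [mem_filter] at hx
      have e1 : ((univ.filter fun x => k x ≤ 7).filter fun y => k y = k x) = univ.filter fun y => k y = k x := by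
        ext z
        simp only [mem_filter, mem_univ, true_and]
        constructor
        · exact fun h' => h'.2
        · intro h'
          exact ⟨by omega, h'⟩
      rw [e1]
      have e2 := hx.2
      generalize k x = i at e2
      interval_cases i
      · rw [cls W1 0 k0, hC0, hW1c]
      · rw [cls W2 1 k1, hW2c]
        simp only [C, Nat.reduceEqDiff, if_true, if_false, Int.card_Ico]
        omega
      · simp only [C, Nat.reduceEqDiff, if_true, if_false, Int.card_Ico]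
        omega
      · rw [cls W3 3 k3, hW3c]
        simp only [C, Nat.reduceEqDiff, if_true, if_false, Int.card_Ico]
        omega
      · rw [cls W4 4 k4, hW4c]
        simp only [C, Nat.reduceEqDiff, if_true, if_false, Int.card_Ico]
        omega
      · simp only [C, Nat.reduceEqDiff, if_true, if_false, Int.card_Ico]
        omega
      · simp only [C, Nat.reduceEqDiff, if_true, if_false, Int.card_Ico]
        omega
      · simp only [C, Nat.reduceEqDiff, if_true, if_false, Int.card_Ico]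
        omega)
  -- the final labelling
  obtain ⟨w, hw⟩ : ∃ w : V → ℤ, ∀ x, w x = if k x = 8 then wU x else if k x = 9 then wR x else w2 x := ⟨_, fun _ => rfl⟩
  obtain ⟨g, hg⟩ : ∃ g : V → ℤ, ∀ x, g x = if x ∈ S then f x else if dep x % 2 = 0 then g1 (par x) + w x
      else g1 (par x) - w x := ⟨_, fun _ => rfl⟩
  have gS : ∀ x ∈ S, g x = f x := fun x hx => by rw [hg, if_pos hx]
  have gE : ∀ x, x ∉ S → dep x % 2 = 0 → g x = g1 (par x) + w x := fun x hx he => by rw [hg, if_neg hx, if_pos he]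
  have gO : ∀ x, x ∉ S → dep x % 2 = 1 → g x = g1 (par x) - w x := fun x hx he => by rw [hg, if_neg hx, if_neg (by omega)]
  have gpar : ∀ x, x ∉ S → g (par x) = g1 (par x) := by
    intro x hx
    by_cases hp : par x ∈ S
    · rw [gS _ hp, g1S _ hp]
    · have hpp := htwo x hx hp
      by_cases he : dep (par x) % 2 = 0
      · have e1 : par x ∈ R1 := (mR _).2 ⟨hp, he, x, hx, rfl⟩
        have e2 := (k9 _).1 e1
        rw [g1R _ e1, gE _ hp he, g1S _ hpp, hw, if_neg (by omega), if_pos e2]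
      · have e1 : par x ∈ U1 := (mU _).2 ⟨hp, by omega, x, hx, rfl⟩
        have e2 := (k8 _).1 e1
        rw [g1U _ e1, gO _ hp (by omega), g1S _ hpp, hw, if_pos e2]
  have hcl' : ∀ x, x ∉ S → cl par dep g x = w x := by
    intro x hx
    unfold cl
    rw [gpar x hx]
    by_cases he : Even (dep x)
    · rw [if_pos he, gE x hx (Nat.even_iff.1 he)]
      ring
    · rw [if_neg he, gO x hx (Nat.not_even_iff.1 he)]
      ring
  have hclS : ∀ x ∈ S, x ≠ r → cl par dep g x = cl par dep f x := by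
    intro x hx hxr
    unfold cl
    rw [gS x hx, gS _ (hcl x hx hxr)]
  have hclD : ∀ x ∈ S, x ≠ r → cl par dep g x ∈ D := by
    intro x hx hxr
    rw [hclS x hx hxr, hD, mem_image]
    exact ⟨x, mem_erase.2 ⟨hxr, hx⟩, rfl⟩
  have hwC : ∀ x, k x ≤ 7 → w x ∈ C (k x) := by
    intro x hx
    rw [hw, if_neg (by omega), if_neg (by omega)]
    exact hw2 x (mem_filter.2 ⟨mem_univ x, hx⟩)
  have hw8 : ∀ x ∈ U1, -M - t ≤ w x ∧ w x < -M := by
    intro x hx
    have e := hwU x hx
    rw [mem_Ico] at e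
    rw [hw, if_pos ((k8 x).1 hx)]
    exact e
  have hw9 : ∀ x ∈ R1, (M ≤ w x ∧ w x < 20 * M) ∨ (28 * M ≤ w x ∧ w x < 9 * M + t') := by
    intro x hx
    have e := hwR x hx
    rw [mem_union, mem_Ico, mem_Ico] at e
    have e2 := (k9 x).1 hx
    rw [hw, if_neg (by omega), if_pos e2]
    exact e
  -- the table
  have tab : ∀ x, x ∉ S → Tab M t u t' u' b' y N (k x) (dep x % 2) (w x) (g x) := by
    intro x hx
    have hw2x := hwC x
    unfold Tab
    rcases kc x hx with e | e | e | e | e | e | e | e | e | e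
    · have c := hw2x (by omega)
      rw [e.1] at c
      simp only [C, if_true, mem_sdiff, mem_Ico] at c
      obtain ⟨e1, e2, e3, e4⟩ := eW1 x e.2.2.2
      have e5 := gE x hx e.2.1
      have e6 := g1U _ e3
      have e7 := hfS _ (hpU _ e3)
      refine Or.inl ⟨e.1, e.2.1, ?_, ?_, ?_, ?_⟩ <;> omega
    · have c := hw2x (by omega)
      rw [e.1] at c
      simp only [C, Nat.reduceEqDiff, if_true, if_false, mem_Ico] at c
      obtain ⟨e1, e2, e3, e4⟩ := eW2 x e.2.2.2
      have e5 := gE x hx e.2.1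
      have e6 := g1U _ e3
      have e7 := hfS _ (hpU _ e3)
      refine Or.inr (Or.inl ⟨e.1, e.2.1, ?_, ?_, ?_, ?_⟩) <;> omega
    · have c := hw2x (by omega)
      rw [e.1] at c
      simp only [C, Nat.reduceEqDiff, if_true, if_false, mem_Ico] at c
      have e8 := hdp x hx
      have e3 : par x ∈ U1 := (mU _).2 ⟨e.2.2.1, by omega, x, hx, rfl⟩
      have e4 := hwU _ e3
      rw [mem_Ico] at e4
      have e5 := gE x hx e.2.1
      have e6 := g1U _ e3
      have e7 := hfS _ (hpU _ e3)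
      have e9 := hnum.NN
      have e10 := hnum.yy
      refine Or.inr (Or.inr (Or.inl ⟨e.1, e.2.1, ?_, ?_, ?_, ?_⟩)) <;> omega
    · have c := hw2x (by omega)
      rw [e.1] at c
      simp only [C, Nat.reduceEqDiff, if_true, if_false, mem_Ico] at c
      obtain ⟨e1, e2, e3, e4⟩ := eW3 x e.2.2.2
      have e5 := gO x hx e.2.1
      have e6 := g1R _ e3
      have e7 := hfS _ (hpR _ e3)
      refine Or.inr (Or.inr (Or.inr (Or.inl ⟨e.1, e.2.1, ?_, ?_, ?_, ?_⟩))) <;> omega
    · have c := hw2x (by omega)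
      rw [e.1] at c
      simp only [C, Nat.reduceEqDiff, if_true, if_false, mem_Ico] at c
      obtain ⟨e1, e2, e3, e4⟩ := eW4 x e.2.2.2
      have e5 := gO x hx e.2.1
      have e6 := g1R _ e3
      have e7 := hfS _ (hpR _ e3)
      refine Or.inr (Or.inr (Or.inr (Or.inr (Or.inl ⟨e.1, e.2.1, ?_, ?_, ?_, ?_⟩)))) <;> omega
    · have c := hw2x (by omega)
      rw [e.1] at c
      simp only [C, Nat.reduceEqDiff, if_true, if_false, mem_Ico] at c
      have e8 := hdp x hx
      have e3 : par x ∈ R1 := (mR _).2 ⟨e.2.2.1, by omega, x, hx, rfl⟩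
      have e4 := hwR _ e3
      rw [mem_union, mem_Ico, mem_Ico] at e4
      have e5 := gO x hx e.2.1
      have e6 := g1R _ e3
      have e7 := hfS _ (hpR _ e3)
      refine Or.inr (Or.inr (Or.inr (Or.inr (Or.inr (Or.inl ⟨e.1, e.2.1, ?_, ?_, ?_, ?_⟩))))) <;> omega
    · have c := hw2x (by omega)
      rw [e.1] at c
      simp only [C, Nat.reduceEqDiff, if_true, if_false, mem_Ico] at c
      have e5 := gO x hx e.2.1
      have e6 := g1S _ e.2.2.1
      have e7 := hfS _ e.2.2.1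
      refine Or.inr (Or.inr (Or.inr (Or.inr (Or.inr (Or.inr (Or.inl ⟨e.1, e.2.1, ?_, ?_, ?_, ?_⟩)))))) <;> omega
    · have c := hw2x (by omega)
      rw [e.1] at c
      simp only [C, Nat.reduceEqDiff, if_false, mem_Ico] at c
      have e5 := gE x hx e.2.1
      have e6 := g1S _ e.2.2.1
      have e7 := hfS _ e.2.2.1
      refine Or.inr (Or.inr (Or.inr (Or.inr (Or.inr (Or.inr (Or.inr (Or.inl ⟨e.1, e.2.1, ?_, ?_, ?_, ?_⟩))))))) <;> omega
    · have c := hw8 x e.2.2.2
      have e5 := gO x hx e.2.1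
      have e6 := g1S _ e.2.2.1
      have e7 := hfS _ e.2.2.1
      refine Or.inr (Or.inr (Or.inr (Or.inr (Or.inr (Or.inr (Or.inr (Or.inr (Or.inl ⟨e.1, e.2.1, ?_, ?_, ?_, ?_⟩)))))))) <;> omega
    · have e5 := gE x hx e.2.1
      have e6 := g1S _ e.2.2.1
      have e7 := hfS _ e.2.2.1
      rcases hw9 x e.2.2.2 with c | c
      · refine Or.inr (Or.inr (Or.inr (Or.inr (Or.inr (Or.inr (Or.inr (Or.inr (Or.inr (Or.inl
          ⟨e.1, e.2.1, ?_, ?_, ?_, ?_⟩))))))))) <;> omega
      · refine Or.inr (Or.inr (Or.inr (Or.inr (Or.inr (Or.inr (Or.inr (Or.inr (Or.inr (Or.inr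
          ⟨e.1, e.2.1, ?_, ?_, ?_, ?_⟩))))))))) <;> omega
  -- the same class
  have hpar2 : ∀ x, x ∉ S → ∀ z, z ∉ S → k x = k z → dep x % 2 = dep z % 2 := by
    intro x hx z hz e
    rcases kc x hx with a | a | a | a | a | a | a | a | a | a <;>
    rcases kc z hz with b | b | b | b | b | b | b | b | b | b <;> omega
  have same : ∀ x, x ∉ S → ∀ z, z ∉ S → k x = k z → (w x = w z → x = z) ∧ (w x < w z → g x ≠ g z) := by
    intro x hx z hz e
    have hp := hpar2 x hx z hz e
    by_cases h7 : k x ≤ 7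
    · have e1 : w x = w2 x := by rw [hw, if_neg (by omega), if_neg (by omega)]
      have e2 : w z = w2 z := by rw [hw, if_neg (by omega), if_neg (by omega)]
      have e3 := hw2i x (mem_filter.2 ⟨mem_univ x, h7⟩) z (mem_filter.2 ⟨mem_univ z, by omega⟩) e
      have e4 := hw2m x (mem_filter.2 ⟨mem_univ x, h7⟩) z (mem_filter.2 ⟨mem_univ z, by omega⟩) e
      rw [← e1, ← e2] at e3 e4
      refine ⟨e3, fun hlt => ?_⟩
      have e5 := e4 hlt
      by_cases he : dep x % 2 = 0
      · rw [if_pos he, if_pos (by omega)] at e5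
        rw [gE x hx he, gE z hz (by omega)]
        omega
      · rw [if_neg he, if_neg (by omega)] at e5
        rw [gO x hx (by omega), gO z hz (by omega)]
        omega
    · by_cases h8 : k x = 8
      · have a1 : x ∈ U1 := (k8 x).2 h8
        have a2 : z ∈ U1 := (k8 z).2 (by omega)
        have e1 : w x = wU x := by rw [hw, if_pos h8]
        have e2 : w z = wU z := by rw [hw, if_pos (by omega)]
        rw [e1, e2]
        refine ⟨hwUi x a1 z a2, fun hlt => ?_⟩
        have e5 := hwUm x a1 z a2 hlt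
        rw [gO x hx ((mU x).1 a1).2.1, gO z hz ((mU z).1 a2).2.1, g1S _ (hpU x a1), g1S _ (hpU z a2), e1, e2]
        omega
      · have h9 : k x = 9 := by
          rcases kc x hx with a | a | a | a | a | a | a | a | a | a <;> omega
        have a1 : x ∈ R1 := (k9 x).2 h9
        have a2 : z ∈ R1 := (k9 z).2 (by omega)
        have e1 : w x = wR x := by rw [hw, if_neg (by omega), if_pos h9]
        have e2 : w z = wR z := by rw [hw, if_neg (by omega), if_pos (by omega)]
        rw [e1, e2]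
        refine ⟨hwRi x a1 z a2, fun hlt => ?_⟩
        have e5 := hwRm x a1 z a2 hlt
        rw [gE x hx ((mR x).1 a1).2.1, gE z hz ((mR z).1 a2).2.1, g1S _ (hpR x a1), g1S _ (hpR z a2), e1, e2]
        omega
  have samel : ∀ x, x ∉ S → ∀ z, z ∉ S → k x = k z → g x = g z → x = z := by
    intro x hx z hz e hgg
    rcases lt_trichotomy (w x) (w z) with hlt | heq | hlt
    · exact absurd hgg ((same x hx z hz e).2 hlt)
    · exact (same x hx z hz e).1 heq
    · exact absurd hgg.symm ((same z hz x hx e.symm).2 hlt)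
  -- the labelling is good
  have key : ∀ x ∈ S, ∀ z, z ∉ S → (Even (dep x) ↔ Even (dep z)) → g x ≠ g z := by
    intro x hx z hz hev e
    have e1 := (tab_win hnum (tab z hz)).2.2
    rw [gS x hx] at e
    have e2 := hfS x hx
    rcases Nat.mod_two_eq_zero_or_one (dep z) with h' | h'
    · have := e1.1 h'
      omega
    · have := e1.2 h'
      omega
  have keyc : ∀ x ∈ S, x ≠ r → ∀ z, z ∉ S → cl par dep g x ≠ cl par dep g z := by
    intro x hx hxr z hz e
    have e1 := hclD x hx hxr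
    rw [e, hcl' z hz] at e1
    have e2 := hDb _ e1
    have e3 := tab z hz
    have e4 := hnum.bt
    rcases kc z hz with a | a | a | a | a | a | a | a | a | a
    · have c := hwC z (by omega)
      rw [a.1] at c
      simp only [C, if_true, mem_sdiff] at c
      exact c.2 e1
    all_goals
      unfold Tab at e3
      have e5 := hnum.yy
      omega
  have hlab : LabR r par dep univ g := by
    refine ⟨?_, ?_⟩
    · intro x _ z _ hev e
      by_cases hx : x ∈ S <;> by_cases hz : z ∈ S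
      · rw [gS x hx, gS z hz] at e
        exact hf.inj x hx z hz hev e
      · exact absurd e (key x hx z hz hev)
      · exact absurd e.symm (key z hz x hx hev.symm)
      · by_cases hkk : k x = k z
        · exact samel x hx z hz hkk e
        · refine absurd e (tab_lab hnum (tab x hx) (tab z hz) hkk ?_)
          rw [Nat.even_iff, Nat.even_iff] at hev
          omega
    · intro x _ z _ hxr hzr e
      by_cases hx : x ∈ S <;> by_cases hz : z ∈ S
      · rw [hclS x hx hxr, hclS z hz hzr] at e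
        exact hf.col x hx z hz hxr hzr e
      · exact absurd e (keyc x hx hxr z hz)
      · exact absurd e.symm (keyc z hz hzr x hx)
      · rw [hcl' x hx, hcl' z hz] at e
        by_cases hkk : k x = k z
        · exact (same x hx z hz hkk).1 e
        · exact absurd e (tab_col hnum (tab x hx) (tab z hz) hkk)
  have hN1 := hnum.NN
  have hb1 := hnum.bt
  have hb2 := hnum.bt'
  have hu1 := hnum.u0
  have hu2 := hnum.u0'
  refine ⟨_, labR_cast (N := N) (a := -8 * M) (b := 4 * M + t + u + 1 - N) (c := -3 * M - t - u) hlab ?_ ?_ ?_⟩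
  · intro x _ he
    by_cases hx : x ∈ S
    · rw [gS x hx]
      have := hfS x hx
      omega
    · have e1 := (tab_win hnum (tab x hx)).2.2.1 (Nat.even_iff.1 he)
      exact ⟨e1.1, e1.2.1⟩
  · intro x _ he
    by_cases hx : x ∈ S
    · rw [gS x hx]
      have := hfS x hx
      omega
    · have e1 := (tab_win hnum (tab x hx)).2.2.2 (Nat.not_even_iff.1 he)
      exact ⟨e1.1, e1.2.1⟩
  · intro x _ hxr
    by_cases hx : x ∈ S
    · have := hDb _ (hclD x hx hxr)
      omega
    · rw [hcl' x hx]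
      have e1 := tab_win hnum (tab x hx)
      exact ⟨e1.1, e1.2.1⟩

end Pool.Agent.Helper1.GU
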