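import Pool.Agent.Helper1.GU.DiagD

/-!
BLOCK GU-7 (about 200 lines). Few column leaves, about half of the vertices are row leaves: almost all brooms have exactly one child.

Setting as in `TwoB`. `U0` = columns outside `S` without child outside `S`, `|U0| ≤ 15 m`; `RL` = rows outside `S`, `2 |RL| < n + 42 m`; brooms: `t = t1 + t2`, `t1` with exactly one child, `t2` with at least two; `Wc` = rows outside `S` with parent in `S`; the other rows outside `S` are the children of the brooms, `t1 + w2` of them, `w2 ≥ 2 t2`.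
Proof in words. New core `S' = S ∪ U0 ∪ Wc ∪ {brooms with at least two children} ∪ {their children}`.
* `|S'| ≤ 190 m`: `n + 1 = |S| + |U0| + t + |RL|` and `|S| ≤ m / 2` give `2 t ≥ n - 73 m`, so `2 (|Wc| + w2 - t2) = 2 (|RL| - t) ≤ 115 m`, `t2 ≤ 58 m`, `|Wc| + w2 ≤ 58 m + t2 ≤ 116 m`, `|S'| ≤ m/2 + 15 m + 116 m + 58 m`.
* `Core T r par dep S'`; outside `S'`: brooms `u` with exactly one child `x` (`par u ∈ S ⊆ S'`, `u` of odd depth, `x ∉ S'`) and these children. So the hypotheses of `diagD` hold: `hodd`, `hinj`, `hch`, `100 |S'| ≤ n` (`20000 m ≤ n`).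
* `decomposes_of_labR`.
-/

set_option autoImplicit false

namespace Pool.Agent.Helper1.GU

open Finset Pool.Agent.Helper19.GH Pool.Agent.Helper1.GN

variable {V : Type} [Fintype V] [DecidableEq V] {T : SimpleGraph V} {r : V} {par : V → V} {dep : V → ℕ} {S : Finset V}

theorem legs (hT : T.IsTree) {n : ℕ} (hn : Fintype.card V = n + 1) {B : Finset V} (hB : ∀ u w, T.Adj u w → (u ∈ B ↔ w ∉ B))
    (hr : r ∉ B) (h : Core T r par dep S) (hev : ∀ x, x ∉ S → par x ∉ S → Even (dep x)) {m : ℕ} (hm : 2 * S.card ≤ m)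
    (h0 : (univ.filter fun x => x ∉ S ∧ ¬ Even (dep x) ∧ ∀ y, y ∉ S → par y ≠ x).card ≤ 15 * m)
    (hA : 2 * (univ.filter fun x => x ∉ S ∧ Even (dep x)).card ≤ n + 42 * m) (hmn : 20000 * m ≤ n) :
    Decomposes T (completeBipartiteGraph (Fin n) (Fin n)) := by
  have hr0 : r ∈ S := h.root
  set ch : V → Finset V := fun u => univ.filter fun y => y ∉ S ∧ par y = u with hchd
  set U0 : Finset V := univ.filter fun x => x ∉ S ∧ ¬ Even (dep x) ∧ ∀ y, y ∉ S → par y ≠ x with hU0
  set RL : Finset V := univ.filter fun x => x ∉ S ∧ Even (dep x) with hRL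
  set Br : Finset V := univ.filter fun x => x ∉ S ∧ ¬ Even (dep x) ∧ ¬ ∀ y, y ∉ S → par y ≠ x with hBr
  set Wc : Finset V := RL.filter fun x => par x ∈ S with hWc
  set Br2 : Finset V := Br.filter fun u => 2 ≤ (ch u).card with hBr2
  set C2 : Finset V := univ.filter fun y => y ∉ S ∧ par y ∈ Br2 with hC2
  have mU0 : ∀ x, x ∈ U0 ↔ x ∉ S ∧ ¬ Even (dep x) ∧ ∀ y, y ∉ S → par y ≠ x := fun x => by simp [hU0]
  have mRL : ∀ x, x ∈ RL ↔ x ∉ S ∧ Even (dep x) := fun x => by simp [hRL]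
  have mBr : ∀ x, x ∈ Br ↔ x ∉ S ∧ ¬ Even (dep x) ∧ ¬ ∀ y, y ∉ S → par y ≠ x := fun x => by
    rw [hBr, mem_filter]; exact and_iff_right (mem_univ x)
  have mWc : ∀ x, x ∈ Wc ↔ (x ∉ S ∧ Even (dep x)) ∧ par x ∈ S := fun x => by rw [hWc, mem_filter, mRL]
  have mBr2 : ∀ x, x ∈ Br2 ↔ x ∈ Br ∧ 2 ≤ (ch x).card := fun x => by rw [hBr2, mem_filter]
  have mC2 : ∀ x, x ∈ C2 ↔ x ∉ S ∧ par x ∈ Br2 := fun x => by simp [hC2]
  have mch : ∀ u y, y ∈ ch u ↔ y ∉ S ∧ par y = u := fun u y => by simp [hchd]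
  have hpar : ∀ x, x ∉ S → dep x = dep (par x) + 1 := fun x hx =>
    h.rt.dep_par x (fun e => hx (e ▸ hr0))
  -- counting
  have c1 : S.card + U0.card + Br.card + RL.card = n + 1 := by
    have e1 := Finset.card_filter_add_card_filter_not (s := (univ : Finset V)) (fun x => x ∈ S)
    have e2 := Finset.card_filter_add_card_filter_not (s := univ.filter fun x => x ∉ S) (fun x => Even (dep x))
    have e3 := Finset.card_filter_add_card_filter_not
      (s := (univ.filter fun x => x ∉ S).filter fun x => ¬ Even (dep x)) (fun x => ∀ y, y ∉ S → par y ≠ x)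
    have e4 : (univ.filter fun x => x ∈ S) = S := by ext x; simp
    have e5 : ((univ.filter fun x => x ∉ S).filter fun x => Even (dep x)) = RL := by
      ext x; rw [mRL]; simp
    have e6 : (((univ.filter fun x => x ∉ S).filter fun x => ¬ Even (dep x)).filter
        fun x => ∀ y, y ∉ S → par y ≠ x) = U0 := by
      ext x; rw [mU0]; simp [and_assoc]
    have e7 : (((univ.filter fun x => x ∉ S).filter fun x => ¬ Even (dep x)).filter
        fun x => ¬ ∀ y, y ∉ S → par y ≠ x) = Br := by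
      ext x; rw [mBr]; simp [and_assoc]
    rw [e4, Finset.card_univ, hn] at e1
    rw [e5] at e2
    rw [e6, e7] at e3
    omega
  have hchild : ∀ x, x ∉ S → par x ∉ S → par x ∈ Br := by
    intro x hx hp
    have h1 := hev x hx hp
    rw [hpar x hx] at h1
    rw [mBr]
    refine ⟨hp, ?_, fun hh => hh x hx rfl⟩
    intro h2
    rw [Nat.even_add_one] at h1
    exact h1 h2
  have c2 : RL.card = Wc.card + ∑ u ∈ Br, (ch u).card := by
    rw [← Finset.card_filter_add_card_filter_not (s := RL) (fun x => par x ∈ S)]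
    congr 1
    rw [Finset.card_eq_sum_card_fiberwise (f := par) (t := Br)]
    · refine Finset.sum_congr rfl fun u hu => ?_
      congr 1
      ext x
      rw [mem_filter, mem_filter, mRL, mch]
      constructor
      · rintro ⟨⟨⟨h1, -⟩, -⟩, h2⟩
        exact ⟨h1, h2⟩
      · rintro ⟨h1, h2⟩
        have h3 : par x ∉ S := by rw [h2]; exact ((mBr u).1 hu).1
        exact ⟨⟨⟨h1, hev x h1 h3⟩, h3⟩, h2⟩
    · intro x hx
      have hx' := mem_filter.1 (Finset.mem_coe.1 hx)
      exact Finset.mem_coe.2 (hchild x ((mRL x).1 hx'.1).1 hx'.2)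
  have c3 : C2.card = ∑ u ∈ Br2, (ch u).card := by
    rw [Finset.card_eq_sum_card_fiberwise (f := par) (t := Br2)]
    · refine Finset.sum_congr rfl fun u hu => ?_
      congr 1
      ext x
      rw [mem_filter, mC2, mch]
      constructor
      · rintro ⟨⟨h1, -⟩, h2⟩
        exact ⟨h1, h2⟩
      · rintro ⟨h1, h2⟩
        exact ⟨⟨h1, by rw [h2]; exact hu⟩, h2⟩
    · intro x hx
      exact Finset.mem_coe.2 ((mC2 x).1 (Finset.mem_coe.1 hx)).2
  have c4 : 3 * Br.card + (Br2.card + C2.card) ≤ 3 * ∑ u ∈ Br, (ch u).card := by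
    have e1 : Br2.card + C2.card = ∑ u ∈ Br, if 2 ≤ (ch u).card then 1 + (ch u).card else 0 := by
      rw [← Finset.sum_filter, c3, Finset.sum_add_distrib, Finset.sum_const, smul_eq_mul, mul_one]
    have e2 : 3 * Br.card = ∑ u ∈ Br, 3 := by
      rw [Finset.sum_const, smul_eq_mul, mul_comm]
    rw [e1, e2, ← Finset.sum_add_distrib, Finset.mul_sum]
    refine Finset.sum_le_sum fun u hu => ?_
    have h1 : 1 ≤ (ch u).card := by
      have h2 := ((mBr u).1 hu).2.2
      push Not at h2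
      obtain ⟨y, hy, hyu⟩ := h2
      exact Finset.card_pos.2 ⟨y, (mch u y).2 ⟨hy, hyu⟩⟩
    split_ifs with h2
    · omega
    · omega
  -- the new core
  set S' : Finset V := S ∪ U0 ∪ Wc ∪ Br2 ∪ C2 with hS'
  have mS' : ∀ x, x ∈ S' ↔ x ∈ S ∨ x ∈ U0 ∨ x ∈ Wc ∨ x ∈ Br2 ∨ x ∈ C2 := fun x => by
    rw [hS']; simp only [mem_union, or_assoc]
  have c5 : S'.card ≤ S.card + U0.card + Wc.card + Br2.card + C2.card := by
    rw [hS']
    refine (Finset.card_union_le _ _).trans (Nat.add_le_add_right ?_ _)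
    refine (Finset.card_union_le _ _).trans (Nat.add_le_add_right ?_ _)
    refine (Finset.card_union_le _ _).trans (Nat.add_le_add_right ?_ _)
    exact Finset.card_union_le _ _
  have hsub : ∀ x, x ∉ S' → x ∉ S := fun x hx hxs => hx ((mS' x).2 (Or.inl hxs))
  have hs : 100 * S'.card ≤ n := by omega
  have hSpos : 0 < S.card := Finset.card_pos.2 ⟨r, hr0⟩
  have hn0 : 0 < n := by omega
  have hoddS : ∀ x, x ∉ S → ¬ Even (dep x) → par x ∈ S := by
    intro x hx ho
    by_contra hp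
    exact ho (hev x hx hp)
  have hcore : Core T r par dep S' := by
    refine ⟨h.rt, (mS' r).2 (Or.inl hr0), ?_, ?_⟩
    · intro x hx hxr
      rcases (mS' x).1 hx with h1 | h1 | h1 | h1 | h1
      · exact (mS' _).2 (Or.inl (h.closed x h1 hxr))
      · exact (mS' _).2 (Or.inl (hoddS x ((mU0 x).1 h1).1 ((mU0 x).1 h1).2.1))
      · exact (mS' _).2 (Or.inl ((mWc x).1 h1).2)
      · have h2 := (mBr x).1 ((mBr2 x).1 h1).1
        exact (mS' _).2 (Or.inl (hoddS x h2.1 h2.2.1))
      · exact (mS' _).2 (Or.inr (Or.inr (Or.inr (Or.inl ((mC2 x).1 h1).2))))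
    · intro x hx hp
      exact (mS' _).2 (Or.inl (h.two x (hsub x hx) (hsub _ hp)))
  have hodd : ∀ x, x ∉ S' → par x ∈ S' → ¬ Even (dep x) := by
    intro x hx hp he
    have hxS := hsub x hx
    have hpS : par x ∉ S := fun hps =>
      hx ((mS' x).2 (Or.inr (Or.inr (Or.inl ((mWc x).2 ⟨⟨hxS, he⟩, hps⟩)))))
    have hB1 := hchild x hxS hpS
    have hB2 := (mBr _).1 hB1
    rcases (mS' _).1 hp with h1 | h1 | h1 | h1 | h1
    · exact hpS h1
    · exact ((mU0 _).1 h1).2.2 x hxS rfl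
    · exact hB2.2.1 ((mWc _).1 h1).1.2
    · exact hx ((mS' x).2 (Or.inr (Or.inr (Or.inr (Or.inr ((mC2 x).2 ⟨hxS, h1⟩))))))
    · have h2 := (mC2 _).1 h1
      have h3 := (mBr _).1 ((mBr2 _).1 h2.2).1
      exact hB2.2.1 (hev _ h2.1 h3.1)
  have hinj : ∀ x y, x ∉ S' → y ∉ S' → par x ∉ S' → par x = par y → x = y := by
    intro x y hx hy hp hxy
    have hpS := hsub _ hp
    have hB1 := hchild x (hsub x hx) hpS
    by_contra hne
    have h2 : 2 ≤ (ch (par x)).card := by
      have h3 : ({x, y} : Finset V) ⊆ ch (par x) := by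
        intro z hz
        rw [mem_insert, mem_singleton] at hz
        rcases hz with rfl | rfl
        · exact (mch _ _).2 ⟨hsub _ hx, rfl⟩
        · exact (mch _ _).2 ⟨hsub _ hy, hxy.symm⟩
      have h4 := Finset.card_le_card h3
      rwa [Finset.card_pair hne] at h4
    exact hp ((mS' _).2 (Or.inr (Or.inr (Or.inr (Or.inl ((mBr2 _).2 ⟨hB1, h2⟩))))))
  have hch : ∀ u, u ∉ S' → par u ∈ S' → ∃ x, x ∉ S' ∧ par x = u := by
    intro u hu hp
    have ho := hodd u hu hp
    have huS := hsub u hu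
    have h1 : ¬ ∀ y, y ∉ S → par y ≠ u := fun hh =>
      hu ((mS' u).2 (Or.inr (Or.inl ((mU0 u).2 ⟨huS, ho, hh⟩))))
    have h1' := h1
    push Not at h1'
    obtain ⟨y, hy, hyu⟩ := h1'
    have hyp : par y ∉ S := by rw [hyu]; exact huS
    have hye := hev y hy hyp
    refine ⟨y, fun hyS => ?_, hyu⟩
    rcases (mS' y).1 hyS with h2 | h2 | h2 | h2 | h2
    · exact hy h2
    · exact ((mU0 y).1 h2).2.1 hye
    · exact hyp ((mWc y).1 h2).2
    · exact ((mBr y).1 ((mBr2 y).1 h2).1).2.1 hye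
    · have h3 := ((mC2 y).1 h2).2
      rw [hyu] at h3
      exact hu ((mS' u).2 (Or.inr (Or.inr (Or.inr (Or.inl h3)))))
  obtain ⟨f, hf⟩ := diagD hcore hodd hinj hch hn hs
  exact decomposes_of_labR hT hn hn0 hB h.rt hr hf

end Pool.Agent.Helper1.GU
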