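import Pool.Agent.Helper1.GU.DiagC

/-!
BLOCK GU-6 (about 200 lines). Few column leaves, more than half of the vertices are row leaves: two blocks.

Setting: `Core1`: second level vertices are rows (`hev`). `RL` = rows outside `S` = `{x : x ∉ S, Even (dep x)}`; each of them is a leaf whose only neighbour is `par x` (a child `y` of `x` would be outside `S` with `par y ∉ S`, so of even depth, but `dep y = dep x + 1`). `n + 42 m ≤ 2 |RL|`. `t ≥ 35 m` column brooms (odd depth, outside `S`, with a child outside `S`).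
Proof in words.
* Brooms: choose disjoint sets `F1`, `F2` of `15 m` brooms each and `P` of... precisely: first two disjoint sets of `15 m` brooms; let `F` be the one with the smaller number of children; the sets of the children are disjoint subsets of `RL`, `F1`, `F2` and `RL` are disjoint, `|RL| + 30 m ≤ n`, so `F` has at most `|RL| / 2 ≤ (n - 30 m) / 2` children. `P` = `20 m` brooms outside `F` (`t ≥ 35 m`), `Prot` = one child of each vertex of `P` (`20 m` elements of `RL`).
* For `i = 0, 1`: `N 0 = n / 2`, `N 1 = n - n / 2` and `R i` a set with `children(F) ⊆ R i ⊆ RL \ Prot` and `|R i| = N (1 - i)` (`Finset.exists_subsuperset_card_eq`: `|children F| ≤ (n - 30m)/2 ≤ n / 2 ≤ N (1-i) ≤ (n+1)/2 ≤ |RL| - 20 m`; `m ≥ 2` because `S` is not empty). `K i = univ \ R i`, `|K i| = n + 1 - N (1-i) = N i + 1`.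
* `diagC` for `K i`: `S ⊆ K i`; `par x ∈ K i` for `x ≠ r` (`par x ∉ RL` because rows outside `S` have no children); column leaves of `K i` ⊇ `F`, brooms of `K i` ⊇ `P`.
* `blocks` with `q = 2`, `G = False`: no vertex of `B` is removed (the removed ones have even depth, `parity`), `|R i| = N (1 - i) = ∑_{j ≠ i} N j`, `labR_lab`; `hK`: the only neighbour of a removed `x` is `par x ∈ K i`.
-/

set_option autoImplicit false

namespace Pool.Agent.Helper1.GU

open Finset Pool.Agent.Helper19.GH Pool.Agent.Helper1.GN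

variable {V : Type} [Fintype V] [DecidableEq V] {T : SimpleGraph V} {r : V} {par : V → V} {dep : V → ℕ} {S : Finset V}

omit [Fintype V] [DecidableEq V] in
/-- No children. -/
private theorem nochild19 (h : Core T r par dep S) (hev : ∀ x, x ∉ S → par x ∉ S → Even (dep x)) {x y : V}
    (hx : x ∉ S) (hxe : Even (dep x)) (hy : y ≠ r) (hyx : par y = x) : False := by
  have h1 : y ∉ S := by
    intro h2
    have h3 := h.closed y h2 hy
    rw [hyx] at h3
    exact hx h3
  have h4 : Even (dep y) := hev y h1 (by rw [hyx]; exact hx)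
  have h5 := h.rt.dep_par y hy
  rw [hyx] at h5
  rw [h5, Nat.even_add_one] at h4
  exact h4 hxe

/-- Two disjoint sets of brooms, one with few children. -/
private theorem fewch19 (h : Core T r par dep S) {n : ℕ} (hn : Fintype.card V = n + 1)
    (hev : ∀ x, x ∉ S → par x ∉ S → Even (dep x)) {m : ℕ}
    (ht : 35 * m ≤ (univ.filter fun x => x ∉ S ∧ ¬ Even (dep x) ∧ ∃ y, y ∉ S ∧ par y = x).card) :
    ∃ F : Finset V, F ⊆ (univ.filter fun x => x ∉ S ∧ ¬ Even (dep x) ∧ ∃ y, y ∉ S ∧ par y = x) ∧ F.card = 15 * m ∧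
      2 * (univ.filter fun y => y ∉ S ∧ par y ∈ F).card + 30 * m ≤ n := by
  classical
  set Br : Finset V := univ.filter fun x => x ∉ S ∧ ¬ Even (dep x) ∧ ∃ y, y ∉ S ∧ par y = x with hBr
  set RL : Finset V := univ.filter fun x => x ∉ S ∧ Even (dep x) with hRL
  obtain ⟨F1, hF1, hc1⟩ := Finset.exists_subset_card_eq (s := Br) (n := 15 * m) (by omega)
  have h2 : 15 * m ≤ (Br \ F1).card := by
    rw [Finset.card_sdiff_of_subset hF1]
    omega
  obtain ⟨F2, hF2, hc2⟩ := Finset.exists_subset_card_eq h2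
  have hF2' : F2 ⊆ Br := hF2.trans Finset.sdiff_subset
  have hd : Disjoint F1 F2 := by
    rw [Finset.disjoint_left]
    intro x hx hx2
    exact (Finset.mem_sdiff.1 (hF2 hx2)).2 hx
  set C1 : Finset V := univ.filter fun y => y ∉ S ∧ par y ∈ F1 with hC1
  set C2 : Finset V := univ.filter fun y => y ∉ S ∧ par y ∈ F2 with hC2
  have hsub : ∀ F : Finset V, F ⊆ Br → (univ.filter fun y => y ∉ S ∧ par y ∈ F) ⊆ RL := by
    intro F hF y hy
    rw [Finset.mem_filter] at hy
    have h3 := hF hy.2.2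
    rw [hBr, Finset.mem_filter] at h3
    rw [hRL, Finset.mem_filter]
    exact ⟨mem_univ _, hy.2.1, hev y hy.2.1 h3.2.1⟩
  have hCd : Disjoint C1 C2 := by
    rw [Finset.disjoint_left]
    intro y hy1 hy2
    rw [hC1, Finset.mem_filter] at hy1
    rw [hC2, Finset.mem_filter] at hy2
    exact Finset.disjoint_left.1 hd hy1.2.2 hy2.2.2
  have hCsum : C1.card + C2.card ≤ RL.card := by
    rw [← Finset.card_union_of_disjoint hCd]
    exact Finset.card_le_card (Finset.union_subset (hsub F1 hF1) (hsub F2 hF2'))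
  have hF12 : (F1 ∪ F2).card = 30 * m := by
    rw [Finset.card_union_of_disjoint hd, hc1, hc2]; ring
  have hF12R : Disjoint (F1 ∪ F2) RL := by
    rw [Finset.disjoint_left]
    intro x hx hx2
    have h3 : x ∈ Br := (Finset.union_subset hF1 hF2') hx
    rw [hBr, Finset.mem_filter] at h3
    rw [hRL, Finset.mem_filter] at hx2
    exact h3.2.2.1 hx2.2.2
  have hr0 : r ∉ (F1 ∪ F2) ∪ RL := by
    intro hx
    rcases Finset.mem_union.1 hx with hx | hx
    · have h3 : r ∈ Br := (Finset.union_subset hF1 hF2') hx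
      rw [hBr, Finset.mem_filter] at h3
      exact h3.2.1 h.root
    · rw [hRL, Finset.mem_filter] at hx
      exact hx.2.1 h.root
  have hle : 30 * m + RL.card + 1 ≤ n + 1 := by
    rw [← hF12, ← Finset.card_union_of_disjoint hF12R, ← Finset.card_insert_of_notMem hr0, ← hn]
    exact Finset.card_le_univ _
  rcases le_total C1.card C2.card with hcc | hcc
  · refine ⟨F1, hF1, hc1, ?_⟩
    have h5 : 2 * C1.card + 30 * m ≤ n := by omega
    exact h5
  · refine ⟨F2, hF2', hc2, ?_⟩
    have h5 : 2 * C2.card + 30 * m ≤ n := by omega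
    exact h5

/-- One block. -/
private theorem block19 (h : Core T r par dep S) {n : ℕ} (hn : Fintype.card V = n + 1)
    (hev : ∀ x, x ∉ S → par x ∉ S → Even (dep x)) {m : ℕ} (hm : 2 * S.card ≤ m)
    (ht : 35 * m ≤ (univ.filter fun x => x ∉ S ∧ ¬ Even (dep x) ∧ ∃ y, y ∉ S ∧ par y = x).card)
    (hA : n + 42 * m ≤ 2 * (univ.filter fun x => x ∉ S ∧ Even (dep x)).card)
    (N M : ℕ) (hNM : N + M = n) (h1 : n / 2 ≤ M) (h2 : M ≤ n - n / 2) :
    ∃ R : Finset V, R ⊆ (univ.filter fun x => x ∉ S ∧ Even (dep x)) ∧ R.card = M ∧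
      ∃ f : V → ZMod N, LabR r par dep (univ \ R) f := by
  classical
  obtain ⟨F, hF, hFc, hFn⟩ := fewch19 h hn hev ht
  set Br : Finset V := univ.filter fun x => x ∉ S ∧ ¬ Even (dep x) ∧ ∃ y, y ∉ S ∧ par y = x with hBr
  set RL : Finset V := univ.filter fun x => x ∉ S ∧ Even (dep x) with hRL
  set CF : Finset V := univ.filter fun y => y ∉ S ∧ par y ∈ F with hCF
  have hm2 : 2 ≤ m := by
    have h3 : 1 ≤ S.card := Finset.card_pos.2 ⟨r, h.root⟩
    omega
  have hP0 : 20 * m ≤ (Br \ F).card := by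
    rw [Finset.card_sdiff_of_subset hF]
    omega
  obtain ⟨P, hP, hPc⟩ := Finset.exists_subset_card_eq hP0
  have hPB : ∀ b ∈ P, b ∈ Br := fun b hb => (Finset.mem_sdiff.1 (hP hb)).1
  have hPF : ∀ b ∈ P, b ∉ F := fun b hb => (Finset.mem_sdiff.1 (hP hb)).2
  have hg : ∀ b : V, ∃ y : V, b ∈ Br → (y ∉ S ∧ par y = b) := by
    intro b
    by_cases hb : b ∈ Br
    · have h3 := hb
      rw [hBr, Finset.mem_filter] at h3
      obtain ⟨y, hy⟩ := h3.2.2.2
      exact ⟨y, fun _ => hy⟩
    · exact ⟨b, fun h3 => absurd h3 hb⟩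
  choose g hg using hg
  have hginj : Set.InjOn g (P : Set V) := by
    intro a ha b hb hab
    have h3 := (hg a (hPB a ha)).2
    have h4 := (hg b (hPB b hb)).2
    rw [← h3, ← h4, hab]
  have hPr : (P.image g).card = 20 * m := by
    rw [Finset.card_image_of_injOn hginj, hPc]
  have hPrR : P.image g ⊆ RL := by
    intro y hy
    obtain ⟨b, hb, rfl⟩ := Finset.mem_image.1 hy
    have h3 := hg b (hPB b hb)
    have h4 := hPB b hb
    rw [hBr, Finset.mem_filter] at h4
    rw [hRL, Finset.mem_filter]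
    refine ⟨mem_univ _, h3.1, hev _ h3.1 ?_⟩
    rw [h3.2]
    exact h4.2.1
  have hCR : CF ⊆ RL \ P.image g := by
    intro y hy
    rw [hCF, Finset.mem_filter] at hy
    have h3 := hF hy.2.2
    rw [Finset.mem_filter] at h3
    rw [Finset.mem_sdiff]
    refine ⟨?_, ?_⟩
    · rw [hRL, Finset.mem_filter]
      exact ⟨mem_univ _, hy.2.1, hev y hy.2.1 h3.2.1⟩
    · intro h4
      obtain ⟨b, hb, hby⟩ := Finset.mem_image.1 h4
      have h5 := (hg b (hPB b hb)).2
      rw [hby] at h5
      apply hPF b hb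
      rw [← h5]
      exact hy.2.2
  have hcard1 : CF.card ≤ M := by omega
  have hcard2 : M ≤ (RL \ P.image g).card := by
    rw [Finset.card_sdiff_of_subset hPrR, hPr]
    omega
  obtain ⟨R, hR1, hR2, hR3⟩ := Finset.exists_subsuperset_card_eq hCR hcard1 hcard2
  have hRR : R ⊆ RL := hR2.trans Finset.sdiff_subset
  refine ⟨R, hRR, hR3, ?_⟩
  have hRS : ∀ x ∈ R, x ∉ S := by
    intro x hx
    have h3 := hRR hx
    rw [hRL, Finset.mem_filter] at h3
    exact h3.2.1
  have hRe : ∀ x ∈ R, Even (dep x) := by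
    intro x hx
    have h3 := hRR hx
    rw [hRL, Finset.mem_filter] at h3
    exact h3.2.2
  have hK : (univ \ R).card = N + 1 := by
    rw [Finset.card_sdiff_of_subset (Finset.subset_univ _), Finset.card_univ, hn, hR3]
    omega
  refine diagC (K := univ \ R) h ?_ ?_ ?_ hK hm ?_ ?_
  · intro x hx
    rw [Finset.mem_sdiff]
    exact ⟨mem_univ _, fun h3 => hRS x h3 hx⟩
  · intro x _ hxr
    rw [Finset.mem_sdiff]
    exact ⟨mem_univ _, fun h3 => nochild19 h hev (hRS _ h3) (hRe _ h3) hxr rfl⟩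
  · intro x _ hxS hpS
    exact hev x hxS hpS
  · rw [← hFc]
    refine Finset.card_le_card ?_
    intro b hb
    have h3 := hF hb
    rw [Finset.mem_filter] at h3
    rw [Finset.mem_filter, Finset.mem_sdiff, Finset.mem_sdiff]
    refine ⟨⟨⟨mem_univ _, fun h4 => h3.2.2.1 (hRe _ h4)⟩, h3.2.1⟩, h3.2.2.1, ?_⟩
    intro y hy hyb
    rw [Finset.mem_sdiff, Finset.mem_sdiff] at hy
    apply hy.1.2
    apply hR1
    rw [hCF, Finset.mem_filter]
    exact ⟨mem_univ _, hy.2, by rw [hyb]; exact hb⟩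
  · rw [← hPc]
    refine Finset.card_le_card ?_
    intro b hb
    have h3 := hPB b hb
    rw [hBr, Finset.mem_filter] at h3
    rw [Finset.mem_filter, Finset.mem_sdiff, Finset.mem_sdiff]
    refine ⟨⟨⟨mem_univ _, fun h4 => h3.2.2.1 (hRe _ h4)⟩, h3.2.1⟩, h3.2.2.1, ?_⟩
    have h5 := hg b (hPB b hb)
    refine ⟨g b, ?_, h5.2⟩
    rw [Finset.mem_sdiff, Finset.mem_sdiff]
    refine ⟨⟨mem_univ _, fun h6 => ?_⟩, h5.1⟩
    exact (Finset.mem_sdiff.1 (hR2 h6)).2 (Finset.mem_image_of_mem g hb)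

theorem two_blocks (hT : T.IsTree) {n : ℕ} (hn : Fintype.card V = n + 1) {B : Finset V} (hB : ∀ u w, T.Adj u w → (u ∈ B ↔ w ∉ B))
    (hr : r ∉ B) (h : Core T r par dep S) (hev : ∀ x, x ∉ S → par x ∉ S → Even (dep x)) {m : ℕ} (hm : 2 * S.card ≤ m)
    (ht : 35 * m ≤ (univ.filter fun x => x ∉ S ∧ ¬ Even (dep x) ∧ ∃ y, y ∉ S ∧ par y = x).card)
    (hA : n + 42 * m ≤ 2 * (univ.filter fun x => x ∉ S ∧ Even (dep x)).card) :
    Decomposes T (completeBipartiteGraph (Fin n) (Fin n)) := by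
  classical
  have hn2 : 2 ≤ n := by
    obtain ⟨F, _, _, hFn⟩ := fewch19 h hn hev ht
    have h3 : 1 ≤ S.card := Finset.card_pos.2 ⟨r, h.root⟩
    omega
  have hA' : ∀ N M : ℕ, N + M = n → n / 2 ≤ M → M ≤ n - n / 2 →
      ∃ R : Finset V, R ⊆ (univ.filter fun x => x ∉ S ∧ Even (dep x)) ∧ R.card = M ∧
      ∃ f : V → ZMod N, LabR r par dep (univ \ R) f := fun N M h1 h2 h3 =>
    block19 h hn hev hm ht hA N M h1 h2 h3
  let N : Fin 2 → ℕ := ![n / 2, n - n / 2]
  have hH : ∀ i : Fin 2, ∃ R : Finset V, R ⊆ (univ.filter fun x => x ∉ S ∧ Even (dep x)) ∧ R.card = n - N i ∧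
      ∃ f : V → ZMod (N i), LabR r par dep (univ \ R) f := by
    intro i
    fin_cases i
    · exact hA' (n / 2) (n - n / 2) (by omega) (by omega) (by omega)
    · exact hA' (n - n / 2) (n - (n - n / 2)) (by omega) (by omega) (by omega)
  choose R hR1 hR2 hR3 using hH
  have hRS : ∀ i, ∀ x ∈ R i, x ∉ S := by
    intro i x hx
    have h3 := hR1 i hx
    rw [Finset.mem_filter] at h3
    exact h3.2.1
  have hRe : ∀ i, ∀ x ∈ R i, Even (dep x) := by
    intro i x hx
    have h3 := hR1 i hx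
    rw [Finset.mem_filter] at h3
    exact h3.2.2
  have hnb : ∀ i, ∀ x ∈ R i, ∀ y, T.Adj x y → y = par x := by
    intro i x hx y hxy
    rcases h.rt.edge x y hxy with ⟨_, h3⟩ | ⟨hy, h3⟩
    · exact h3.symm
    · exact (nochild19 h hev (hRS i x hx) (hRe i x hx) hy h3).elim
  have hmem : ∀ i x, x ∉ univ \ R i → x ∈ R i := by
    intro i x hx
    by_contra h3
    exact hx (Finset.mem_sdiff.2 ⟨mem_univ _, h3⟩)
  refine blocks V T hT n hn B hB 2 N ?_ ?_ (fun _ _ => False) (fun _ _ h => h) (fun _ h => h)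
    (fun i => univ \ R i) ?_ ?_ ?_ ?_
  · intro i
    fin_cases i
    · show 0 < n / 2
      omega
    · show 0 < n - n / 2
      omega
  · rw [Fin.sum_univ_two]
    show n / 2 + (n - n / 2) = n
    omega
  · intro i x hx y hxy
    have hx' := hmem i x hx
    have hxr : x ≠ r := fun h3 => hRS i x hx' (h3 ▸ h.root)
    have hy := hnb i x hx' y hxy
    refine ⟨?_, fun z hz => by rw [hy, hnb i x hx' z hz]⟩
    rw [Finset.mem_sdiff]
    refine ⟨mem_univ _, fun h3 => ?_⟩
    rw [hy] at h3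
    exact nochild19 h hev (hRS i _ h3) (hRe i _ h3) hxr rfl
  · intro i
    rw [Finset.filter_false_of_mem (fun x _ h3 => ?_), card_empty]
    · exact Nat.zero_le _
    · exact (parity hB h.rt hr x).1 (hRe i x (hmem i x h3.1)) h3.2
  · intro i
    have h3 : (univ.filter fun x => x ∉ univ \ R i ∧ x ∉ B).card ≤ n - N i := by
      rw [← hR2 i]
      refine Finset.card_le_card ?_
      intro x hx
      rw [Finset.mem_filter] at hx
      exact hmem i x hx.2.1
    refine h3.trans ?_
    rw [Fin.sum_univ_two]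
    fin_cases i
    · show n - n / 2 ≤ _
      simp [N]
    · show n - (n - n / 2) ≤ _
      simp [N]
      omega
  · intro i
    obtain ⟨f, hf⟩ := hR3 i
    exact ⟨f, labR_lab hB h.rt hr hf⟩

end Pool.Agent.Helper1.GU
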