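import Pool.Agent.Helper1.GN.Main
import Pool.Agent.Helper1.GU.DiagE
import Pool.Agent.Helper1.GU.DStar
import Pool.Agent.Helper1.GU.TwoB
import Pool.Agent.Helper1.GU.Legs

/-!
Project GU: every tree with `n` edges in which at most `n / 10^7` vertices have two or more non-leaf neighbours decomposes `K_{n,n}`.
-/

set_option autoImplicit false

namespace Pool.Agent.Helper1.GU

open Finset Pool.Agent.Helper19.GH Pool.Agent.Helper1.GN

section

variable {V : Type} [Fintype V] [DecidableEq V] {T : SimpleGraph V}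

theorem Core.pos {r : V} {par : V → V} {dep : V → ℕ} {S : Finset V} (h : Core T r par dep S) : 1 ≤ S.card :=
  card_pos.2 ⟨r, h.root⟩

/-- One sided brooms. -/
theorem one_sided (hT : T.IsTree) {n : ℕ} (hn : Fintype.card V = n + 1) {B : Finset V} (hB : ∀ u w, T.Adj u w → (u ∈ B ↔ w ∉ B))
    {r : V} {par : V → V} {dep : V → ℕ} {S : Finset V}
    (hr : r ∉ B) (h : Core T r par dep S) (hev : ∀ x, x ∉ S → par x ∉ S → Even (dep x))
    (ht : 70 * S.card ≤ (univ.filter fun x => x ∉ S ∧ ¬ Even (dep x) ∧ ∃ y, y ∉ S ∧ par y = x).card)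
    (hn' : 40000 * S.card ≤ n) : Decomposes T (completeBipartiteGraph (Fin n) (Fin n)) := by
  classical
  have hs := h.pos
  obtain ⟨m, hm⟩ : ∃ m, m = 2 * S.card := ⟨_, rfl⟩
  by_cases hU : 15 * m ≤ (univ.filter fun x => x ∉ S ∧ ¬ Even (dep x) ∧ ∀ y, y ∉ S → par y ≠ x).card
  · obtain ⟨f, hf⟩ := diagC (K := univ) (N := n) (m := m) h (subset_univ S) (fun x _ _ => mem_univ _) (fun x _ => hev x)
      (by rw [card_univ, hn]) hm.ge (by
        refine le_trans hU (card_le_card fun x hx => ?_)
        simpa using hx) (by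
        refine le_trans (show 20 * m ≤ 70 * S.card by omega) (le_trans ht (card_le_card fun x hx => ?_))
        simpa using hx)
    exact decomposes_of_labR hT hn (by omega) hB h.rt hr hf
  · by_cases hA : n + 42 * m ≤ 2 * (univ.filter fun x => x ∉ S ∧ Even (dep x)).card
    · exact two_blocks hT hn hB hr h hev hm.ge (by omega) hA
    · exact legs hT hn hB hr h hev hm.ge (by omega) (by omega) (by omega)

/-- Brooms on both sides. -/
theorem two_sided (hT : T.IsTree) {n : ℕ} (hn : Fintype.card V = n + 1) (hn0 : 0 < n) {B : Finset V}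
    (hB : ∀ u w, T.Adj u w → (u ∈ B ↔ w ∉ B)) {r : V} {par : V → V} {dep : V → ℕ} {S : Finset V}
    (hr : r ∉ B) (h : Core T r par dep S)
    (h1 : 80 * S.card ≤ (univ.filter fun x => x ∉ S ∧ ¬ Even (dep x) ∧ ∃ y, y ∉ S ∧ par y = x).card)
    (h2 : 80 * S.card ≤ (univ.filter fun x => x ∉ S ∧ Even (dep x) ∧ ∃ y, y ∉ S ∧ par y = x).card) :
    Decomposes T (completeBipartiteGraph (Fin n) (Fin n)) := by
  obtain ⟨f, hf⟩ := diagE (N := n) (m := 2 * S.card) h hn le_rfl (by omega) (by omega)
  exact decomposes_of_labR hT hn hn0 hB h.rt hr hf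

theorem compl_adj {B : Finset V} (hB : ∀ u w, T.Adj u w → (u ∈ B ↔ w ∉ B)) : ∀ u w, T.Adj u w → (u ∈ Bᶜ ↔ w ∉ Bᶜ) := by
  intro u w huw
  have := hB u w huw
  rw [mem_compl, mem_compl]
  tauto

open Classical in
/-- The non-leaves in `B` with at most one non-leaf neighbour. -/
noncomputable def nb (T : SimpleGraph V) (B : Finset V) : Finset V := univ.filter fun x => x ∈ B ∧ x ∉ hub T ∧ T.degree x ≠ 1

open Classical in
theorem mem_nb {B : Finset V} {x : V} : x ∈ nb T B ↔ x ∈ B ∧ x ∉ hub T ∧ T.degree x ≠ 1 := by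
  rw [nb, mem_filter, and_iff_right (mem_univ x)]

/-- Both sides. -/
theorem main_two (hT : T.IsTree) {n : ℕ} (hn : Fintype.card V = n + 1) (hn0 : 0 < n) {B : Finset V}
    (hB : ∀ u w, T.Adj u w → (u ∈ B ↔ w ∉ B)) {r : V} (hrh : r ∈ hub T) (hr : r ∉ B)
    (h1 : 80 * (hub T).card ≤ (nb T B).card) (h2 : 80 * (hub T).card ≤ (nb T Bᶜ).card) :
    Decomposes T (completeBipartiteGraph (Fin n) (Fin n)) := by
  obtain ⟨par, dep, hR⟩ := exists_RT T hT r
  have hc := core_hub hR hrh
  refine two_sided hT hn hn0 hB hr hc (le_trans h1 (card_le_card fun x hx => ?_)) (le_trans h2 (card_le_card fun x hx => ?_))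
  · rw [mem_nb] at hx
    rw [mem_filter]
    exact ⟨mem_univ x, hx.2.1, fun he => (parity hB hR hr x).1 he hx.1, (broom_iff hR hrh hc.closed hx.2.1).1 hx.2.2⟩
  · rw [mem_nb] at hx
    rw [mem_filter]
    exact ⟨mem_univ x, hx.2.1, (parity hB hR hr x).2 (mem_compl.1 hx.1), (broom_iff hR hrh hc.closed hx.2.1).1 hx.2.2⟩

/-- One side. -/
theorem main_one (hT : T.IsTree) {n : ℕ} (hn : Fintype.card V = n + 1) {B : Finset V}
    (hB : ∀ u w, T.Adj u w → (u ∈ B ↔ w ∉ B)) (hne : (hub T).Nonempty) (hsn : 10000000 * (hub T).card ≤ n)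
    (h1 : 5670 * (hub T).card ≤ (nb T B).card) (h2 : (nb T Bᶜ).card ≤ 80 * (hub T).card) :
    Decomposes T (completeBipartiteGraph (Fin n) (Fin n)) := by
  classical
  have hs : 1 ≤ (hub T).card := card_pos.2 hne
  obtain ⟨r0, hr0⟩ := hne
  obtain ⟨x0, hx0⟩ : (nb T B).Nonempty := card_pos.1 (by omega)
  rw [mem_nb] at hx0
  -- the root
  obtain ⟨r, hrh, hr⟩ : ∃ r ∈ hub T, r ∉ B := by
    obtain ⟨par, dep, hR⟩ := exists_RT T hT r0
    have hx0r : x0 ≠ r0 := fun e => hx0.2.1 (e ▸ hr0)
    refine ⟨par x0, ?_, (hB _ _ (hR.adj x0 hx0r)).1 hx0.1⟩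
    by_contra hp
    exact hx0.2.2 (leaf_of_two hR hr0 hx0r hp)
  obtain ⟨par, dep, hR⟩ := exists_RT T hT r
  have hc := core_hub hR hrh
  set S : Finset V := hub T ∪ nb T Bᶜ with hS
  have hpar : ∀ x, x ∈ nb T Bᶜ → par x ∈ hub T := by
    intro x hx
    rw [mem_nb] at hx
    by_contra hp
    exact hx.2.2 (leaf_of_two hR hrh (fun e => hx.2.1 (e ▸ hrh)) hp)
  have hcl : ∀ x ∈ S, x ≠ r → par x ∈ S := by
    intro x hx hxr
    rcases mem_union.1 hx with h | h
    · exact mem_union_left _ (hc.closed x h hxr)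
    · exact mem_union_left _ (hpar x h)
  have hnot : ∀ x, x ∉ S → x ∉ hub T := fun x hx h => hx (mem_union_left _ h)
  have hcore : Core T r par dep S :=
    ⟨hR, mem_union_left _ hrh, hcl, fun x hx hp => mem_union_left _ (hc.two x (hnot x hx) (hnot _ hp))⟩
  have hScard : S.card ≤ 81 * (hub T).card := by
    refine le_trans (card_union_le _ _) ?_
    omega
  refine one_sided hT hn hB hr hcore ?_ ?_ (by omega)
  · intro x hx hp
    have hxr : x ≠ r := fun e => hnot x hx (e ▸ hrh)
    have h3 := (broom_iff hR hrh hc.closed (hnot _ hp)).2 ⟨x, hnot x hx, rfl⟩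
    have h4 : par x ∈ B := by
      by_contra h5
      exact hp (mem_union_right _ (mem_nb.2 ⟨mem_compl.2 h5, hnot _ hp, h3⟩))
    exact (parity hB hR hr x).2 ((hB _ _ (hR.adj x hxr).symm).1 h4)
  · refine le_trans (show 70 * S.card ≤ 5670 * (hub T).card by omega) (le_trans h1 (card_le_card fun x hx => ?_))
    rw [mem_nb] at hx
    have hxS : x ∉ S := by
      intro h
      rcases mem_union.1 h with h | h
      · exact hx.2.1 h
      · exact (mem_compl.1 (mem_nb.1 h).1) hx.1
    rw [mem_filter]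
    exact ⟨mem_univ x, hxS, fun he => (parity hB hR hr x).1 he hx.1, (broom_iff hR hcore.root hcl hxS).1 hx.2.2⟩

open Classical in
theorem main_aux' (hT : T.IsTree) {n : ℕ} (hn : Fintype.card V = n + 1) {B : Finset V}
    (hB : ∀ u w, T.Adj u w → (u ∈ B ↔ w ∉ B)) (hne : (hub T).Nonempty) (hsn : 10000000 * (hub T).card ≤ n)
    (hle : (nb T Bᶜ).card ≤ (nb T B).card) : Decomposes T (completeBipartiteGraph (Fin n) (Fin n)) := by
  have hs : 1 ≤ (hub T).card := card_pos.2 hne
  by_cases h1 : 80 * (hub T).card ≤ (nb T Bᶜ).card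
  · obtain ⟨r, hr⟩ := hne
    by_cases hrB : r ∈ B
    · exact main_two hT hn (by omega) (compl_adj hB) hr (by simpa using hrB) h1 (by rw [compl_compl]; omega)
    · exact main_two hT hn (by omega) hB hr hrB (by omega) h1
  · by_cases h2 : 5670 * (hub T).card ≤ (nb T B).card
    · exact main_one hT hn hB hne hsn h2 (by omega)
    · refine few_nonleaves V T n hT hn ?_
      have h3 : (univ.filter fun x => T.degree x ≠ 1) ⊆ hub T ∪ (nb T B ∪ nb T Bᶜ) := by
        intro x hx
        rw [mem_filter] at hx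
        rw [mem_union, mem_union, mem_nb, mem_nb, mem_compl]
        tauto
      have h4 := card_le_card h3
      have h5 := card_union_le (hub T) (nb T B ∪ nb T Bᶜ)
      have h6 := card_union_le (nb T B) (nb T Bᶜ)
      omega

end

open Classical in
/-- Every tree with `n` edges in which at most `n / 10^7` vertices have two or more non-leaf neighbours decomposes `K_{n,n}`. -/
theorem few_hubs (V : Type) [Fintype V] (T : SimpleGraph V) (n : ℕ) (hT : T.IsTree) (hn : Fintype.card V = n + 1)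
    (h : 10000000 * (univ.filter fun x => 2 ≤ (univ.filter fun y => T.Adj x y ∧ T.degree y ≠ 1).card).card ≤ n) :
    Decomposes T (completeBipartiteGraph (Fin n) (Fin n)) := by
  have hh : 10000000 * (hub T).card ≤ n := h
  rcases Nat.lt_or_ge n 2 with h2 | h2
  · have h0 : n = 0 ∨ n = 1 := by omega
    rcases h0 with h0 | h0
    · subst h0
      exact ⟨0, fun i => i.elim0, fun i => i.elim0, fun i => i.elim0, fun x => by
        rcases x with x | x <;> exact x.elim0⟩
    · subst h0
      exact Pool.Agent.Helper80.GH.two_dense V T 1 hT hn (fun D hD hD1 => by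
        have := Nat.dvd_one.1 hD
        omega)
  obtain ⟨r⟩ := hT.connected.nonempty
  obtain ⟨par, dep, hr⟩ := exists_RT T hT r
  set B : Finset V := univ.filter fun x => ¬ Even (dep x) with hBdef
  have hB : ∀ u w, T.Adj u w → (u ∈ B ↔ w ∉ B) := by
    intro u w huw
    rw [hBdef, mem_filter, mem_filter, and_iff_right (mem_univ _), and_iff_right (mem_univ _), not_not]
    rcases hr.edge u w huw with ⟨h1, h2⟩ | ⟨h1, h2⟩
    · have := hr.dep_par u h1
      rw [h2] at this
      rw [this, Nat.even_add_one, not_not]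
    · have := hr.dep_par w h1
      rw [h2] at this
      rw [this, Nat.even_add_one]
  rcases (hub T).eq_empty_or_nonempty with h0 | h0
  · exact double_star hT hn (by omega) hB h0
  · rcases le_total (nb T Bᶜ).card (nb T B).card with h7 | h7
    · exact main_aux' hT hn hB h0 hh h7
    · exact main_aux' hT hn (compl_adj hB) h0 hh (by rw [compl_compl]; exact h7)

end Pool.Agent.Helper1.GU
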